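import Pool.Agent.H19.Wa.Defs

/-!
# Definitions for the covering argument
-/

set_option autoImplicit false

namespace Pool.H19.Wa

open MeasureTheory Set

noncomputable section

/-- the scale attached to the target n: s (3P/2)^k <= n + η/2 < s (3(P+1)/2)^k -/
def Pn (k s : ℕ) (η : ℝ) (n : ℕ) : ℕ :=
  ⌊(2 / 3 : ℝ) * (((n : ℝ) + η / 2) / s) ^ ((1 : ℝ) / k)⌋₊

/-- shifts in the unit cube missing [n, n+η) with all x_i >= Pn -/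
def Bad (k s : ℕ) (η : ℝ) (n : ℕ) : Set (Fin s → ℝ) :=
  {al | (∀ i, al i ∈ Icc (0 : ℝ) 1) ∧ ∀ x : Fin s → ℕ, (∀ i, Pn k s η n ≤ x i) →
    ¬ ((n : ℝ) ≤ ∑ i, ((x i : ℝ) + al i) ^ k ∧ ∑ i, ((x i : ℝ) + al i) ^ k < n + η)}

/-- closed cube of side 1/L -/
def cube {s : ℕ} (L : ℕ) (q : Fin s → ℕ) : Set (Fin s → ℝ) :=
  {al | ∀ i, (q i : ℝ) / L ≤ al i ∧ al i ≤ ((q i : ℝ) + 1) / L}

/-- the full exceptional set of shifts -/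
def Exc (k s : ℕ) : Set (Fin s → ℝ) :=
  {al | ¬ ∀ η : ℝ, 0 < η → ∃ N : ℕ, ∀ n : ℕ, N ≤ n → ∃ x : Fin s → ℕ,
    (n : ℝ) ≤ ∑ i, ((x i : ℝ) + al i) ^ k ∧ ∑ i, ((x i : ℝ) + al i) ^ k < n + η}

end

private theorem yk (k s : ℕ) (hk : 1 ≤ k) (_hs : 1 ≤ s) (η : ℝ) (hη : 0 < η) (n : ℕ) :
    ((((n : ℝ) + η / 2) / s) ^ ((1 : ℝ) / k)) ^ k = ((n : ℝ) + η / 2) / s := by
  have h0 : 0 ≤ ((n : ℝ) + η / 2) / s := by positivity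
  have hk0 : (k : ℝ) ≠ 0 := by
    have : (1 : ℝ) ≤ k := by exact_mod_cast hk
    positivity
  rw [← Real.rpow_natCast, ← Real.rpow_mul h0, one_div, inv_mul_cancel₀ hk0, Real.rpow_one]

theorem Pn_lower (k s : ℕ) (hk : 1 ≤ k) (hs : 1 ≤ s) (η : ℝ) (hη : 0 < η) (n : ℕ) :
    (s : ℝ) * (3 * (Pn k s η n : ℝ) / 2) ^ k ≤ n + η / 2 := by
  have hs0 : (0 : ℝ) < s := by exact_mod_cast hs
  have hy0 : 0 ≤ (((n : ℝ) + η / 2) / s) ^ ((1 : ℝ) / k) := by positivity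
  have h1 : (Pn k s η n : ℝ) ≤ (2 / 3 : ℝ) * (((n : ℝ) + η / 2) / s) ^ ((1 : ℝ) / k) :=
    Nat.floor_le (by positivity)
  have h2 : 3 * (Pn k s η n : ℝ) / 2 ≤ (((n : ℝ) + η / 2) / s) ^ ((1 : ℝ) / k) := by linarith
  have h3 : (3 * (Pn k s η n : ℝ) / 2) ^ k ≤ ((n : ℝ) + η / 2) / s := by
    rw [← yk k s hk hs η hη n]
    exact pow_le_pow_left₀ (by positivity) h2 k
  calc (s : ℝ) * (3 * (Pn k s η n : ℝ) / 2) ^ k ≤ s * (((n : ℝ) + η / 2) / s) := by gcongr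
    _ = n + η / 2 := by field_simp

theorem Pn_upper (k s : ℕ) (hk : 1 ≤ k) (hs : 1 ≤ s) (η : ℝ) (hη : 0 < η) (n : ℕ) :
    (n : ℝ) + η / 2 ≤ (s : ℝ) * (3 * ((Pn k s η n : ℝ) + 1) / 2) ^ k := by
  have hs0 : (0 : ℝ) < s := by exact_mod_cast hs
  have hy0 : 0 ≤ (((n : ℝ) + η / 2) / s) ^ ((1 : ℝ) / k) := by positivity
  have h1 : (2 / 3 : ℝ) * (((n : ℝ) + η / 2) / s) ^ ((1 : ℝ) / k) < (Pn k s η n : ℝ) + 1 :=
    Nat.lt_floor_add_one _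
  have h2 : (((n : ℝ) + η / 2) / s) ^ ((1 : ℝ) / k) ≤ 3 * ((Pn k s η n : ℝ) + 1) / 2 := by
    linarith
  have h3 : ((n : ℝ) + η / 2) / s ≤ (3 * ((Pn k s η n : ℝ) + 1) / 2) ^ k := by
    rw [← yk k s hk hs η hη n]
    exact pow_le_pow_left₀ hy0 h2 k
  calc (n : ℝ) + η / 2 = s * (((n : ℝ) + η / 2) / s) := by field_simp
    _ ≤ (s : ℝ) * (3 * ((Pn k s η n : ℝ) + 1) / 2) ^ k := by gcongr

/-- Pn grows like n^(1/k) -/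
theorem Pn_growth (k s : ℕ) (hk : 1 ≤ k) (hs : 1 ≤ s) (η : ℝ) (hη : 0 < η) :
    ∃ c : ℝ, 0 < c ∧ ∃ N0 : ℕ, ∀ n : ℕ, N0 ≤ n → c * (n : ℝ) ^ ((1 : ℝ) / k) ≤ Pn k s η n := by
  have hs0 : (0 : ℝ) < s := by exact_mod_cast hs
  have hk0 : (k : ℝ) ≠ 0 := by
    have : (1 : ℝ) ≤ k := by exact_mod_cast hk
    positivity
  refine ⟨1 / (3 * (s : ℝ) ^ ((1 : ℝ) / k)), by positivity, 3 ^ k * s, fun n hn => ?_⟩
  have hy1 : (n : ℝ) ^ ((1 : ℝ) / k) / (s : ℝ) ^ ((1 : ℝ) / k) ≤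
      (((n : ℝ) + η / 2) / s) ^ ((1 : ℝ) / k) := by
    rw [← Real.div_rpow (by positivity) (by positivity)]
    apply Real.rpow_le_rpow (by positivity) _ (by positivity)
    gcongr
    linarith
  have hn' : (3 : ℝ) ^ k * s ≤ n := by exact_mod_cast hn
  have hy2 : (3 : ℝ) ≤ (n : ℝ) ^ ((1 : ℝ) / k) / (s : ℝ) ^ ((1 : ℝ) / k) := by
    rw [← Real.div_rpow (by positivity) (by positivity)]
    have h3 : (3 : ℝ) = ((3 : ℝ) ^ k) ^ ((1 : ℝ) / k) := by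
      rw [← Real.rpow_natCast, ← Real.rpow_mul (by norm_num), mul_one_div, div_self hk0,
        Real.rpow_one]
    rw [h3]
    apply Real.rpow_le_rpow (by positivity) _ (by positivity)
    rw [le_div_iff₀ hs0]
    exact hn'
  have h1 : (2 / 3 : ℝ) * (((n : ℝ) + η / 2) / s) ^ ((1 : ℝ) / k) < (Pn k s η n : ℝ) + 1 :=
    Nat.lt_floor_add_one _
  have h2 : 1 / (3 * (s : ℝ) ^ ((1 : ℝ) / k)) * (n : ℝ) ^ ((1 : ℝ) / k) =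
      1 / 3 * ((n : ℝ) ^ ((1 : ℝ) / k) / (s : ℝ) ^ ((1 : ℝ) / k)) := by
    field_simp
  rw [h2]
  linarith

end Pool.H19.Wa
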