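import Pool.Agent.H19.Wa.Defs

/-!
# Module COREQ: the correlation as a sum over differences h = x' - x

Expand `f k P t a * conj (f k P t' a) = Σ_{x,x'} e(t (x+a)^k - t' (x'+a)^k)`, group the pairs by h = x' - x in
(-P, P): for fixed h the x with P <= x, x+h < 2P are the integers from max(P, P-h) to min(2P, 2P-h) - 1, and
∫_0^1 e(t(x+a)^k - t'(x+h+a)^k) da = ∫_x^{x+1} e(t y^k - t'(y+h)^k) dy; add adjacent intervals
(`intervalIntegral.sum_integral_adjacent_intervals` or `sum_integral_adjacent_intervals_Ico`).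
-/

set_option autoImplicit false

namespace Pool.H19.Wa

open MeasureTheory Set

theorem sum_int_adj (g : ℝ → ℂ) (hg : Continuous g) (m n : ℤ) (hmn : m ≤ n) :
    ∑ x ∈ Finset.Ico m n, (∫ y in (x : ℝ)..((x : ℝ) + 1), g y) = ∫ y in (m : ℝ)..(n : ℝ), g y := by
  induction n, hmn using Int.leInduction with
  | base => simp
  | succ n hmn ih =>
    have h1 : Finset.Ico m (n + 1) = insert n (Finset.Ico m n) := by
      ext z; simp only [Finset.mem_Ico, Finset.mem_insert]; omega
    rw [h1, Finset.sum_insert (by simp), ih]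
    push_cast
    rw [add_comm]
    exact intervalIntegral.integral_add_adjacent_intervals (hg.intervalIntegrable _ _)
      (hg.intervalIntegrable _ _)

theorem shift_int (k : ℕ) (t t' x x' : ℝ) :
    (∫ a in (0 : ℝ)..1, e (t * (x + a) ^ k) * (starRingEnd ℂ) (e (t' * (x' + a) ^ k))) =
      ∫ y in x..(x + 1), e (t * y ^ k - t' * (y + (x' - x)) ^ k) := by
  have h1 : (∫ a in (0 : ℝ)..1, e (t * (x + a) ^ k) * (starRingEnd ℂ) (e (t' * (x' + a) ^ k))) =
      ∫ a in (0 : ℝ)..1, (fun y => e (t * y ^ k - t' * (y + (x' - x)) ^ k)) (x + a) := by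
    apply intervalIntegral.integral_congr
    intro a _
    simp only
    rw [← e_neg, ← e_add]
    congr 1
    ring
  rw [h1]
  have h2 := intervalIntegral.integral_comp_add_left (a := (0 : ℝ)) (b := 1)
    (fun y => e (t * y ^ k - t' * (y + (x' - x)) ^ k)) x
  rw [add_zero] at h2
  exact h2

theorem cont_term (k : ℕ) (t t' h : ℝ) : Continuous (fun y : ℝ => e (t * y ^ k - t' * (y + h) ^ k)) :=
  continuous_e.comp (by fun_prop)

theorem sum_natIco_int (P : ℕ) (F : ℤ → ℂ) :
    ∑ x ∈ Finset.Ico P (2 * P), F (x : ℤ) = ∑ x ∈ Finset.Ico (P : ℤ) (2 * P : ℤ), F x := by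
  apply Finset.sum_nbij (fun x : ℕ => (x : ℤ))
  · intro x hx; simp only [Finset.mem_Ico] at hx ⊢; omega
  · intro x _ y _ hxy; simpa using hxy
  · intro z hz
    simp only [Finset.coe_Ico, mem_Ico] at hz
    refine ⟨z.toNat, ?_, ?_⟩
    · simp only [Finset.coe_Ico, mem_Ico]; omega
    · simp only; omega
  · intro x _; rfl

theorem Cor_eq (k P : ℕ) (hP : 1 ≤ P) (t t' : ℝ) :
    Cor k P t t' = ∑ h ∈ Finset.Ioo (-(P : ℤ)) (P : ℤ),
      ∫ y in (max (P : ℝ) (P - (h : ℝ)))..(min (2 * P : ℝ) (2 * P - (h : ℝ))),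
        e (t * y ^ k - t' * (y + (h : ℝ)) ^ k) := by
  have hsub : ∀ x x' : ℕ, IntervalIntegrable (fun a : ℝ => e (t * ((x : ℝ) + a) ^ k) *
      (starRingEnd ℂ) (e (t' * ((x' : ℝ) + a) ^ k))) volume 0 1 := by
    intro x x'
    apply Continuous.intervalIntegrable
    exact (continuous_e.comp (by fun_prop)).mul
      (Complex.continuous_conj.comp (continuous_e.comp (by fun_prop)))
  have h1 : Cor k P t t' = ∑ x ∈ Finset.Ico P (2 * P), ∑ x' ∈ Finset.Ico P (2 * P),
      ∫ y in (x : ℝ)..((x : ℝ) + 1), e (t * y ^ k - t' * (y + ((x' : ℝ) - x)) ^ k) := by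
    unfold Cor f
    simp only [map_sum, Finset.sum_mul_sum]
    rw [intervalIntegral.integral_finsetSum]
    · apply Finset.sum_congr rfl
      intro x _
      rw [intervalIntegral.integral_finsetSum]
      · apply Finset.sum_congr rfl
        intro x' _
        exact shift_int k t t' x x'
      · intro x' _; exact hsub x x'
    · intro x _
      apply Continuous.intervalIntegrable
      refine continuous_finsetSum _ (fun x' _ => ?_)
      exact (continuous_e.comp (by fun_prop)).mul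
        (Complex.continuous_conj.comp (continuous_e.comp (by fun_prop)))
  have h2 : Cor k P t t' = ∑ x ∈ Finset.Ico (P : ℤ) (2 * P : ℤ), ∑ x' ∈ Finset.Ico (P : ℤ) (2 * P : ℤ),
      ∫ y in (x : ℝ)..((x : ℝ) + 1), e (t * y ^ k - t' * (y + ((x' - x : ℤ) : ℝ)) ^ k) := by
    rw [h1, ← sum_natIco_int]
    apply Finset.sum_congr rfl
    intro x _
    rw [← sum_natIco_int P (fun x' => ∫ y in ((x : ℤ) : ℝ)..(((x : ℤ) : ℝ) + 1),
      e (t * y ^ k - t' * (y + ((x' - (x : ℤ) : ℤ) : ℝ)) ^ k))]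
    apply Finset.sum_congr rfl
    intro x' _
    push_cast
    rfl
  have h3 : ∑ x ∈ Finset.Ico (P : ℤ) (2 * P : ℤ), ∑ x' ∈ Finset.Ico (P : ℤ) (2 * P : ℤ),
      (∫ y in (x : ℝ)..((x : ℝ) + 1), e (t * y ^ k - t' * (y + ((x' - x : ℤ) : ℝ)) ^ k)) =
      ∑ h ∈ Finset.Ioo (-(P : ℤ)) (P : ℤ),
        ∑ x ∈ Finset.Ico (max (P : ℤ) (P - h)) (min (2 * P : ℤ) (2 * P - h)),
      (∫ y in (x : ℝ)..((x : ℝ) + 1), e (t * y ^ k - t' * (y + (h : ℝ)) ^ k)) := by
    rw [Finset.sum_sigma', Finset.sum_sigma']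
    apply Finset.sum_nbij' (fun p => (⟨p.2 - p.1, p.1⟩ : (_ : ℤ) × ℤ))
      (fun p => (⟨p.2, p.2 + p.1⟩ : (_ : ℤ) × ℤ))
    · rintro ⟨a, b⟩ hp
      simp only [Finset.mem_sigma, Finset.mem_Ico, Finset.mem_Ioo] at hp ⊢
      omega
    · rintro ⟨a, b⟩ hp
      simp only [Finset.mem_sigma, Finset.mem_Ico, Finset.mem_Ioo] at hp ⊢
      omega
    · rintro ⟨a, b⟩ _; simp
    · rintro ⟨a, b⟩ _; simp
    · rintro ⟨a, b⟩ _; rfl
  rw [h2, h3]
  apply Finset.sum_congr rfl
  intro h hh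
  simp only [Finset.mem_Ioo] at hh
  rw [sum_int_adj _ (cont_term k t t' h) _ _ (by omega)]
  push_cast
  rfl

theorem cor_comm (k P : ℕ) (t t' : ℝ) : ‖Cor k P t' t‖ = ‖Cor k P t t'‖ := by
  have h : Cor k P t' t = (starRingEnd ℂ) (Cor k P t t') := by
    unfold Cor
    rw [← intervalIntegral.intervalIntegral_conj]
    apply intervalIntegral.integral_congr
    intro a _
    simp only [map_mul, Complex.conj_conj]
    ring
  rw [h, RCLike.norm_conj]

theorem continuous_f' (k P : ℕ) (t : ℝ) : Continuous (fun a : ℝ => f k P t a) :=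
  (continuous_f k P).comp (by fun_prop : Continuous (fun a : ℝ => ((t, a) : ℝ × ℝ)))

theorem cor_self_eq (k P : ℕ) (t : ℝ) :
    ‖Cor k P t t‖ = ∫ a in (0 : ℝ)..1, ‖f k P t a‖ ^ 2 := by
  have h : Cor k P t t = ((∫ a in (0 : ℝ)..1, ‖f k P t a‖ ^ 2 : ℝ) : ℂ) := by
    unfold Cor
    rw [← intervalIntegral.integral_ofReal]
    apply intervalIntegral.integral_congr
    intro a _
    simp only
    rw [Complex.mul_conj, Complex.normSq_eq_norm_sq]
  rw [h, Complex.norm_real, Real.norm_of_nonneg]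
  apply intervalIntegral.integral_nonneg zero_le_one
  intro a _
  positivity

/-- 2|f g| <= |f|^2 + |g|^2 under the integral; `Cor t t = ∫ |f|^2 >= 0`. -/
theorem cor_trivial (k P : ℕ) (t t' : ℝ) :
    ‖Cor k P t t'‖ ≤ (‖Cor k P t t‖ + ‖Cor k P t' t'‖) / 2 := by
  rw [cor_self_eq, cor_self_eq]
  have hc := continuous_f' k P t
  have hc' := continuous_f' k P t'
  have hs : (∫ a in (0 : ℝ)..1, ‖f k P t a‖ ^ 2) + (∫ a in (0 : ℝ)..1, ‖f k P t' a‖ ^ 2) =
      ∫ a in (0 : ℝ)..1, (‖f k P t a‖ ^ 2 + ‖f k P t' a‖ ^ 2) :=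
    (intervalIntegral.integral_add ((hc.norm.pow 2).intervalIntegrable _ _)
      ((hc'.norm.pow 2).intervalIntegrable _ _)).symm
  rw [hs, ← intervalIntegral.integral_div]
  unfold Cor
  refine (intervalIntegral.norm_integral_le_integral_norm zero_le_one).trans ?_
  apply intervalIntegral.integral_mono_on zero_le_one
  · apply Continuous.intervalIntegrable
    exact (hc.mul (Complex.continuous_conj.comp hc')).norm
  · apply Continuous.intervalIntegrable
    exact ((hc.norm.pow 2).add (hc'.norm.pow 2)).div_const _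
  · intro a _
    rw [norm_mul, RCLike.norm_conj]
    nlinarith [sq_nonneg (‖f k P t a‖ - ‖f k P t' a‖)]

/-- mean value of f over the shift is v -/
theorem mean_f (k P : ℕ) (t : ℝ) : ∫ a in (0 : ℝ)..1, f k P t a = v k P t := by
  unfold f v
  rw [intervalIntegral.integral_finsetSum]
  · have h1 : ∀ x : ℕ, (∫ a in (0 : ℝ)..1, e (t * ((x : ℝ) + a) ^ k)) =
        ∫ y in (((x : ℤ) : ℝ))..((((x : ℤ) : ℝ)) + 1), e (t * y ^ k) := by
      intro x
      have := intervalIntegral.integral_comp_add_left (a := (0 : ℝ)) (b := 1)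
        (fun y : ℝ => e (t * y ^ k)) (x : ℝ)
      simpa using this
    simp only [h1]
    rw [sum_natIco_int P (fun x => ∫ y in (x : ℝ)..((x : ℝ) + 1), e (t * y ^ k)),
      sum_int_adj (fun y : ℝ => e (t * y ^ k)) (continuous_e.comp (by fun_prop)) _ _ (by omega)]
    push_cast
    rfl
  · intro x _
    exact (continuous_e.comp (by fun_prop)).intervalIntegrable _ _

end Pool.H19.Wa
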