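import Pool.Agent.H19.Wa.Phase
import Pool.Agent.H19.Wa.CorEq

/-!
# Module CORBD: bounds for the correlation (uses Cor_eq, phase_near, phase_far, phase_diag, phase_zero)

In `Cor_eq` the interval of integration for h in (-P,P) is [A,B] with P <= A <= B <= 2P, P <= A+h, B+h <= 2P.
The term h = 0 is ∫_P^{2P} e((t-t') y^k) dy, which is at most P and (t /= t') at most 1/(|t-t'|P^(k-1)), so at most
2P/(1+|t-t'|P^k). Sums: Σ_{h=1}^{P-1} 1/h <= 1 + log P; Σ_{h=1}^{P-1} h^(-1/2) <= 2 sqrt P.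
-/

set_option autoImplicit false

namespace Pool.H19.Wa

open MeasureTheory Set

theorem sum_sym (F : ℤ → ℝ) (P : ℕ) (hP : 1 ≤ P) :
    ∑ h ∈ Finset.Ioo (-(P : ℤ)) (P : ℤ), F h = F 0 + ∑ j ∈ Finset.Ico 1 P, (F j + F (-j)) := by
  induction P, hP using Nat.le_induction with
  | base =>
    have h1 : Finset.Ioo (-((1 : ℕ) : ℤ)) ((1 : ℕ) : ℤ) = {0} := by
      ext z; simp only [Finset.mem_Ioo, Finset.mem_singleton]; omega
    rw [h1]; simp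
  | succ n hn ih =>
    have h1 : Finset.Ioo (-((n + 1 : ℕ) : ℤ)) ((n + 1 : ℕ) : ℤ) =
        insert (n : ℤ) (insert (-(n : ℤ)) (Finset.Ioo (-(n : ℤ)) (n : ℤ))) := by
      ext z; simp only [Finset.mem_Ioo, Finset.mem_insert]; omega
    rw [h1, Finset.sum_insert, Finset.sum_insert, ih, Finset.sum_Ico_succ_top hn]
    · ring
    · simp
    · simp only [Finset.mem_insert, Finset.mem_Ioo]; omega

theorem sum_bd (F : ℤ → ℝ) (B : ℕ → ℝ) (C : ℝ) (P : ℕ) (hP : 1 ≤ P) (h0 : F 0 ≤ C)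
    (h1 : ∀ j ∈ Finset.Ico 1 P, F j ≤ B j) (h2 : ∀ j ∈ Finset.Ico 1 P, F (-j) ≤ B j) :
    ∑ h ∈ Finset.Ioo (-(P : ℤ)) (P : ℤ), F h ≤ C + 2 * ∑ j ∈ Finset.Ico 1 P, B j := by
  rw [sum_sym F P hP, Finset.mul_sum]
  apply add_le_add h0
  apply Finset.sum_le_sum
  intro j hj
  linarith [h1 j hj, h2 j hj]

theorem sum_inv_le (P : ℕ) (hP : 1 ≤ P) :
    ∑ j ∈ Finset.Ico 1 P, (1 : ℝ) / j ≤ 1 + Real.log P := by
  have h1 := harmonic_le_one_add_log P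
  refine le_trans ?_ h1
  unfold harmonic
  push_cast
  rw [Finset.sum_Ico_eq_sum_range]
  have h2 : ∑ k ∈ Finset.range (P - 1), (1 : ℝ) / ((1 + k : ℕ) : ℝ) =
      ∑ k ∈ Finset.range (P - 1), ((k : ℝ) + 1)⁻¹ := by
    apply Finset.sum_congr rfl
    intro k _
    push_cast
    rw [one_div, add_comm]
  rw [h2]
  apply Finset.sum_le_sum_of_subset_of_nonneg
  · intro x hx; simp only [Finset.mem_range] at hx ⊢; omega
  · intro i _ _; positivity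

theorem sum_inv_sqrt_le (P : ℕ) (hP : 1 ≤ P) :
    ∑ j ∈ Finset.Ico 1 P, (1 : ℝ) / Real.sqrt j ≤ 2 * Real.sqrt P := by
  have key : ∀ n : ℕ, ∑ j ∈ Finset.Ico 1 (n + 1), (1 : ℝ) / Real.sqrt j ≤ 2 * Real.sqrt n := by
    intro n
    induction n with
    | zero => simp
    | succ n ih =>
      rw [Finset.sum_Ico_succ_top (by omega)]
      have hs : 0 < Real.sqrt ((n + 1 : ℕ) : ℝ) := Real.sqrt_pos.mpr (by positivity)
      have h3 : Real.sqrt ((n + 1 : ℕ) : ℝ) ^ 2 = (n : ℝ) + 1 := by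
        rw [Real.sq_sqrt (by positivity)]; push_cast; ring
      have h4 : Real.sqrt (n : ℝ) ^ 2 = (n : ℝ) := Real.sq_sqrt (by positivity)
      have h5 : 1 / Real.sqrt ((n + 1 : ℕ) : ℝ) ≤
          2 * Real.sqrt ((n + 1 : ℕ) : ℝ) - 2 * Real.sqrt (n : ℝ) := by
        rw [div_le_iff₀ hs]
        nlinarith [sq_nonneg (Real.sqrt ((n + 1 : ℕ) : ℝ) - Real.sqrt (n : ℝ))]
      linarith
  obtain ⟨n, rfl⟩ : ∃ n, P = n + 1 := ⟨P - 1, by omega⟩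
  refine (key n).trans ?_
  have : Real.sqrt (n : ℝ) ≤ Real.sqrt ((n + 1 : ℕ) : ℝ) := Real.sqrt_le_sqrt (by push_cast; linarith)
  linarith

/-- the limits of integration -/
theorem lims (P : ℕ) (h : ℤ) (hh : h ∈ Finset.Ioo (-(P : ℤ)) (P : ℤ)) :
    max (P : ℝ) (P - (h : ℝ)) ≤ min (2 * P : ℝ) (2 * P - (h : ℝ)) ∧
    (P : ℝ) ≤ max (P : ℝ) (P - (h : ℝ)) ∧ min (2 * P : ℝ) (2 * P - (h : ℝ)) ≤ 2 * P ∧
    (P : ℝ) ≤ max (P : ℝ) (P - (h : ℝ)) + h ∧ min (2 * P : ℝ) (2 * P - (h : ℝ)) + h ≤ 2 * P := by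
  simp only [Finset.mem_Ioo] at hh
  have h1 : -(P : ℝ) < h := by exact_mod_cast hh.1
  have h2 : (h : ℝ) < P := by exact_mod_cast hh.2
  refine ⟨?_, le_max_left _ _, min_le_left _ _, ?_, ?_⟩
  · apply max_le <;> apply le_min <;> linarith
  · linarith [le_max_right (P : ℝ) (P - (h : ℝ))]
  · linarith [min_le_right (2 * P : ℝ) (2 * P - (h : ℝ))]

theorem norm_Cor_le (k P : ℕ) (hP : 1 ≤ P) (t t' : ℝ) :
    ‖Cor k P t t'‖ ≤ ∑ h ∈ Finset.Ioo (-(P : ℤ)) (P : ℤ),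
      ‖∫ y in (max (P : ℝ) (P - (h : ℝ)))..(min (2 * P : ℝ) (2 * P - (h : ℝ))),
        e (t * y ^ k - t' * (y + (h : ℝ)) ^ k)‖ := by
  rw [Cor_eq k P hP]
  exact norm_sum_le _ _

theorem mem_of_Ico {P j : ℕ} (hj : j ∈ Finset.Ico 1 P) :
    (j : ℤ) ∈ Finset.Ioo (-(P : ℤ)) (P : ℤ) ∧ (-(j : ℤ)) ∈ Finset.Ioo (-(P : ℤ)) (P : ℤ) ∧
    (j : ℝ) ≠ 0 ∧ (1 : ℝ) ≤ j := by
  simp only [Finset.mem_Ico] at hj
  refine ⟨?_, ?_, ?_, ?_⟩
  · simp only [Finset.mem_Ioo]; omega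
  · simp only [Finset.mem_Ioo]; omega
  · have : (0 : ℝ) < j := by exact_mod_cast (by omega : 0 < j)
    exact this.ne'
  · exact_mod_cast hj.1

theorem cor_self (k P : ℕ) (hk : 4 ≤ k) (hP : 1 ≤ P) (t : ℝ) (ht : t ≠ 0) :
    ‖Cor k P t t‖ ≤ P + 2 * (1 + Real.log P) / (|t| * (P : ℝ) ^ (k - 2)) := by
  refine (norm_Cor_le k P hP t t).trans ?_
  refine (sum_bd _ (fun j => 1 / (|t| * (j : ℝ) * (P : ℝ) ^ (k - 2))) (P : ℝ) P hP ?_ ?_ ?_).trans ?_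
  · have h1 : (∫ y in (max (P : ℝ) (P - ((0 : ℤ) : ℝ)))..(min (2 * P : ℝ) (2 * P - ((0 : ℤ) : ℝ))),
        e (t * y ^ k - t * (y + ((0 : ℤ) : ℝ)) ^ k)) = (P : ℂ) := by
      simp only [Int.cast_zero, sub_zero, max_self, min_self, add_zero, sub_self, e_zero]
      rw [intervalIntegral.integral_const]
      simp only [Complex.real_smul, mul_one]
      push_cast; ring
    rw [h1]; simp
  · intro j hj
    obtain ⟨m1, m2, m3, m4⟩ := mem_of_Ico hj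
    obtain ⟨l1, l2, l3, l4, l5⟩ := lims P j m1
    have := phase_diag k P hk hP t ((j : ℤ) : ℝ) _ _ l1 l2 l4 ht (by exact_mod_cast m3)
    refine this.trans (le_of_eq ?_)
    simp
  · intro j hj
    obtain ⟨m1, m2, m3, m4⟩ := mem_of_Ico hj
    obtain ⟨l1, l2, l3, l4, l5⟩ := lims P (-j) m2
    have := phase_diag k P hk hP t ((-(j : ℤ) : ℤ) : ℝ) _ _ l1 l2 l4 ht (by simpa using m3)
    refine this.trans (le_of_eq ?_)
    simp
  · have hP0 : (0 : ℝ) < P := by exact_mod_cast (by omega : 0 < P)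
    have ht0 : 0 < |t| := abs_pos.mpr ht
    have hd : 0 < |t| * (P : ℝ) ^ (k - 2) := by positivity
    have h1 : ∑ j ∈ Finset.Ico 1 P, 1 / (|t| * (j : ℝ) * (P : ℝ) ^ (k - 2)) =
        (∑ j ∈ Finset.Ico 1 P, (1 : ℝ) / j) / (|t| * (P : ℝ) ^ (k - 2)) := by
      rw [Finset.sum_div]
      apply Finset.sum_congr rfl
      intro j hj
      have := (mem_of_Ico hj).2.2.1
      field_simp
    rw [h1, ← mul_div_assoc]
    have := sum_inv_le P hP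
    gcongr

theorem zero_term (k P : ℕ) (hk : 4 ≤ k) (hP : 1 ≤ P) (t t' : ℝ) :
    ‖∫ y in (max (P : ℝ) (P - ((0 : ℤ) : ℝ)))..(min (2 * P : ℝ) (2 * P - ((0 : ℤ) : ℝ))),
        e (t * y ^ k - t' * (y + ((0 : ℤ) : ℝ)) ^ k)‖ ≤ 2 * P / (1 + |t - t'| * (P : ℝ) ^ k) := by
  have hP0 : (0 : ℝ) < P := by exact_mod_cast (by omega : 0 < P)
  have h1 : (∫ y in (max (P : ℝ) (P - ((0 : ℤ) : ℝ)))..(min (2 * P : ℝ) (2 * P - ((0 : ℤ) : ℝ))),
        e (t * y ^ k - t' * (y + ((0 : ℤ) : ℝ)) ^ k)) = ∫ y in (P : ℝ)..(2 * P), e ((t - t') * y ^ k) := by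
    simp only [Int.cast_zero, sub_zero, max_self, min_self, add_zero, sub_mul]
  rw [h1]
  have hpos : 0 ≤ |t - t'| * (P : ℝ) ^ k := by positivity
  rcases le_total (|t - t'| * (P : ℝ) ^ k) 1 with hx | hx
  · have h2 : ‖∫ y in (P : ℝ)..(2 * P), e ((t - t') * y ^ k)‖ ≤ P := by
      have := intervalIntegral.norm_integral_le_of_norm_le_const (a := (P : ℝ)) (b := 2 * P) (C := 1)
        (f := fun y : ℝ => e ((t - t') * y ^ k)) (fun y _ => (norm_e _).le)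
      refine this.trans (le_of_eq ?_)
      rw [one_mul, abs_of_nonneg (by linarith)]
      ring
    refine h2.trans ?_
    rw [le_div_iff₀ (by linarith)]
    nlinarith
  · have hne : t - t' ≠ 0 := by
      intro h; rw [h] at hx; simp at hx; linarith
    have h2 := phase_zero k P hk hP (t - t') (P : ℝ) (2 * P) (by linarith) le_rfl hne
    refine h2.trans ?_
    have ha : 0 < |t - t'| := abs_pos.mpr hne
    rw [div_le_div_iff₀ (by positivity) (by linarith)]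
    have h3 : (P : ℝ) ^ k = (P : ℝ) ^ (k - 1) * P := by
      rw [← pow_succ]; congr 1; omega
    have h4 : 2 * (P : ℝ) * (|t - t'| * (P : ℝ) ^ (k - 1)) = 2 * (|t - t'| * (P : ℝ) ^ k) := by
      rw [h3]; ring
    rw [h4]
    linarith

theorem cor_near (k P : ℕ) (hk : 4 ≤ k) (hP : 1 ≤ P) (t t' : ℝ)
    (ht : 1 ≤ |t| * (P : ℝ) ^ (k - 1)) :
    ‖Cor k P t t'‖ ≤ 2 * P / (1 + |t - t'| * (P : ℝ) ^ k) +
      32 * Real.sqrt P / Real.sqrt (|t| * (P : ℝ) ^ (k - 3)) := by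
  have hP0 : (0 : ℝ) < P := by exact_mod_cast (by omega : 0 < P)
  have ht0 : 0 < |t| := by
    rcases (abs_nonneg t).lt_or_eq with h | h
    · exact h
    · rw [← h] at ht; simp at ht; linarith
  refine (norm_Cor_le k P hP t t').trans ?_
  have hbig : ∀ j ∈ Finset.Ico 1 P, 1 ≤ |t| * (j : ℝ) * (P : ℝ) ^ (k - 1) := by
    intro j hj
    have m4 := (mem_of_Ico hj).2.2.2
    have h5 : |t| * (j : ℝ) * (P : ℝ) ^ (k - 1) = (|t| * (P : ℝ) ^ (k - 1)) * j := by ring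
    rw [h5]
    nlinarith
  have hval : ∀ j ∈ Finset.Ico 1 P, 8 / Real.sqrt (|t| * (j : ℝ) * (P : ℝ) ^ (k - 3)) =
      8 / Real.sqrt (|t| * (P : ℝ) ^ (k - 3)) * (1 / Real.sqrt j) := by
    intro j hj
    have h5 : |t| * (j : ℝ) * (P : ℝ) ^ (k - 3) = (|t| * (P : ℝ) ^ (k - 3)) * j := by ring
    rw [h5, Real.sqrt_mul (by positivity)]
    rw [div_mul_div_comm, mul_one]
  refine (sum_bd _ (fun j => 8 / Real.sqrt (|t| * (j : ℝ) * (P : ℝ) ^ (k - 3)))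
    (2 * P / (1 + |t - t'| * (P : ℝ) ^ k)) P hP ?_ ?_ ?_).trans ?_
  · exact zero_term k P hk hP t t'
  · intro j hj
    obtain ⟨m1, m2, m3, m4⟩ := mem_of_Ico hj
    obtain ⟨l1, l2, l3, l4, l5⟩ := lims P j m1
    have := phase_near k P hk hP t t' ((j : ℤ) : ℝ) _ _ l1 l2 l3 l4 l5 (by simpa using hbig j hj)
    refine this.trans (le_of_eq ?_)
    simp
  · intro j hj
    obtain ⟨m1, m2, m3, m4⟩ := mem_of_Ico hj
    obtain ⟨l1, l2, l3, l4, l5⟩ := lims P (-j) m2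
    have := phase_near k P hk hP t t' ((-(j : ℤ) : ℤ) : ℝ) _ _ l1 l2 l3 l4 l5
      (by simpa using hbig j hj)
    refine this.trans (le_of_eq ?_)
    simp
  · rw [Finset.sum_congr rfl hval, ← Finset.mul_sum]
    have h6 := sum_inv_sqrt_le P hP
    have hs : 0 < Real.sqrt (|t| * (P : ℝ) ^ (k - 3)) := Real.sqrt_pos.mpr (by positivity)
    have h7 : 2 * (8 / Real.sqrt (|t| * (P : ℝ) ^ (k - 3)) *
        ∑ j ∈ Finset.Ico 1 P, (1 : ℝ) / Real.sqrt j) ≤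
        2 * (8 / Real.sqrt (|t| * (P : ℝ) ^ (k - 3)) * (2 * Real.sqrt P)) := by
      gcongr
    have h8 : 2 * (8 / Real.sqrt (|t| * (P : ℝ) ^ (k - 3)) * (2 * Real.sqrt P)) =
        32 * Real.sqrt P / Real.sqrt (|t| * (P : ℝ) ^ (k - 3)) := by ring
    linarith

theorem cor_far (k P : ℕ) (hk : 4 ≤ k) (hP : 1 ≤ P) (t t' : ℝ) (h0 : t' ≠ 0)
    (hfar : 2 ^ k * |t| ≤ |t'|) :
    ‖Cor k P t t'‖ ≤ 2 * P / (|t'| * (P : ℝ) ^ (k - 1)) := by
  have hP0 : (0 : ℝ) < P := by exact_mod_cast (by omega : 0 < P)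
  have ht0 : 0 < |t'| := abs_pos.mpr h0
  refine (norm_Cor_le k P hP t t').trans ?_
  have hb : ∀ h ∈ Finset.Ioo (-(P : ℤ)) (P : ℤ),
      ‖∫ y in (max (P : ℝ) (P - (h : ℝ)))..(min (2 * P : ℝ) (2 * P - (h : ℝ))),
        e (t * y ^ k - t' * (y + (h : ℝ)) ^ k)‖ ≤ 1 / (|t'| * (P : ℝ) ^ (k - 1)) := by
    intro h hh
    obtain ⟨l1, l2, l3, l4, l5⟩ := lims P h hh
    exact phase_far k P hk hP t t' (h : ℝ) _ _ l1 l2 l3 l4 l5 h0 hfar
  refine (Finset.sum_le_sum hb).trans ?_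
  rw [Finset.sum_const, nsmul_eq_mul]
  have hc : ((Finset.Ioo (-(P : ℤ)) (P : ℤ)).card : ℝ) ≤ 2 * P := by
    rw [Int.card_Ioo]
    have : ((P : ℤ) - -(P : ℤ) - 1).toNat ≤ 2 * P := by omega
    exact_mod_cast this
  have h9 : 2 * (P : ℝ) / (|t'| * (P : ℝ) ^ (k - 1)) = (2 * P) * (1 / (|t'| * (P : ℝ) ^ (k - 1))) := by
    ring
  rw [h9]
  gcongr

end Pool.H19.Wa
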