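import Pool.Agent.H19.Wa.Prob
import Pool.Agent.H19.Wa.BadDefs

/-!
# Module COVER: covering the bad set by cubes

Let P = Pn k s η n, τ = n + η/2, L = ⌈4 s k (2P)^(k-1)/η⌉. If al in Bad and al' lie in a common closed cube of side
1/L inside [0,1]^s, then for all x with P <= x_i < 2P: |Σ(x_i+al_i)^k - τ| >= η/2 and
|Σ(x_i+al_i)^k - Σ(x_i+al'_i)^k| <= s k (2P)^(k-1)/L <= η/4, so al' is in the set of `prob` (with η/4). The open cubes
over F = {q in {0..L-1}^s : cube L q ∩ Bad nonempty} are disjoint and lie in that set, so #F L^(-s) <= C P^(-(s-k)+ε).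
With θ = (s-2k) - (k-1)(s-d) > 0, ε = θ/2, L <= C P^(k-1): #F L^(-d) <= C L^(s-d) P^(-(s-k)+ε) <= C P^(-k-θ/2),
and P >= c n^(1/k). κ = min(θ/(2k), 1/k).
-/

set_option autoImplicit false

namespace Pool.H19.Wa

open MeasureTheory Set

private theorem pow_diff (k : ℕ) (M a b : ℝ) (ha : 0 ≤ a) (hb : 0 ≤ b) (haM : a ≤ M) (hbM : b ≤ M) :
    |a ^ k - b ^ k| ≤ |a - b| * k * M ^ (k - 1) := by
  refine (abs_pow_sub_pow_le a b k).trans ?_
  apply mul_le_mul_of_nonneg_left _ (by positivity)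
  apply pow_le_pow_left₀ (by positivity)
  rw [abs_of_nonneg ha, abs_of_nonneg hb]
  exact max_le haM hbM

/-- points of a cube inside the unit cube -/
private theorem cube_unit {s : ℕ} (L : ℕ) (hL : 1 ≤ L) (q : Fin s → ℕ) (hq : ∀ i, q i < L)
    (al : Fin s → ℝ) (hal : al ∈ cube L q) (i : Fin s) : al i ∈ Icc (0 : ℝ) 1 := by
  have hL0 : (0 : ℝ) < L := by exact_mod_cast hL
  have h := hal i
  have h1 : (0 : ℝ) ≤ (q i : ℝ) / L := by positivity
  have h2 : ((q i : ℝ) + 1) / L ≤ 1 := by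
    rw [div_le_one hL0]
    have : q i + 1 ≤ L := hq i
    exact_mod_cast this
  exact ⟨h1.trans h.1, h.2.trans h2⟩

/-- the transfer between points of a cube -/
private theorem transfer (k s : ℕ) (η : ℝ) (hη : 0 < η) (n L : ℕ) (hL : 1 ≤ L)
    (hLη : 4 * s * k * (2 * (Pn k s η n : ℝ)) ^ (k - 1) / η ≤ L)
    (q : Fin s → ℕ) (hq : ∀ i, q i < L) (al al' : Fin s → ℝ) (h1 : al ∈ cube L q)
    (h2 : al' ∈ cube L q) (hB : al ∈ Bad k s η n) (x : Fin s → ℕ)
    (hx : ∀ i, Pn k s η n ≤ x i ∧ x i < 2 * Pn k s η n) :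
    η / 4 ≤ |∑ i, ((x i : ℝ) + al' i) ^ k - ((n : ℝ) + η / 2)| := by
  have hL0 : (0 : ℝ) < L := by exact_mod_cast hL
  have hB' := hB.2 x (fun i => (hx i).1)
  have hA : η / 2 ≤ |∑ i, ((x i : ℝ) + al i) ^ k - ((n : ℝ) + η / 2)| := by
    by_contra hcon
    rw [not_le, abs_lt] at hcon
    exact hB' ⟨by linarith [hcon.1], by linarith [hcon.2]⟩
  have hD : |∑ i, ((x i : ℝ) + al i) ^ k - ∑ i, ((x i : ℝ) + al' i) ^ k| ≤ η / 4 := by
    rw [← Finset.sum_sub_distrib]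
    refine (Finset.abs_sum_le_sum_abs _ _).trans ?_
    have hterm : ∀ i ∈ (Finset.univ : Finset (Fin s)),
        |((x i : ℝ) + al i) ^ k - ((x i : ℝ) + al' i) ^ k| ≤
          (1 / L) * k * (2 * (Pn k s η n : ℝ)) ^ (k - 1) := by
      intro i _
      have ha := cube_unit L hL q hq al h1 i
      have ha' := cube_unit L hL q hq al' h2 i
      have hxi : (x i : ℝ) + 1 ≤ 2 * (Pn k s η n : ℝ) := by
        have : x i + 1 ≤ 2 * Pn k s η n := (hx i).2
        exact_mod_cast this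
      have hx0 : (0 : ℝ) ≤ x i := by positivity
      refine (pow_diff k (2 * (Pn k s η n : ℝ)) _ _ (by linarith [ha.1]) (by linarith [ha'.1])
        (by linarith [ha.2]) (by linarith [ha'.2])).trans ?_
      have hdiff : |((x i : ℝ) + al i) - ((x i : ℝ) + al' i)| ≤ 1 / L := by
        have e1 := h1 i
        have e2 := h2 i
        have h3 : ((q i : ℝ) + 1) / L = (q i : ℝ) / L + 1 / L := by ring
        rw [abs_le]
        constructor <;> linarith [e1.1, e1.2, e2.1, e2.2]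
      gcongr
    refine (Finset.sum_le_sum hterm).trans ?_
    rw [Finset.sum_const, Finset.card_univ, Fintype.card_fin, nsmul_eq_mul]
    have h5 : 4 * s * k * (2 * (Pn k s η n : ℝ)) ^ (k - 1) ≤ L * η := by
      rwa [div_le_iff₀ hη] at hLη
    have h6 : (s : ℝ) * (1 / L * k * (2 * (Pn k s η n : ℝ)) ^ (k - 1)) =
        (4 * s * k * (2 * (Pn k s η n : ℝ)) ^ (k - 1)) / (4 * L) := by
      field_simp
    rw [h6, div_le_iff₀ (by positivity)]
    linarith
  have htri : |∑ i, ((x i : ℝ) + al i) ^ k - ((n : ℝ) + η / 2)| ≤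
      |∑ i, ((x i : ℝ) + al i) ^ k - ∑ i, ((x i : ℝ) + al' i) ^ k| +
        |∑ i, ((x i : ℝ) + al' i) ^ k - ((n : ℝ) + η / 2)| := abs_sub_le _ _ _
  linarith

/-- the counting estimate -/
private theorem count {s : ℕ} (L : ℕ) (hL : 1 ≤ L) (F : Finset (Fin s → ℕ))
    (hF : ∀ q ∈ F, ∀ i, q i < L) (S : Set (Fin s → ℝ)) (hS : ∀ q ∈ F, cube L q ⊆ S)
    (B : ℝ) (hB0 : 0 ≤ B) (hB : PP s S ≤ ENNReal.ofReal B) :
    (F.card : ℝ) * ((1 : ℝ) / L) ^ s ≤ B := by
  classical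
  have hL0 : (0 : ℝ) < L := by exact_mod_cast hL
  let oc : (Fin s → ℕ) → Set (Fin s → ℝ) := fun q =>
    Set.pi univ (fun i => Ioo ((q i : ℝ) / L) (((q i : ℝ) + 1) / L))
  have hoc : ∀ q, oc q ⊆ cube L q := by
    intro q al hal i
    have := hal i (mem_univ i)
    exact ⟨this.1.le, this.2.le⟩
  have hmeas : ∀ q ∈ F, PP s (oc q) = ENNReal.ofReal (((1 : ℝ) / L) ^ s) := by
    intro q hq
    have : ∀ i : Fin s, ((volume : Measure ℝ).restrict (Icc (0 : ℝ) 1))
        (Ioo ((q i : ℝ) / L) (((q i : ℝ) + 1) / L)) = ENNReal.ofReal ((1 : ℝ) / L) := by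
      intro i
      rw [Measure.restrict_apply measurableSet_Ioo]
      have hsub : Ioo ((q i : ℝ) / L) (((q i : ℝ) + 1) / L) ∩ Icc (0 : ℝ) 1 =
          Ioo ((q i : ℝ) / L) (((q i : ℝ) + 1) / L) := by
        apply inter_eq_left.mpr
        intro y hy
        have h1 : (0 : ℝ) ≤ (q i : ℝ) / L := by positivity
        have h2 : ((q i : ℝ) + 1) / L ≤ 1 := by
          rw [div_le_one hL0]
          have : q i + 1 ≤ L := hF q hq i
          exact_mod_cast this
        exact ⟨h1.trans hy.1.le, hy.2.le.trans h2⟩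
      rw [hsub, Real.volume_Ioo]
      congr 1
      ring
    unfold PP
    simp only [oc]
    rw [Measure.pi_pi]
    simp only [this, Finset.prod_const, Finset.card_univ, Fintype.card_fin]
    rw [← ENNReal.ofReal_pow (by positivity)]
  have hdisj : PairwiseDisjoint (↑F : Set (Fin s → ℕ)) oc := by
    intro q _ q' _ hne
    rw [Function.onFun, Set.disjoint_left]
    intro al h1 h2
    apply hne
    funext i
    have e1 := h1 i (mem_univ i)
    have e2 := h2 i (mem_univ i)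
    have a1 : (q i : ℝ) < (q' i : ℝ) + 1 := by
      have := e1.1.trans e2.2
      rwa [div_lt_div_iff_of_pos_right hL0] at this
    have a2 : (q' i : ℝ) < (q i : ℝ) + 1 := by
      have := e2.1.trans e1.2
      rwa [div_lt_div_iff_of_pos_right hL0] at this
    have b1 : q i < q' i + 1 := by exact_mod_cast a1
    have b2 : q' i < q i + 1 := by exact_mod_cast a2
    omega
  have hsum : PP s (⋃ q ∈ F, oc q) = ∑ q ∈ F, PP s (oc q) := by
    apply measure_biUnion_finset hdisj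
    intro q _
    exact MeasurableSet.univ_pi (fun i => measurableSet_Ioo)
  have hle : PP s (⋃ q ∈ F, oc q) ≤ ENNReal.ofReal B := by
    refine (measure_mono ?_).trans hB
    apply iUnion₂_subset
    intro q hq
    exact (hoc q).trans (hS q hq)
  rw [hsum, Finset.sum_congr rfl hmeas, Finset.sum_const, nsmul_eq_mul,
    ← ENNReal.ofReal_natCast, ← ENNReal.ofReal_mul (by positivity)] at hle
  exact (ENNReal.ofReal_le_ofReal_iff hB0).mp hle

theorem cover (k s : ℕ) (hk : 4 ≤ k) (hs : 2 * k + 1 ≤ s) (η : ℝ) (hη : 0 < η) (d : ℝ)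
    (hd : (s : ℝ) - ((s : ℝ) - 2 * k) / ((k : ℝ) - 1) < d) (hd' : d ≤ s) :
    ∃ C κ : ℝ, 0 < C ∧ 0 < κ ∧ ∃ N0 : ℕ, ∀ n : ℕ, N0 ≤ n →
      ∃ (L : ℕ) (F : Finset (Fin s → ℕ)), 1 ≤ L ∧ Bad k s η n ⊆ ⋃ q ∈ F, cube L q ∧
        (1 : ℝ) / L ≤ C * (n : ℝ) ^ (-κ) ∧
        (F.card : ℝ) * ((1 : ℝ) / L) ^ d ≤ C * (n : ℝ) ^ (-1 - κ) := by
  classical
  have hk' : (4 : ℝ) ≤ k := by exact_mod_cast hk
  have hs' : 2 * (k : ℝ) + 1 ≤ s := by exact_mod_cast hs
  have hk1 : (0 : ℝ) < (k : ℝ) - 1 := by linarith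
  set θ : ℝ := ((s : ℝ) - 2 * k) - ((k : ℝ) - 1) * (s - d) with hθdef
  have hθ : 0 < θ := by
    have h1 : (s : ℝ) - d < ((s : ℝ) - 2 * k) / ((k : ℝ) - 1) := by linarith
    rw [lt_div_iff₀ hk1] at h1
    rw [hθdef]
    linarith
  obtain ⟨C1, hC1, P0, hprob⟩ := prob k s hk hs (η / 4) (θ / 2) (by positivity) (by positivity)
  obtain ⟨c, hc, N1, hgrow⟩ := Pn_growth k s (by omega) (by omega) η hη
  set C2 : ℝ := 4 * s * k * 2 ^ (k - 1) / η + 1 with hC2
  have hC2pos : 0 < C2 := by positivity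
  set κ : ℝ := min (θ / (2 * k)) (1 / k) with hκ
  have hκ0 : 0 < κ := by
    rw [hκ]; exact lt_min (by positivity) (by positivity)
  set C3 : ℝ := C1 * C2 ^ ((s : ℝ) - d) * c ^ (-(k : ℝ) - θ / 2) with hC3
  have hC3pos : 0 < C3 := by positivity
  -- growth of Pn
  have htend : Filter.Tendsto (fun n : ℕ => c * (n : ℝ) ^ ((1 : ℝ) / k)) Filter.atTop Filter.atTop := by
    apply Filter.Tendsto.const_mul_atTop hc
    exact (tendsto_rpow_atTop (by positivity)).comp tendsto_natCast_atTop_atTop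
  obtain ⟨N2, hN2⟩ := Filter.eventually_atTop.mp
    (htend.eventually (Filter.eventually_ge_atTop ((max P0 1 : ℕ) : ℝ)))
  refine ⟨η / c + C3, κ, by positivity, hκ0, max (max N1 N2) 1, fun n hn => ?_⟩
  have hn1 : N1 ≤ n := le_trans (le_trans (le_max_left _ _) (le_max_left _ _)) hn
  have hn2 : N2 ≤ n := le_trans (le_trans (le_max_right _ _) (le_max_left _ _)) hn
  have hn3 : 1 ≤ n := le_trans (le_max_right _ _) hn
  have hnr : (1 : ℝ) ≤ n := by exact_mod_cast hn3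
  have hn0 : (0 : ℝ) < n := by linarith
  set P : ℕ := Pn k s η n with hP
  have hPg : c * (n : ℝ) ^ ((1 : ℝ) / k) ≤ P := hgrow n hn1
  have hPmax : max P0 1 ≤ P := by
    have := (hN2 n hn2).trans hPg
    exact_mod_cast this
  have hPP0 : P0 ≤ P := (le_max_left _ _).trans hPmax
  have hP1 : 1 ≤ P := (le_max_right _ _).trans hPmax
  have hP1' : (1 : ℝ) ≤ P := by exact_mod_cast hP1
  have hPpos : (0 : ℝ) < P := by linarith
  have hpr := hprob P hPP0 ((n : ℝ) + η / 2) (Pn_lower k s (by omega) (by omega) η hη n)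
    (Pn_upper k s (by omega) (by omega) η hη n)
  set L : ℕ := ⌈4 * s * k * (2 * (P : ℝ)) ^ (k - 1) / η⌉₊ with hLdef
  have hLge : 4 * s * k * (2 * (P : ℝ)) ^ (k - 1) / η ≤ L := Nat.le_ceil _
  have hspos : (0 : ℝ) < s := by linarith
  have hL1 : 1 ≤ L := by
    rw [hLdef, Nat.one_le_ceil_iff]
    positivity
  have hL0 : (0 : ℝ) < L := by exact_mod_cast hL1
  have hPk : (P : ℝ) ^ (k - 1) = (P : ℝ) ^ ((k : ℝ) - 1) := by
    rw [← Real.rpow_natCast, Nat.cast_sub (by omega)]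
    simp
  have hPk1 : (1 : ℝ) ≤ (P : ℝ) ^ (k - 1) := one_le_pow₀ hP1'
  have hLle : (L : ℝ) ≤ C2 * (P : ℝ) ^ ((k : ℝ) - 1) := by
    have h1 : (L : ℝ) < 4 * s * k * (2 * (P : ℝ)) ^ (k - 1) / η + 1 :=
      Nat.ceil_lt_add_one (by positivity)
    rw [← hPk, hC2]
    have h2 : 4 * s * k * (2 * (P : ℝ)) ^ (k - 1) / η =
        4 * s * k * 2 ^ (k - 1) / η * (P : ℝ) ^ (k - 1) := by
      rw [mul_pow]; ring
    rw [h2] at h1
    nlinarith
  have hLge' : (P : ℝ) / η ≤ L := by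
    refine le_trans ?_ hLge
    gcongr
    have h1 : (P : ℝ) ≤ (2 * (P : ℝ)) ^ (k - 1) := by
      calc (P : ℝ) ≤ 2 * P := by linarith
        _ = (2 * (P : ℝ)) ^ 1 := (pow_one _).symm
        _ ≤ (2 * (P : ℝ)) ^ (k - 1) := pow_le_pow_right₀ (by linarith) (by omega)
    have h2 : (1 : ℝ) ≤ 4 * s * k := by nlinarith
    calc (P : ℝ) ≤ 1 * (2 * (P : ℝ)) ^ (k - 1) := by linarith
      _ ≤ _ := by gcongr
  -- the finite family
  let F : Finset (Fin s → ℕ) :=
    (Fintype.piFinset (fun _ : Fin s => Finset.range L)).filter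
      (fun q => (cube L q ∩ Bad k s η n).Nonempty)
  have hFL : ∀ q ∈ F, ∀ i, q i < L := by
    intro q hq i
    have := (Finset.mem_filter.mp hq).1
    exact Finset.mem_range.mp (Fintype.mem_piFinset.mp this i)
  have hFS : ∀ q ∈ F, cube L q ⊆ {al : Fin s → ℝ | ∀ x : Fin s → ℕ,
      (∀ i, P ≤ x i ∧ x i < 2 * P) →
        η / 4 ≤ |∑ i, ((x i : ℝ) + al i) ^ k - ((n : ℝ) + η / 2)|} := by
    intro q hq al' hal' x hx
    obtain ⟨al, h1, h2⟩ := (Finset.mem_filter.mp hq).2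
    exact transfer k s η hη n L hL1 hLge q (hFL q hq) al al' h1 hal' h2 x hx
  have hcount := count L hL1 F hFL _ hFS (C1 * (P : ℝ) ^ (-((s : ℝ) - k) + θ / 2))
    (by positivity) hpr
  refine ⟨L, F, hL1, ?_, ?_, ?_⟩
  · intro al hal
    have hq : ∀ i : Fin s, ∃ m : ℕ, m < L ∧ (m : ℝ) / L ≤ al i ∧ al i ≤ ((m : ℝ) + 1) / L := by
      intro i
      have hi := hal.1 i
      have hfl := Nat.floor_le (show 0 ≤ al i * L by have := hi.1; positivity)
      have hfl2 := Nat.lt_floor_add_one (al i * L)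
      by_cases hlt : ⌊al i * L⌋₊ < L
      · refine ⟨⌊al i * L⌋₊, hlt, ?_, ?_⟩
        · rw [div_le_iff₀ hL0]; exact hfl
        · rw [le_div_iff₀ hL0]; exact hfl2.le
      · push Not at hlt
        have h3 : (L : ℝ) ≤ al i * L := by
          have : (L : ℝ) ≤ (⌊al i * L⌋₊ : ℝ) := by exact_mod_cast hlt
          linarith
        have h4 : al i = 1 := by
          have h5 : 1 ≤ al i := by
            by_contra hcon
            push Not at hcon
            nlinarith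
          exact le_antisymm hi.2 h5
        refine ⟨L - 1, by omega, ?_, ?_⟩
        · rw [h4, div_le_one hL0]
          exact_mod_cast Nat.sub_le L 1
        · rw [h4, le_div_iff₀ hL0, Nat.cast_sub hL1]
          simp
    choose q hqL hq1 hq2 using hq
    have hmem : al ∈ cube L q := fun i => ⟨hq1 i, hq2 i⟩
    simp only [mem_iUnion, exists_prop]
    refine ⟨q, ?_, hmem⟩
    refine Finset.mem_filter.mpr ⟨Fintype.mem_piFinset.mpr (fun i => Finset.mem_range.mpr (hqL i)), ?_⟩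
    exact ⟨al, hmem, hal⟩
  · -- 1/L ≤ η/P ≤ (η/c) n^(-1/k)
    have h1 : (1 : ℝ) / L ≤ η / P := by
      rw [div_le_div_iff₀ hL0 hPpos]
      rw [div_le_iff₀ hη] at hLge'
      linarith
    have h2 : η / P ≤ η / (c * (n : ℝ) ^ ((1 : ℝ) / k)) := by
      gcongr
    have h3 : η / (c * (n : ℝ) ^ ((1 : ℝ) / k)) = η / c * (n : ℝ) ^ (-((1 : ℝ) / k)) := by
      rw [Real.rpow_neg hn0.le]
      field_simp
    have h4 : (n : ℝ) ^ (-((1 : ℝ) / k)) ≤ (n : ℝ) ^ (-κ) := by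
      apply Real.rpow_le_rpow_of_exponent_le hnr
      have : κ ≤ 1 / k := min_le_right _ _
      linarith
    calc (1 : ℝ) / L ≤ η / c * (n : ℝ) ^ (-((1 : ℝ) / k)) := by
          rw [← h3]; exact h1.trans h2
      _ ≤ (η / c + C3) * (n : ℝ) ^ (-κ) := by
          have : 0 < η / c := by positivity
          gcongr
          linarith
  · have hLpow : ((1 : ℝ) / L) ^ d = ((1 : ℝ) / L) ^ s * (L : ℝ) ^ ((s : ℝ) - d) := by
      rw [one_div, Real.inv_rpow hL0.le, inv_pow, ← Real.rpow_natCast (L : ℝ) s,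
        ← Real.rpow_neg hL0.le, ← Real.rpow_neg hL0.le, ← Real.rpow_add hL0]
      congr 1
      ring
    have hLsd : (L : ℝ) ^ ((s : ℝ) - d) ≤ C2 ^ ((s : ℝ) - d) *
        (P : ℝ) ^ (((k : ℝ) - 1) * ((s : ℝ) - d)) := by
      calc (L : ℝ) ^ ((s : ℝ) - d) ≤ (C2 * (P : ℝ) ^ ((k : ℝ) - 1)) ^ ((s : ℝ) - d) :=
            Real.rpow_le_rpow hL0.le hLle (by linarith)
        _ = _ := by
            rw [Real.mul_rpow hC2pos.le (by positivity), ← Real.rpow_mul hPpos.le]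
    have hexp : (P : ℝ) ^ (-(k : ℝ) - θ / 2) ≤ c ^ (-(k : ℝ) - θ / 2) * (n : ℝ) ^ (-1 - θ / (2 * k)) := by
      calc (P : ℝ) ^ (-(k : ℝ) - θ / 2) ≤ (c * (n : ℝ) ^ ((1 : ℝ) / k)) ^ (-(k : ℝ) - θ / 2) := by
            apply Real.rpow_le_rpow_of_nonpos (by positivity) hPg
            linarith
        _ = _ := by
            rw [Real.mul_rpow hc.le (by positivity), ← Real.rpow_mul hn0.le]
            congr 2
            field_simp
    have hfin : (n : ℝ) ^ (-1 - θ / (2 * k)) ≤ (n : ℝ) ^ (-1 - κ) := by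
      apply Real.rpow_le_rpow_of_exponent_le hnr
      have : κ ≤ θ / (2 * k) := min_le_left _ _
      linarith
    calc (F.card : ℝ) * ((1 : ℝ) / L) ^ d
        = ((F.card : ℝ) * ((1 : ℝ) / L) ^ s) * (L : ℝ) ^ ((s : ℝ) - d) := by rw [hLpow]; ring
      _ ≤ (C1 * (P : ℝ) ^ (-((s : ℝ) - k) + θ / 2)) * (C2 ^ ((s : ℝ) - d) *
            (P : ℝ) ^ (((k : ℝ) - 1) * ((s : ℝ) - d))) := by
          gcongr
      _ = C1 * C2 ^ ((s : ℝ) - d) * (P : ℝ) ^ (-(k : ℝ) - θ / 2) := by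
          have : (P : ℝ) ^ (-(k : ℝ) - θ / 2) = (P : ℝ) ^ (-((s : ℝ) - k) + θ / 2) *
              (P : ℝ) ^ (((k : ℝ) - 1) * ((s : ℝ) - d)) := by
            rw [← Real.rpow_add hPpos]
            congr 1
            rw [hθdef]
            ring
          rw [this]
          ring
      _ ≤ C1 * C2 ^ ((s : ℝ) - d) * (c ^ (-(k : ℝ) - θ / 2) * (n : ℝ) ^ (-1 - θ / (2 * k))) := by
          gcongr
      _ = C3 * (n : ℝ) ^ (-1 - θ / (2 * k)) := by rw [hC3]; ring
      _ ≤ (η / c + C3) * (n : ℝ) ^ (-1 - κ) := by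
          have : 0 < η / c := by positivity
          gcongr
          linarith

end Pool.H19.Wa
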