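import Mathlib

/-!
# Waring's problem with shifts: definitions (helper19, MP_efcac8_nt)

`e x = exp(2 pi i x)`, `f k P t a = sum_{P <= x < 2P} e(t (x+a)^k)`, `v k P t = int_P^{2P} e(t y^k) dy`,
`Cor k P t t' = int_0^1 f(t,a) conj f(t',a) da`, Gaussian pair `G b`, `w b`.
-/

set_option autoImplicit false

namespace Pool.H19.Wa

open MeasureTheory

noncomputable section

/-- additive character -/
def e (x : ℝ) : ℂ := Complex.exp (2 * Real.pi * x * Complex.I)

/-- shifted Weyl sum -/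
def f (k P : ℕ) (t a : ℝ) : ℂ := ∑ x ∈ Finset.Ico P (2 * P), e (t * ((x : ℝ) + a) ^ k)

def v (k P : ℕ) (t : ℝ) : ℂ := ∫ y in (P : ℝ)..(2 * P : ℝ), e (t * y ^ k)

/-- correlation of the Weyl sums over the shift -/
def Cor (k P : ℕ) (t t' : ℝ) : ℂ :=
  ∫ a in (0 : ℝ)..1, f k P t a * (starRingEnd ℂ) (f k P t' a)

/-- Gaussian window -/
def G (b u : ℝ) : ℝ := Real.exp (-(Real.pi * b * u ^ 2))

/-- its Fourier transform -/
def w (b t : ℝ) : ℝ := (Real.sqrt b)⁻¹ * Real.exp (-(Real.pi * t ^ 2 / b))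

/-- uniform probability on the unit cube of shifts -/
def PP (s : ℕ) : Measure (Fin s → ℝ) :=
  Measure.pi (fun _ : Fin s => (volume : Measure ℝ).restrict (Set.Icc (0 : ℝ) 1))

/-- the smoothed number of representations -/
def R (k P s : ℕ) (b tau : ℝ) (al : Fin s → ℝ) : ℝ :=
  ∑ x ∈ Fintype.piFinset (fun _ : Fin s => Finset.Ico P (2 * P)),
    G b (∑ i, ((x i : ℝ) + al i) ^ k - tau)

/-- end of the major arc -/
def t1 (k P : ℕ) : ℝ := 1 / (2 * k * (2 * (P : ℝ)) ^ (k - 1))

/-! ### elementary facts -/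

theorem e_zero : e 0 = 1 := by simp [e]

theorem e_add (x y : ℝ) : e (x + y) = e x * e y := by
  unfold e; rw [← Complex.exp_add]; congr 1; push_cast; ring

theorem norm_e (x : ℝ) : ‖e x‖ = 1 := by
  unfold e
  have : (2 * Real.pi * x * Complex.I : ℂ) = ((2 * Real.pi * x : ℝ) : ℂ) * Complex.I := by
    push_cast; ring
  rw [this, Complex.norm_exp_ofReal_mul_I]

theorem e_neg (x : ℝ) : e (-x) = (starRingEnd ℂ) (e x) := by
  unfold e
  rw [← Complex.exp_conj]
  congr 1
  simp only [map_mul, Complex.conj_ofReal, Complex.conj_I, map_ofNat]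
  push_cast
  ring

theorem continuous_e : Continuous e := by
  unfold e; fun_prop

theorem e_sum {ι : Type*} (s : Finset ι) (g : ι → ℝ) : e (∑ i ∈ s, g i) = ∏ i ∈ s, e (g i) := by
  classical
  induction s using Finset.induction_on with
  | empty => simp [e_zero]
  | insert a s ha ih => rw [Finset.sum_insert ha, Finset.prod_insert ha, e_add, ih]

theorem hasDerivAt_e (x : ℝ) : HasDerivAt e (2 * Real.pi * Complex.I * e x) x := by
  unfold e
  have h : HasDerivAt (fun y : ℝ => (2 * Real.pi * y * Complex.I : ℂ)) (2 * Real.pi * Complex.I) x := by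
    have h1 : HasDerivAt (fun y : ℝ => (y : ℂ)) 1 x := Complex.ofRealCLM.hasDerivAt
    have := (h1.const_mul (2 * Real.pi : ℂ)).mul_const Complex.I
    simpa using this
  have := h.cexp
  convert this using 1
  ring

theorem continuous_f (k P : ℕ) : Continuous (fun p : ℝ × ℝ => f k P p.1 p.2) := by
  unfold f
  refine continuous_finsetSum _ (fun x _ => continuous_e.comp ?_)
  fun_prop

theorem norm_f_le (k P : ℕ) (t a : ℝ) : ‖f k P t a‖ ≤ P := by
  unfold f
  refine (norm_sum_le _ _).trans ?_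
  have h2 : 2 * P - P = P := by omega
  simp only [norm_e, Finset.sum_const, Nat.card_Ico, h2, nsmul_eq_mul, mul_one, le_refl]

theorem w_nonneg (b t : ℝ) : 0 ≤ w b t := by unfold w; positivity

theorem w_le_one {b : ℝ} (hb : 1 ≤ b) (t : ℝ) : w b t ≤ 1 := by
  unfold w
  have h1 : (Real.sqrt b)⁻¹ ≤ 1 := inv_le_one_of_one_le₀ (Real.one_le_sqrt.mpr hb)
  have h2 : Real.exp (-(Real.pi * t ^ 2 / b)) ≤ 1 := by
    apply Real.exp_le_one_iff.mpr
    have : 0 ≤ Real.pi * t ^ 2 / b := by positivity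
    linarith
  calc _ ≤ 1 * 1 := mul_le_mul h1 h2 (Real.exp_pos _).le zero_le_one
    _ = 1 := one_mul 1

theorem G_nonneg (b u : ℝ) : 0 ≤ G b u := (Real.exp_pos _).le

instance (s : ℕ) : IsProbabilityMeasure (PP s) := by
  unfold PP
  have : IsProbabilityMeasure ((volume : Measure ℝ).restrict (Set.Icc (0 : ℝ) 1)) :=
    ⟨by simp⟩
  infer_instance

end

end Pool.H19.Wa
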