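import Pool.Agent.H19.Wa.Cover

/-!
# Module DIM: Hausdorff dimension of the limsup set

For every d in (s-(s-2k)/(k-1), s] apply `MeasureTheory.Measure.hausdorffMeasure_le_liminf_tsum` with the covers
{cube L_n q : n >= N, q in F_n} of the limsup set (N -> infinity): diameter of `cube L q` in the sup metric is <= 1/L,
Σ_{n>=N} #F_n (1/L_n)^d <= Σ_{n >= N} C n^(-1-κ) -> 0. So μH[d] = 0 and dimH <= d
(`dimH_le_of_hausdorffMeasure_ne_top`); let d decrease. Note d > 0.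
-/

set_option autoImplicit false

namespace Pool.H19.Wa

open MeasureTheory Set Filter

private theorem ediam_cube {s : ℕ} (L : ℕ) (hL : 1 ≤ L) (q : Fin s → ℕ) :
    Metric.ediam (cube L q) ≤ ENNReal.ofReal ((1 : ℝ) / L) := by
  have hL0 : (0 : ℝ) < L := by exact_mod_cast hL
  apply Metric.ediam_le
  intro x hx y hy
  rw [edist_dist]
  apply ENNReal.ofReal_le_ofReal
  rw [dist_pi_le_iff (by positivity)]
  intro i
  have h1 := hx i
  have h2 := hy i
  have h3 : ((q i : ℝ) + 1) / L = (q i : ℝ) / L + 1 / L := by ring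
  rw [Real.dist_eq, abs_le]
  constructor <;> linarith [h1.1, h1.2, h2.1, h2.2]

private theorem meas_zero (k s : ℕ) (hk : 4 ≤ k) (hs : 2 * k + 1 ≤ s) (η : ℝ) (hη : 0 < η) (d : ℝ)
    (hd : (s : ℝ) - ((s : ℝ) - 2 * k) / ((k : ℝ) - 1) < d) (hd' : d ≤ s) (hd0 : 0 < d) :
    Measure.hausdorffMeasure d {al : Fin s → ℝ | ∃ᶠ n : ℕ in atTop, al ∈ Bad k s η n} = 0 := by
  classical
  obtain ⟨C, κ, hC, hκ, N0, hcov⟩ := cover k s hk hs η hη d hd hd'
  have hch : ∀ n : ℕ, ∃ (L : ℕ) (F : Finset (Fin s → ℕ)), N0 ≤ n → (1 ≤ L ∧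
      Bad k s η n ⊆ ⋃ q ∈ F, cube L q ∧ (1 : ℝ) / L ≤ C * (n : ℝ) ^ (-κ) ∧
        (F.card : ℝ) * ((1 : ℝ) / L) ^ d ≤ C * (n : ℝ) ^ (-1 - κ)) := by
    intro n
    by_cases hn : N0 ≤ n
    · obtain ⟨L, F, h⟩ := hcov n hn
      exact ⟨L, F, fun _ => h⟩
    · exact ⟨0, ∅, fun h => absurd h hn⟩
  choose L F hLF using hch
  have hsum : ∑' n : ℕ, ENNReal.ofReal (C * (n : ℝ) ^ (-1 - κ)) ≠ ⊤ := by
    have h1 : Summable (fun n : ℕ => C * (n : ℝ) ^ (-1 - κ)) := by
      apply Summable.mul_left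
      rw [Real.summable_nat_rpow]
      linarith
    rw [← ENNReal.ofReal_tsum_of_nonneg (fun n => by positivity) h1]
    exact ENNReal.ofReal_ne_top
  have htail := ENNReal.tendsto_sum_nat_add _ hsum
  have key := Measure.hausdorffMeasure_le_liminf_tsum (ι := fun N : ℕ => Σ m : ℕ, {q // q ∈ F (m + N)})
    d {al : Fin s → ℝ | ∃ᶠ n : ℕ in atTop, al ∈ Bad k s η n} (l := atTop)
    (fun N : ℕ => ENNReal.ofReal (C * (N : ℝ) ^ (-κ))) ?_
    (fun N i => cube (L (i.1 + N)) i.2.1) ?_ ?_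
  · refine le_antisymm (key.trans ?_) zero_le
    have hle : ∀ᶠ N : ℕ in atTop, (∑' i : (Σ m : ℕ, {q // q ∈ F (m + N)}),
        Metric.ediam (cube (L (i.1 + N)) i.2.1) ^ d) ≤
        ∑' m : ℕ, ENNReal.ofReal (C * ((m + N : ℕ) : ℝ) ^ (-1 - κ)) := by
      filter_upwards [eventually_ge_atTop N0] with N hN
      rw [ENNReal.tsum_sigma']
      apply ENNReal.tsum_le_tsum
      intro m
      obtain ⟨hL1, -, -, hcard⟩ := hLF (m + N) (by omega)
      have hL0 : (0 : ℝ) < L (m + N) := by exact_mod_cast hL1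
      rw [tsum_fintype]
      calc ∑ q : {q // q ∈ F (m + N)}, Metric.ediam (cube (L (m + N)) q.1) ^ d
          ≤ ∑ _q : {q // q ∈ F (m + N)}, ENNReal.ofReal (((1 : ℝ) / L (m + N)) ^ d) := by
            apply Finset.sum_le_sum
            intro q _
            rw [← ENNReal.ofReal_rpow_of_nonneg (by positivity) hd0.le]
            exact ENNReal.rpow_le_rpow (ediam_cube _ hL1 _) hd0.le
        _ = ENNReal.ofReal ((F (m + N)).card * ((1 : ℝ) / L (m + N)) ^ d) := by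
            rw [Finset.sum_const, Finset.card_univ, Fintype.card_coe, nsmul_eq_mul,
              ENNReal.ofReal_mul (by positivity), ENNReal.ofReal_natCast]
        _ ≤ _ := ENNReal.ofReal_le_ofReal hcard
    calc liminf (fun N : ℕ => ∑' i : (Σ m : ℕ, {q // q ∈ F (m + N)}),
        Metric.ediam (cube (L (i.1 + N)) i.2.1) ^ d) atTop
        ≤ liminf (fun N : ℕ => ∑' m : ℕ, ENNReal.ofReal (C * ((m + N : ℕ) : ℝ) ^ (-1 - κ))) atTop :=
          liminf_le_liminf hle
      _ = 0 := htail.liminf_eq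
      _ ≤ 0 := le_rfl
  · have h1 : Tendsto (fun N : ℕ => C * (N : ℝ) ^ (-κ)) atTop (nhds (C * 0)) :=
      ((tendsto_rpow_neg_atTop hκ).comp tendsto_natCast_atTop_atTop).const_mul C
    have h2 := ENNReal.tendsto_ofReal h1
    simpa using h2
  · filter_upwards [eventually_ge_atTop (max N0 1)] with N hN
    intro i
    obtain ⟨hL1, -, hL2, -⟩ := hLF (i.1 + N) (by have := le_max_left N0 1; omega)
    refine (ediam_cube _ hL1 _).trans (ENNReal.ofReal_le_ofReal (hL2.trans ?_))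
    apply mul_le_mul_of_nonneg_left _ hC.le
    have hN1 : (0 : ℝ) < N := by
      have := le_max_right N0 1
      have h' : 1 ≤ N := by omega
      exact_mod_cast h'
    apply Real.rpow_le_rpow_of_nonpos hN1 _ (by linarith)
    push_cast
    have : (0 : ℝ) ≤ (i.1 : ℝ) := by positivity
    linarith
  · filter_upwards [eventually_ge_atTop N0] with N hN
    intro al hal
    have hal' : ∃ᶠ n : ℕ in atTop, al ∈ Bad k s η n := hal
    obtain ⟨n, hn1, hn2⟩ := (hal'.and_eventually (eventually_ge_atTop N)).exists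
    obtain ⟨-, hcv, -, -⟩ := hLF n (by omega)
    have h1 := hcv hn1
    simp only [mem_iUnion, exists_prop] at h1
    obtain ⟨q, hq, hmem⟩ := h1
    rw [mem_iUnion]
    have hnN : n - N + N = n := by omega
    refine ⟨⟨n - N, ⟨q, ?_⟩⟩, ?_⟩
    · rw [hnN]; exact hq
    · simp only [hnN]; exact hmem

theorem dim_limsup (k s : ℕ) (hk : 4 ≤ k) (hs : 2 * k + 1 ≤ s) (η : ℝ) (hη : 0 < η) :
    dimH {al : Fin s → ℝ | ∃ᶠ n : ℕ in atTop, al ∈ Bad k s η n} ≤
      ENNReal.ofReal ((s : ℝ) - ((s : ℝ) - 2 * k) / ((k : ℝ) - 1)) := by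
  have hk' : (4 : ℝ) ≤ k := by exact_mod_cast hk
  have hs' : 2 * (k : ℝ) + 1 ≤ s := by exact_mod_cast hs
  set d0 : ℝ := (s : ℝ) - ((s : ℝ) - 2 * k) / ((k : ℝ) - 1) with hd0
  have hd0s : d0 < s := by
    have : 0 < ((s : ℝ) - 2 * k) / ((k : ℝ) - 1) := div_pos (by linarith) (by linarith)
    linarith
  have hd0pos : 0 < d0 := by
    have : ((s : ℝ) - 2 * k) / ((k : ℝ) - 1) < s := by
      rw [div_lt_iff₀ (by linarith)]
      nlinarith
    linarith
  have hall : ∀ d : ℝ, d0 < d → d ≤ s →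
      dimH {al : Fin s → ℝ | ∃ᶠ n : ℕ in atTop, al ∈ Bad k s η n} ≤ ENNReal.ofReal d := by
    intro d h1 h2
    have hz := meas_zero k s hk hs η hη d h1 h2 (by linarith)
    have hdd : ((d.toNNReal : NNReal) : ℝ) = d := Real.coe_toNNReal d (by linarith)
    have : Measure.hausdorffMeasure ((d.toNNReal : NNReal) : ℝ)
        {al : Fin s → ℝ | ∃ᶠ n : ℕ in atTop, al ∈ Bad k s η n} ≠ ⊤ := by
      rw [hdd, hz]; exact ENNReal.zero_ne_top
    exact dimH_le_of_hausdorffMeasure_ne_top this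
  have htend : Tendsto (fun d : ℝ => ENNReal.ofReal d) (nhdsWithin d0 (Ioi d0))
      (nhds (ENNReal.ofReal d0)) :=
    (ENNReal.continuous_ofReal.tendsto d0).mono_left nhdsWithin_le_nhds
  refine ge_of_tendsto htend ?_
  have hmem : Ioc d0 (s : ℝ) ∈ nhdsWithin d0 (Ioi d0) := Ioc_mem_nhdsGT hd0s
  filter_upwards [hmem] with d hd
  exact hall d hd.1 hd.2

end Pool.H19.Wa
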