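import Pool.Agent.H19.Wa.Dim

/-!
# Module FINAL: from the unit cube to all shifts

al in R^s, m i = ⌊al i⌋, β i = fract (al i) in [0,1). If for η = 1/(j+1) the point β is in only finitely many Bad n,
then for n large there is y with y_i >= Pn and n <= Σ(y_i+β_i)^k < n+η; as Pn -> infinity (Pn_growth) y_i >= |m_i|, and
x_i = y_i - m_i is a natural number with x_i + al_i = y_i + β_i. So
Exc k s ⊆ ⋃_{j : ℕ} ⋃_{m : Fin s → ℤ} (translate by m of the limsup set for η = 1/(j+1)); dimH of a countable union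
(`dimH_iUnion`), translations are isometries (`Isometry.dimH_image` / `IsometryEquiv`). Volume: dimH < s implies
μH[s] = 0 = volume (`MeasureTheory.hausdorffMeasure_pi_real`).
-/

set_option autoImplicit false

namespace Pool.H19.Wa

open MeasureTheory Set Filter

theorem exc_subset (k s : ℕ) (hk : 1 ≤ k) (hs : 1 ≤ s) :
    Exc k s ⊆ ⋃ j : ℕ, ⋃ m : Fin s → ℤ, (IsometryEquiv.addRight (fun i => (m i : ℝ))) ''
      {al : Fin s → ℝ | ∃ᶠ n : ℕ in atTop, al ∈ Bad k s (1 / ((j : ℝ) + 1)) n} := by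
  intro al hal
  have hal' : ∃ η : ℝ, 0 < η ∧ ∃ᶠ n : ℕ in atTop, ∀ x : Fin s → ℕ,
      ¬ ((n : ℝ) ≤ ∑ i, ((x i : ℝ) + al i) ^ k ∧ ∑ i, ((x i : ℝ) + al i) ^ k < n + η) := by
    have h1 : ¬ ∀ η : ℝ, 0 < η → ∃ N : ℕ, ∀ n : ℕ, N ≤ n → ∃ x : Fin s → ℕ,
      (n : ℝ) ≤ ∑ i, ((x i : ℝ) + al i) ^ k ∧ ∑ i, ((x i : ℝ) + al i) ^ k < n + η := hal
    push Not at h1
    obtain ⟨η, hη, h2⟩ := h1
    refine ⟨η, hη, frequently_atTop.2 fun N => ?_⟩
    obtain ⟨n, hn, h3⟩ := h2 N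
    exact ⟨n, hn, fun x hx => absurd hx.2 (not_lt.2 (h3 x hx.1))⟩
  obtain ⟨η, hη, hfr⟩ := hal'
  obtain ⟨j, hj⟩ := exists_nat_one_div_lt hη
  have hη' : 0 < 1 / ((j : ℝ) + 1) := by positivity
  rw [mem_iUnion]
  refine ⟨j, ?_⟩
  rw [mem_iUnion]
  refine ⟨fun i => ⌊al i⌋, fun i => Int.fract (al i), ?_, ?_⟩
  · rw [mem_setOf_eq]
    -- `Pn` tends to infinity
    have hev : ∀ᶠ n : ℕ in atTop, ∀ i, ⌊al i⌋ ≤ (Pn k s (1 / ((j : ℝ) + 1)) n : ℤ) := by
      obtain ⟨c, hc, N0, hN0⟩ := Pn_growth k s hk hs (1 / ((j : ℝ) + 1)) hη'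
      have hk0 : 0 < (1 : ℝ) / k := by
        have : (1 : ℝ) ≤ k := by exact_mod_cast hk
        positivity
      have ht : Tendsto (fun n : ℕ => c * (n : ℝ) ^ ((1 : ℝ) / k)) atTop atTop :=
        ((tendsto_rpow_atTop hk0).comp tendsto_natCast_atTop_atTop).const_mul_atTop hc
      rw [eventually_all]
      intro i
      filter_upwards [ht.eventually_ge_atTop (⌊al i⌋ : ℝ), eventually_ge_atTop N0] with n h1 h2
      have h3 := h1.trans (hN0 n h2)
      exact_mod_cast h3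
    refine (hfr.and_eventually hev).mono ?_
    rintro n ⟨h1, h2⟩
    refine ⟨fun i => ⟨Int.fract_nonneg _, (Int.fract_lt_one _).le⟩, fun y hy hcon => ?_⟩
    have hx : ∀ i, ((((y i : ℤ) - ⌊al i⌋).toNat : ℕ) : ℝ) + al i =
        (y i : ℝ) + Int.fract (al i) := by
      intro i
      have h3 : 0 ≤ (y i : ℤ) - ⌊al i⌋ := by
        have h4 := h2 i
        have h5 : (Pn k s (1 / ((j : ℝ) + 1)) n : ℤ) ≤ y i := by exact_mod_cast hy i
        omega
      have h6 : ((((y i : ℤ) - ⌊al i⌋).toNat : ℕ) : ℝ) = (y i : ℝ) - ⌊al i⌋ := by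
        have : ((((y i : ℤ) - ⌊al i⌋).toNat : ℤ) : ℝ) = (((y i : ℤ) - ⌊al i⌋ : ℤ) : ℝ) := by
          rw [Int.toNat_of_nonneg h3]
        push_cast at this
        exact_mod_cast this
      rw [h6, Int.fract]
      ring
    apply h1 fun i => ((y i : ℤ) - ⌊al i⌋).toNat
    simp only [hx]
    refine ⟨hcon.1, lt_of_lt_of_le hcon.2 ?_⟩
    linarith
  · funext i
    simp [IsometryEquiv.addRight]

theorem dim_exc (k s : ℕ) (hk : 4 ≤ k) (hs : 2 * k + 1 ≤ s) :
    dimH (Exc k s) ≤ ENNReal.ofReal ((s : ℝ) - ((s : ℝ) - 2 * k) / ((k : ℝ) - 1)) := by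
  refine (dimH_mono (exc_subset k s (by omega) (by omega))).trans ?_
  rw [dimH_iUnion]
  refine iSup_le fun j => ?_
  rw [dimH_iUnion]
  refine iSup_le fun m => ?_
  rw [IsometryEquiv.dimH_image]
  exact dim_limsup k s hk hs _ (by positivity)

theorem volume_exc (k s : ℕ) (hk : 4 ≤ k) (hs : 2 * k + 1 ≤ s) :
    volume (Exc k s) = 0 := by
  have hkR : (4 : ℝ) ≤ k := by exact_mod_cast hk
  have hsR : (2 : ℝ) * k + 1 ≤ s := by exact_mod_cast hs
  have hlt : dimH (Exc k s) < ((s : NNReal) : ENNReal) := by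
    refine lt_of_le_of_lt (dim_exc k s hk hs) ?_
    have : ((s : NNReal) : ENNReal) = ENNReal.ofReal (s : ℝ) := by simp
    rw [this, ENNReal.ofReal_lt_ofReal_iff (by linarith)]
    have : 0 < ((s : ℝ) - 2 * k) / ((k : ℝ) - 1) := div_pos (by linarith) (by linarith)
    linarith
  have h0 := hausdorffMeasure_of_dimH_lt hlt
  have hv : (Measure.hausdorffMeasure ((s : NNReal) : ℝ) : Measure (Fin s → ℝ)) = volume := by
    have := hausdorffMeasure_pi_real (ι := Fin s)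
    simpa using this
  rwa [hv] at h0

end Pool.H19.Wa
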