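import Pool.Agent.H19.Wa.Phase

/-!
# Module KUS: Kusmin-Landau inequality and the Weyl sum on the major arc

`kusmin`: d n = θ(n+1) - θ n nondecreasing in [lam, 1/2]. C n = 1/(1 - e(d n)) = (1 + i cot(π d n))/2,
e(θ n) = (e(θ n) - e(θ (n+1))) C n, Abel summation:
Σ_{n<N} e(θ n) = e(θ 0) C 0 - e(θ N) C (N-1) + Σ_{0<n<N} e(θ n)(C n - C (n-1)),
|C n| = 1/(2 sin π d n) <= 1/(4 lam) and Σ|C n - C (n-1)| = (cot π d_0 - cot π d_(N-1))/2 <= 1/(2 π lam)
(cot decreasing on (0, π/2], cot >= 0 there, cot x <= 1/x). The last term e(θ N) is <= 1 <= 1/(2 lam).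

`f_major`: θ n = t (P+n+a)^k (t > 0; for t < 0 conjugate), increments nondecreasing, at least k t P^(k-1), at most
k t (2P)^(k-1) <= 1/2 by definition of t1.
`v_bound` is phase_zero. `f_sub_v`: v = Σ_x ∫_0^1 e(t(x+u)^k) du, |e p - e q| <= 2π|p-q|,
|(x+a)^k - (x+u)^k| <= k (2P)^(k-1).
-/

set_option autoImplicit false

namespace Pool.H19.Wa

open MeasureTheory Set

/-! ### the cotangent -/

noncomputable def kct (x : ℝ) : ℝ := Real.cos (Real.pi * x) / Real.sin (Real.pi * x)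

noncomputable def kcc (x : ℝ) : ℂ := (1 + (kct x : ℂ) * Complex.I) / 2

theorem kus_sin_ge {x : ℝ} (h0 : 0 < x) (h1 : x ≤ 1 / 2) : 2 * x ≤ Real.sin (Real.pi * x) := by
  have hpi := Real.pi_pos
  have h := Real.mul_le_sin (x := Real.pi * x) (by positivity) (by nlinarith)
  have e1 : 2 / Real.pi * (Real.pi * x) = 2 * x := by field_simp
  rwa [e1] at h

theorem kus_sin_pos {x : ℝ} (h0 : 0 < x) (h1 : x ≤ 1 / 2) : 0 < Real.sin (Real.pi * x) :=
  lt_of_lt_of_le (by linarith) (kus_sin_ge h0 h1)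

theorem kct_nonneg {x : ℝ} (h0 : 0 < x) (h1 : x ≤ 1 / 2) : 0 ≤ kct x := by
  have hpi := Real.pi_pos
  unfold kct
  refine div_nonneg ?_ (kus_sin_pos h0 h1).le
  refine Real.cos_nonneg_of_mem_Icc ⟨?_, ?_⟩
  · nlinarith
  · nlinarith

theorem kct_le {x : ℝ} (h0 : 0 < x) (h1 : x ≤ 1 / 2) : kct x ≤ 1 / (2 * x) := by
  unfold kct
  have h2 := kus_sin_ge h0 h1
  have h3 := kus_sin_pos h0 h1
  exact div_le_div₀ zero_le_one (Real.cos_le_one _) (by linarith) h2

theorem kct_anti {x y : ℝ} (h0 : 0 < x) (hxy : x ≤ y) (h1 : y ≤ 1 / 2) : kct y ≤ kct x := by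
  have hpi := Real.pi_pos
  have hx := kus_sin_pos h0 (hxy.trans h1)
  have hy := kus_sin_pos (h0.trans_le hxy) h1
  unfold kct
  rw [div_le_div_iff₀ hy hx]
  have h2 : 0 ≤ Real.sin (Real.pi * y - Real.pi * x) := by
    refine Real.sin_nonneg_of_nonneg_of_le_pi ?_ ?_
    · nlinarith
    · nlinarith
  rw [Real.sin_sub] at h2
  nlinarith

theorem norm_kcc_sub (x y : ℝ) : ‖kcc x - kcc y‖ = |kct x - kct y| / 2 := by
  have e1 : kcc x - kcc y = (((kct x - kct y) / 2 : ℝ) : ℂ) * Complex.I := by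
    unfold kcc; push_cast; ring
  rw [e1, norm_mul, Complex.norm_I, mul_one, Complex.norm_real, Real.norm_eq_abs, abs_div]
  norm_num

theorem kus_e_eq (x : ℝ) :
    e x = ((Real.cos (Real.pi * x) : ℂ) + (Real.sin (Real.pi * x) : ℂ) * Complex.I) ^ 2 := by
  unfold e
  have h := Complex.exp_mul_I ((Real.pi * x : ℝ) : ℂ)
  rw [Complex.ofReal_cos, Complex.ofReal_sin, ← h, ← Complex.exp_nat_mul]
  congr 1
  push_cast
  ring

theorem kcc_mul {x : ℝ} (h0 : 0 < x) (h1 : x ≤ 1 / 2) : (1 - e x) * kcc x = 1 := by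
  have hs : (Real.sin (Real.pi * x) : ℂ) ≠ 0 := by
    exact_mod_cast (kus_sin_pos h0 h1).ne'
  have hsc : (Real.sin (Real.pi * x) : ℂ) ^ 2 + (Real.cos (Real.pi * x) : ℂ) ^ 2 = 1 := by
    exact_mod_cast Real.sin_sq_add_cos_sq (Real.pi * x)
  rw [kus_e_eq]
  unfold kcc kct
  push_cast
  have hs' : Complex.sin (Real.pi * x : ℂ) ≠ 0 := by
    have := hs
    push_cast at this
    exact this
  have hsc' : Complex.sin (Real.pi * x : ℂ) ^ 2 + Complex.cos (Real.pi * x : ℂ) ^ 2 = 1 := by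
    have := hsc
    push_cast at this
    exact this
  set s := Complex.sin (Real.pi * x : ℂ)
  set c := Complex.cos (Real.pi * x : ℂ)
  field_simp
  have hI : Complex.I ^ 2 = -1 := Complex.I_sq
  have e2 : (1 - (c + s * Complex.I) ^ 2) * (s + c * Complex.I)
      = s + c * Complex.I - (c ^ 2 + 2 * c * s * Complex.I + s ^ 2 * Complex.I ^ 2)
        * (s + c * Complex.I) := by ring
  rw [e2, hI]
  have hc : c ^ 2 = 1 - s ^ 2 := by linear_combination hsc'
  have e3 : s + c * Complex.I - (c ^ 2 + 2 * c * s * Complex.I + s ^ 2 * -1) * (s + c * Complex.I)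
      = s + c * Complex.I - (c ^ 2 - s ^ 2) * s - (c ^ 2 - s ^ 2) * c * Complex.I
        - 2 * c * s ^ 2 * Complex.I - 2 * c ^ 2 * s * Complex.I ^ 2 := by ring
  rw [e3, hI]
  linear_combination (s - c * Complex.I) * hsc'

theorem norm_kcc_le {x : ℝ} (h0 : 0 < x) (h1 : x ≤ 1 / 2) : ‖kcc x‖ ≤ 1 / (4 * x) := by
  have hs := kus_sin_pos h0 h1
  have hge := kus_sin_ge h0 h1
  have hsc := Real.sin_sq_add_cos_sq (Real.pi * x)
  have e1 : kcc x = ((1 / (2 * Real.sin (Real.pi * x)) : ℝ) : ℂ) *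
      ((Real.sin (Real.pi * x) : ℂ) + (Real.cos (Real.pi * x) : ℂ) * Complex.I) := by
    have hs' : (Real.sin (Real.pi * x) : ℂ) ≠ 0 := by exact_mod_cast hs.ne'
    unfold kcc kct
    rw [Complex.ofReal_div, Complex.ofReal_div, Complex.ofReal_mul]
    push_cast at hs' ⊢
    field_simp
  have e2 : ‖((Real.sin (Real.pi * x) : ℂ) + (Real.cos (Real.pi * x) : ℂ) * Complex.I)‖ = 1 := by
    rw [Complex.norm_add_mul_I, hsc, Real.sqrt_one]
  rw [e1, norm_mul, e2, mul_one, Complex.norm_real, Real.norm_eq_abs, abs_of_nonneg (by positivity)]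
  exact div_le_div₀ zero_le_one le_rfl (by linarith) (by linarith)

theorem kus_abel (z C : ℕ → ℂ) (N : ℕ) :
    ∑ n ∈ Finset.range (N + 1), (z n - z (n + 1)) * C n
      = z 0 * C 0 - z (N + 1) * C N + ∑ n ∈ Finset.range N, z (n + 1) * (C (n + 1) - C n) := by
  induction N with
  | zero => simp; ring
  | succ N ih =>
    rw [Finset.sum_range_succ, ih, Finset.sum_range_succ _ N]
    ring

theorem kusmin (N : ℕ) (θ : ℕ → ℝ) (lam : ℝ) (hlam : 0 < lam)
    (hmono : ∀ n, n + 1 < N → θ (n + 1) - θ n ≤ θ (n + 2) - θ (n + 1))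
    (hlow : ∀ n, n < N → lam ≤ θ (n + 1) - θ n) (hup : ∀ n, n < N → θ (n + 1) - θ n ≤ 1 / 2)
    (hl2 : lam ≤ 1 / 2) :
    ‖∑ n ∈ Finset.range (N + 1), e (θ n)‖ ≤ 2 / lam := by
  have h12 : 1 ≤ 1 / (2 * lam) := by
    rw [le_div_iff₀ (by positivity)]; linarith
  rcases N with _ | M
  · simp only [zero_add, Finset.range_one, Finset.sum_singleton, norm_e]
    rw [le_div_iff₀ hlam]; linarith
  set d : ℕ → ℝ := fun n => θ (n + 1) - θ n with hd
  have hd0 : ∀ n, n < M + 1 → 0 < d n := fun n hn => lt_of_lt_of_le hlam (hlow n hn)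
  have hd1 : ∀ n, n < M + 1 → d n ≤ 1 / 2 := hup
  have hdl : ∀ n, n < M + 1 → lam ≤ d n := hlow
  have hterm : ∀ n ∈ Finset.range (M + 1), e (θ n) = (e (θ n) - e (θ (n + 1))) * kcc (d n) := by
    intro n hn
    have hn' := Finset.mem_range.mp hn
    have h1 : e (θ (n + 1)) = e (θ n) * e (d n) := by
      rw [← e_add]; congr 1; simp only [hd]; ring
    rw [h1]
    have h2 := kcc_mul (hd0 n hn') (hd1 n hn')
    calc e (θ n) = e (θ n) * ((1 - e (d n)) * kcc (d n)) := by rw [h2, mul_one]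
      _ = _ := by ring
  rw [Finset.sum_range_succ, Finset.sum_congr rfl hterm,
    kus_abel (fun n => e (θ n)) (fun n => kcc (d n)) M]
  have hC : ∀ n, n < M + 1 → ‖kcc (d n)‖ ≤ 1 / (4 * lam) := by
    intro n hn
    refine (norm_kcc_le (hd0 n hn) (hd1 n hn)).trans ?_
    exact div_le_div₀ zero_le_one le_rfl (by positivity) (by linarith [hdl n hn])
  have hS : ‖∑ n ∈ Finset.range M, e (θ (n + 1)) * (kcc (d (n + 1)) - kcc (d n))‖
      ≤ 1 / (4 * lam) := by
    refine (norm_sum_le _ _).trans ?_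
    have h1 : ∀ n ∈ Finset.range M, ‖e (θ (n + 1)) * (kcc (d (n + 1)) - kcc (d n))‖
        = (kct (d n) - kct (d (n + 1))) / 2 := by
      intro n hn
      have hn' := Finset.mem_range.mp hn
      rw [norm_mul, norm_e, one_mul, norm_kcc_sub, abs_sub_comm, abs_of_nonneg]
      have := kct_anti (hd0 n (by omega)) (hmono n (by omega)) (hd1 (n + 1) (by omega))
      linarith
    rw [Finset.sum_congr rfl h1, ← Finset.sum_div, Finset.sum_range_sub' (fun n => kct (d n)) M]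
    have h2 := kct_nonneg (hd0 M (by omega)) (hd1 M (by omega))
    have h3 := kct_le (hd0 0 (by omega)) (hd1 0 (by omega))
    have h4 : 1 / (2 * d 0) ≤ 1 / (2 * lam) :=
      div_le_div₀ zero_le_one le_rfl (by positivity) (by linarith [hdl 0 (by omega)])
    have h5 : 1 / (4 * lam) = (1 / (2 * lam)) / 2 := by field_simp; norm_num
    rw [h5]
    linarith
  have hA : ‖e (θ 0) * kcc (d 0)‖ ≤ 1 / (4 * lam) := by
    rw [norm_mul, norm_e, one_mul]; exact hC 0 (by omega)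
  have hB : ‖e (θ (M + 1)) * kcc (d M)‖ ≤ 1 / (4 * lam) := by
    rw [norm_mul, norm_e, one_mul]; exact hC M (by omega)
  have hE : ‖e (θ (M + 1))‖ = 1 := norm_e _
  have h6 : 1 / (4 * lam) = (1 / lam) / 4 := by field_simp
  have h7 : 1 / (2 * lam) = (1 / lam) / 2 := by field_simp
  have h8 : 2 / lam = 2 * (1 / lam) := by ring
  have h9 : 0 < 1 / lam := by positivity
  calc ‖e (θ 0) * kcc (d 0) - e (θ (M + 1)) * kcc (d M)
        + ∑ n ∈ Finset.range M, e (θ (n + 1)) * (kcc (d (n + 1)) - kcc (d n)) + e (θ (M + 1))‖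
      ≤ ‖e (θ 0) * kcc (d 0)‖ + ‖e (θ (M + 1)) * kcc (d M)‖
        + ‖∑ n ∈ Finset.range M, e (θ (n + 1)) * (kcc (d (n + 1)) - kcc (d n))‖
        + ‖e (θ (M + 1))‖ := by
        refine (norm_add_le _ _).trans ?_
        gcongr
        refine (norm_add_le _ _).trans ?_
        gcongr
        exact norm_sub_le _ _
    _ ≤ 2 / lam := by
        rw [h6] at hA hB hS
        rw [h7] at h12
        rw [hE, h8]
        linarith

/-! ### powers -/

theorem kus_pow_sub (k : ℕ) (y : ℝ) :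
    (y + 1) ^ k - y ^ k = ∑ i ∈ Finset.range k, (y + 1) ^ i * y ^ (k - 1 - i) := by
  have h := (Commute.all (y + 1) y).geom_sum₂_mul k
  have e1 : (y + 1 - y : ℝ) = 1 := by ring
  rw [e1, mul_one] at h
  exact h.symm

theorem kus_pow_mono (k : ℕ) {y : ℝ} (hy : 0 ≤ y) :
    (y + 1) ^ k - y ^ k ≤ (y + 1 + 1) ^ k - (y + 1) ^ k := by
  rw [kus_pow_sub, kus_pow_sub]
  refine Finset.sum_le_sum (fun i _ => ?_)
  have h1 : (y + 1) ^ i ≤ (y + 1 + 1) ^ i := pow_le_pow_left₀ (by linarith) (by linarith) _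
  have h2 : y ^ (k - 1 - i) ≤ (y + 1) ^ (k - 1 - i) := pow_le_pow_left₀ hy (by linarith) _
  exact mul_le_mul h1 h2 (by positivity) (by positivity)

theorem kus_pow_ge (k : ℕ) {y : ℝ} (hy : 0 ≤ y) : k * y ^ (k - 1) ≤ (y + 1) ^ k - y ^ k := by
  rw [kus_pow_sub]
  have h : ∀ i ∈ Finset.range k, y ^ (k - 1) ≤ (y + 1) ^ i * y ^ (k - 1 - i) := by
    intro i hi
    have hi' := Finset.mem_range.mp hi
    have e1 : y ^ (k - 1) = y ^ i * y ^ (k - 1 - i) := by
      rw [← pow_add]; congr 1; omega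
    rw [e1]
    exact mul_le_mul_of_nonneg_right (pow_le_pow_left₀ hy (by linarith) _) (by positivity)
  have := Finset.card_nsmul_le_sum _ _ _ h
  simpa [nsmul_eq_mul] using this

theorem kus_pow_sub_le (k : ℕ) {x y M : ℝ} (hx : 0 ≤ x) (hy : 0 ≤ y) (hxM : x ≤ M) (hyM : y ≤ M)
    (hxy : |x - y| ≤ 1) : |x ^ k - y ^ k| ≤ k * M ^ (k - 1) := by
  have hM : 0 ≤ M := hx.trans hxM
  have h := (Commute.all x y).geom_sum₂_mul k
  rw [← h, abs_mul]
  have h1 : |∑ i ∈ Finset.range k, x ^ i * y ^ (k - 1 - i)| ≤ k * M ^ (k - 1) := by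
    refine (Finset.abs_sum_le_sum_abs _ _).trans ?_
    have h2 : ∀ i ∈ Finset.range k, |x ^ i * y ^ (k - 1 - i)| ≤ M ^ (k - 1) := by
      intro i hi
      have hi' := Finset.mem_range.mp hi
      rw [abs_of_nonneg (by positivity)]
      have e1 : M ^ (k - 1) = M ^ i * M ^ (k - 1 - i) := by
        rw [← pow_add]; congr 1; omega
      rw [e1]
      exact mul_le_mul (pow_le_pow_left₀ hx hxM _) (pow_le_pow_left₀ hy hyM _)
        (by positivity) (by positivity)
    have := Finset.sum_le_card_nsmul _ _ _ h2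
    simpa [nsmul_eq_mul] using this
  calc |∑ i ∈ Finset.range k, x ^ i * y ^ (k - 1 - i)| * |x - y| ≤ k * M ^ (k - 1) * 1 :=
        mul_le_mul h1 hxy (abs_nonneg _) (by positivity)
    _ = _ := mul_one _

theorem kus_f_conj (k P : ℕ) (t a : ℝ) : f k P (-t) a = (starRingEnd ℂ) (f k P t a) := by
  unfold f
  rw [map_sum]
  refine Finset.sum_congr rfl (fun x _ => ?_)
  rw [← e_neg]
  congr 1
  ring

theorem kus_f_major_pos (k P : ℕ) (hk : 4 ≤ k) (hP : 1 ≤ P) (t a : ℝ) (h0 : 0 < t)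
    (ht : t ≤ t1 k P) (ha : a ∈ Icc (0 : ℝ) 1) :
    ‖f k P t a‖ ≤ 2 / (t * (P : ℝ) ^ (k - 1)) := by
  obtain ⟨ha0, ha1⟩ := ha
  have hP' : (1 : ℝ) ≤ P := by exact_mod_cast hP
  have hk' : (4 : ℝ) ≤ k := by exact_mod_cast hk
  have hPk : 0 < (P : ℝ) ^ (k - 1) := by positivity
  have h2Pk : 0 < (2 * (P : ℝ)) ^ (k - 1) := by positivity
  have hhalf : t * (k * (2 * (P : ℝ)) ^ (k - 1)) ≤ 1 / 2 := by
    unfold t1 at ht
    rw [le_div_iff₀ (by positivity)] at ht
    linarith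
  obtain ⟨N, rfl⟩ : ∃ N, P = N + 1 := ⟨P - 1, by omega⟩
  have hfe : f k (N + 1) t a
      = ∑ n ∈ Finset.range (N + 1), e (t * ((((N + 1 : ℕ) : ℝ) + n + a)) ^ k) := by
    unfold f
    rw [Finset.sum_Ico_eq_sum_range]
    have : 2 * (N + 1) - (N + 1) = N + 1 := by omega
    rw [this]
    refine Finset.sum_congr rfl (fun n _ => ?_)
    push_cast
    ring_nf
  rw [hfe]
  set Q : ℝ := ((N + 1 : ℕ) : ℝ) with hQ
  have hQN : Q = (N : ℝ) + 1 := by rw [hQ]; push_cast; ring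
  have hcast : ∀ n : ℕ, Q + ((n + 1 : ℕ) : ℝ) + a = (Q + n + a) + 1 := by
    intro n; push_cast; ring
  have hlamhalf : t * (k * Q ^ (k - 1)) ≤ 1 / 2 := by
    refine le_trans ?_ hhalf
    have : Q ^ (k - 1) ≤ (2 * Q) ^ (k - 1) := pow_le_pow_left₀ (by linarith) (by linarith) _
    gcongr
  have hkus := kusmin N (fun n => t * (Q + n + a) ^ k) (t * (k * Q ^ (k - 1))) (by positivity)
    (by
      intro n hn
      simp only [hcast]
      have h1 := kus_pow_mono k (y := Q + n + a) (by positivity)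
      have h2 := mul_le_mul_of_nonneg_left h1 h0.le
      linarith)
    (by
      intro n hn
      simp only [hcast]
      have h1 := kus_pow_ge k (y := Q + n + a) (by positivity)
      have h3 : Q ^ (k - 1) ≤ (Q + n + a) ^ (k - 1) :=
        pow_le_pow_left₀ (by linarith) (by
          have : (0 : ℝ) ≤ n := Nat.cast_nonneg n
          linarith) _
      have h4 : (k : ℝ) * Q ^ (k - 1) ≤ (Q + n + a + 1) ^ k - (Q + n + a) ^ k := by
        refine le_trans ?_ h1
        gcongr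
      have h5 := mul_le_mul_of_nonneg_left h4 h0.le
      linarith)
    (by
      intro n hn
      simp only [hcast]
      have hn' : (n : ℝ) + 1 ≤ N := by exact_mod_cast hn
      have hn0 : (0 : ℝ) ≤ n := Nat.cast_nonneg n
      have h1 := kus_pow_sub_le k (x := Q + n + a + 1) (y := Q + n + a) (M := 2 * Q)
        (by linarith) (by linarith) (by linarith) (by linarith)
        (by rw [add_sub_cancel_left]; simp)
      have h2 := (abs_le.mp h1).2
      have h3 := mul_le_mul_of_nonneg_left h2 h0.le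
      linarith)
    hlamhalf
  refine hkus.trans ?_
  refine div_le_div_of_nonneg_left (by norm_num) (by positivity) ?_
  have : Q ^ (k - 1) ≤ k * Q ^ (k - 1) := by nlinarith
  gcongr

theorem f_major (k P : ℕ) (hk : 4 ≤ k) (hP : 1 ≤ P) (t a : ℝ) (h0 : t ≠ 0) (ht : |t| ≤ t1 k P)
    (ha : a ∈ Icc (0 : ℝ) 1) : ‖f k P t a‖ ≤ 2 / (|t| * (P : ℝ) ^ (k - 1)) := by
  rcases lt_or_gt_of_ne h0 with h | h
  · rw [abs_of_neg h] at ht ⊢
    have h1 := kus_f_major_pos k P hk hP (-t) a (by linarith) ht ha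
    have h2 : f k P t a = (starRingEnd ℂ) (f k P (-t) a) := by
      rw [← kus_f_conj, neg_neg]
    rw [h2, Complex.norm_conj]
    exact h1
  · rw [abs_of_pos h] at ht ⊢
    exact kus_f_major_pos k P hk hP t a h ht ha

theorem v_bound (k P : ℕ) (hk : 4 ≤ k) (hP : 1 ≤ P) (t : ℝ) (h0 : t ≠ 0) :
    ‖v k P t‖ ≤ 1 / (|t| * (P : ℝ) ^ (k - 1)) := by
  unfold v
  refine phase_zero k P hk hP t P (2 * P) ?_ le_rfl h0
  have : (0 : ℝ) ≤ P := Nat.cast_nonneg P
  linarith

theorem norm_v_le (k P : ℕ) (t : ℝ) : ‖v k P t‖ ≤ P := by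
  unfold v
  have h := intervalIntegral.norm_integral_le_of_norm_le_const (a := (P : ℝ)) (b := 2 * P)
    (C := 1) (f := fun y => e (t * y ^ k)) (fun y _ => (norm_e _).le)
  refine h.trans ?_
  have : (0 : ℝ) ≤ P := Nat.cast_nonneg P
  rw [abs_of_nonneg (by linarith)]
  linarith

theorem kus_e_lip (p q : ℝ) : ‖e p - e q‖ ≤ 2 * Real.pi * |p - q| := by
  have h := Convex.norm_image_sub_le_of_norm_hasDerivWithin_le (f := e)
    (f' := fun x => 2 * Real.pi * Complex.I * e x) (s := Set.univ) (x := q) (y := p)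
    (C := 2 * Real.pi) (fun x _ => (hasDerivAt_e x).hasDerivWithinAt) (fun x _ => by
      rw [norm_mul, norm_e, mul_one, norm_mul, norm_mul, Complex.norm_I, mul_one,
        Complex.norm_real, Real.norm_eq_abs, abs_of_pos Real.pi_pos]
      simp) convex_univ (mem_univ _) (mem_univ _)
  simpa [Real.norm_eq_abs] using h

theorem f_sub_v (k P : ℕ) (hk : 1 ≤ k) (t a : ℝ) (ha : a ∈ Icc (0 : ℝ) 1) :
    ‖f k P t a - v k P t‖ ≤ 2 * Real.pi * k * 2 ^ (k - 1) * |t| * (P : ℝ) ^ k := by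
  obtain ⟨ha0, ha1⟩ := ha
  have hcont : Continuous (fun y : ℝ => e (t * y ^ k)) := continuous_e.comp (by fun_prop)
  have hv : v k P t = ∑ x ∈ Finset.Ico P (2 * P), ∫ y in (x : ℝ)..((x + 1 : ℕ) : ℝ), e (t * y ^ k) := by
    unfold v
    rw [intervalIntegral.sum_integral_adjacent_intervals_Ico (a := fun n : ℕ => (n : ℝ)) (by omega)
      (fun j _ => hcont.intervalIntegrable _ _)]
    push_cast
    rfl
  have hf : f k P t a = ∑ x ∈ Finset.Ico P (2 * P),
      ∫ y in (x : ℝ)..((x + 1 : ℕ) : ℝ), e (t * ((x : ℝ) + a) ^ k) := by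
    unfold f
    refine Finset.sum_congr rfl (fun x _ => ?_)
    rw [intervalIntegral.integral_const]
    push_cast
    simp
  rw [hf, hv, ← Finset.sum_sub_distrib]
  have hterm : ∀ x ∈ Finset.Ico P (2 * P),
      ‖(∫ y in (x : ℝ)..((x + 1 : ℕ) : ℝ), e (t * ((x : ℝ) + a) ^ k))
        - ∫ y in (x : ℝ)..((x + 1 : ℕ) : ℝ), e (t * y ^ k)‖
        ≤ 2 * Real.pi * |t| * (k * (2 * (P : ℝ)) ^ (k - 1)) := by
    intro x hx
    rw [Finset.mem_Ico] at hx
    have hx1 : (x : ℝ) + 1 ≤ 2 * P := by exact_mod_cast hx.2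
    have hx0 : (0 : ℝ) ≤ x := Nat.cast_nonneg x
    rw [← intervalIntegral.integral_sub (by simp) (hcont.intervalIntegrable _ _)]
    have hb := intervalIntegral.norm_integral_le_of_norm_le_const (a := (x : ℝ))
      (b := ((x + 1 : ℕ) : ℝ)) (C := 2 * Real.pi * |t| * (k * (2 * (P : ℝ)) ^ (k - 1)))
      (f := fun y => e (t * ((x : ℝ) + a) ^ k) - e (t * y ^ k)) (by
        intro y hy
        have hxx : (x : ℝ) ≤ ((x + 1 : ℕ) : ℝ) := by push_cast; linarith
        rw [Set.uIoc_of_le hxx] at hy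
        push_cast at hy
        obtain ⟨hy1, hy2⟩ := hy
        refine (kus_e_lip _ _).trans ?_
        have e1 : t * ((x : ℝ) + a) ^ k - t * y ^ k = t * (((x : ℝ) + a) ^ k - y ^ k) := by ring
        rw [e1, abs_mul]
        have h2 := kus_pow_sub_le k (x := (x : ℝ) + a) (y := y) (M := 2 * P) (by linarith)
          (by linarith) (by linarith) (by linarith) (by rw [abs_le]; constructor <;> linarith)
        have hpi := Real.pi_pos
        calc 2 * Real.pi * (|t| * |((x : ℝ) + a) ^ k - y ^ k|)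
            ≤ 2 * Real.pi * (|t| * (k * (2 * (P : ℝ)) ^ (k - 1))) := by gcongr
          _ = _ := by ring)
    refine hb.trans ?_
    push_cast
    simp
  refine (norm_sum_le _ _).trans ((Finset.sum_le_card_nsmul _ _ _ hterm).trans ?_)
  have h2 : 2 * P - P = P := by omega
  rw [Nat.card_Ico, h2, nsmul_eq_mul]
  have e2 : (P : ℝ) ^ k = P * (P : ℝ) ^ (k - 1) := by
    rw [← pow_succ']; congr 1; omega
  rw [e2, mul_pow]
  exact le_of_eq (by ring)

end Pool.H19.Wa
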