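import Pool.Agent.H19.Wa.Kus

/-!
# Module MAJOR: the major arc and the tail of the main term

With u = |t| P^k: for |t| <= t1 (t /= 0) both |f| and |v| are at most min(P, 2/(|t|P^(k-1))) <= 4P/(1+u) (f_major,
norm_f_le, v_bound, norm_v_le; true also for t = 0), |f - v| <= C_k u (f_sub_v), so by
|∏ f_i - v^s| <= s * (4P/(1+u))^(s-1) * C_k u  (telescoping; induction on s or `Finset.prod` telescoping)
and w <= 1 (w_le_one), D1 <= s C_k (4P)^(s-1) ∫_ℝ u (1+u)^(1-s) dt, t = ± u/P^k, and for s >= 4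
∫_0^∞ u(1+u)^(1-s) du <= ∫_0^∞ (1+u)^(2-s) du = 1/(s-3) <= 1. This gives C P^(s-1-k).
D2: w <= 1, ∫_{|t|>t1} (|t|P^(k-1))^(-s) dt = 2 P^(-(k-1)s) t1^(1-s)/(s-1) <= C.
(The integrands are continuous and bounded by integrable functions; the set is measurable.)
-/

set_option autoImplicit false

namespace Pool.H19.Wa

open MeasureTheory Set

theorem prod_sub_pow_le {ι : Type*} (T : Finset ι) (a : ι → ℂ) (b : ℂ) (B D : ℝ)
    (ha : ∀ i, ‖a i‖ ≤ B) (hb : ‖b‖ ≤ B) (hab : ∀ i, ‖a i - b‖ ≤ D) :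
    ‖∏ i ∈ T, a i - b ^ T.card‖ ≤ T.card * B ^ (T.card - 1) * D := by
  classical
  have hB : 0 ≤ B := (norm_nonneg b).trans hb
  induction T using Finset.induction_on with
  | empty => simp
  | insert i T hi ih =>
    have hD : 0 ≤ D := (norm_nonneg _).trans (hab i)
    rw [Finset.prod_insert hi, Finset.card_insert_of_notMem hi]
    have h1 : a i * ∏ j ∈ T, a j - b ^ (T.card + 1) =
        a i * (∏ j ∈ T, a j - b ^ T.card) + (a i - b) * b ^ T.card := by ring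
    rw [h1]
    refine (norm_add_le _ _).trans ?_
    rw [norm_mul, norm_mul, norm_pow]
    have h2 : ‖a i‖ * ‖∏ j ∈ T, a j - b ^ T.card‖ ≤ B * (T.card * B ^ (T.card - 1) * D) :=
      mul_le_mul (ha i) ih (norm_nonneg _) hB
    have h3 : ‖a i - b‖ * ‖b‖ ^ T.card ≤ D * B ^ T.card :=
      mul_le_mul (hab i) (pow_le_pow_left₀ (norm_nonneg _) hb _) (by positivity) hD
    have h4 : B * (T.card * B ^ (T.card - 1) * D) = T.card * B ^ T.card * D := by
      rcases Nat.eq_zero_or_pos T.card with h0 | h0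
      · rw [h0]; simp
      · obtain ⟨m, hm⟩ : ∃ m, T.card = m + 1 := ⟨T.card - 1, by omega⟩
        rw [hm]
        simp only [Nat.add_sub_cancel]
        ring
    calc _ ≤ B * (T.card * B ^ (T.card - 1) * D) + D * B ^ T.card := add_le_add h2 h3
      _ = ((T.card + 1 : ℕ) : ℝ) * B ^ (T.card + 1 - 1) * D := by
        rw [h4, Nat.add_sub_cancel]
        push_cast
        ring

theorem min_bound {P u z : ℝ} (hP : 0 ≤ P) (hu : 0 ≤ u) (h1 : z ≤ P)
    (h2 : u ≠ 0 → z ≤ 2 * P / u) : z ≤ 4 * P / (1 + u) := by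
  rcases le_total u 1 with h | h
  · refine h1.trans ?_
    rw [le_div_iff₀ (by linarith)]
    nlinarith
  · refine (h2 (by linarith)).trans ?_
    rw [div_le_div_iff₀ (by linarith) (by linarith)]
    nlinarith

theorem prod_sub (k P s : ℕ) (hk : 4 ≤ k) (hP : 1 ≤ P) (t : ℝ) (ht : |t| ≤ t1 k P)
    (al : Fin s → ℝ) (hal : ∀ i, al i ∈ Icc (0 : ℝ) 1) :
    ‖∏ i, f k P t (al i) - (v k P t) ^ s‖ ≤
      s * (4 * P / (1 + |t| * (P : ℝ) ^ k)) ^ (s - 1) *
        (2 * Real.pi * k * 2 ^ (k - 1) * |t| * (P : ℝ) ^ k) := by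
  have hP0 : (0 : ℝ) < P := by exact_mod_cast hP
  have hu : 0 ≤ |t| * (P : ℝ) ^ k := by positivity
  have hkk : (P : ℝ) ^ k = (P : ℝ) ^ (k - 1) * P := by
    rw [← pow_succ]
    congr 1
    omega
  have hred : ∀ c : ℝ, t ≠ 0 → c / (|t| * (P : ℝ) ^ (k - 1)) = c * P / (|t| * (P : ℝ) ^ k) := by
    intro c h0
    have : 0 < |t| := abs_pos.2 h0
    rw [hkk]
    field_simp
  have hne : |t| * (P : ℝ) ^ k ≠ 0 → t ≠ 0 := by
    rintro h rfl
    apply h
    simp
  have hf : ∀ i, ‖f k P t (al i)‖ ≤ 4 * P / (1 + |t| * (P : ℝ) ^ k) := by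
    intro i
    refine min_bound hP0.le hu (norm_f_le _ _ _ _) fun h => ?_
    have h0 := hne h
    rw [← hred 2 h0]
    exact f_major k P hk hP t (al i) h0 ht (hal i)
  have hv : ‖v k P t‖ ≤ 4 * P / (1 + |t| * (P : ℝ) ^ k) := by
    refine min_bound hP0.le hu (norm_v_le _ _ _) fun h => ?_
    have h0 := hne h
    rw [← hred 2 h0]
    refine (v_bound k P hk hP t h0).trans ?_
    have : 0 < |t| := abs_pos.2 h0
    gcongr
    norm_num
  have := prod_sub_pow_le Finset.univ (fun i => f k P t (al i)) (v k P t) _ _ hf hv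
    (fun i => f_sub_v k P (by omega) t (al i) (hal i))
  simpa using this

theorem integrable_scaled {c : ℝ} (hc : 0 < c) : Integrable fun t : ℝ => (1 + (c * t) ^ 2)⁻¹ :=
  (integrable_inv_one_add_sq).comp_mul_left' hc.ne'

theorem integral_scaled {c : ℝ} (hc : 0 < c) : ∫ t : ℝ, (1 + (c * t) ^ 2)⁻¹ = Real.pi / c := by
  have h := Measure.integral_comp_mul_left (fun x : ℝ => (1 + x ^ 2)⁻¹) c
  rw [h, integral_univ_inv_one_add_sq, abs_of_pos (inv_pos.2 hc), smul_eq_mul]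
  ring

theorem set_bound {S : Set ℝ} (hS : MeasurableSet S) {g : ℝ → ℝ} {K c : ℝ} (hK : 0 ≤ K)
    (hc : 0 < c) (hg0 : ∀ t, 0 ≤ g t) (hg : ∀ t ∈ S, g t ≤ K * (1 + (c * t) ^ 2)⁻¹) :
    ∫ t in S, g t ≤ K * (Real.pi / c) := by
  have hint : Integrable fun t : ℝ => K * (1 + (c * t) ^ 2)⁻¹ := (integrable_scaled hc).const_mul K
  calc ∫ t in S, g t ≤ ∫ t in S, K * (1 + (c * t) ^ 2)⁻¹ := by
        refine integral_mono_of_nonneg (Filter.Eventually.of_forall hg0) hint.integrableOn ?_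
        exact (ae_restrict_iff' hS).2 (Filter.Eventually.of_forall hg)
    _ ≤ ∫ t, K * (1 + (c * t) ^ 2)⁻¹ := by
        refine setIntegral_le_integral hint (Filter.Eventually.of_forall fun t => ?_)
        simp only [Pi.zero_apply]
        positivity
    _ = K * (Real.pi / c) := by rw [integral_const_mul, integral_scaled hc]

theorem D1 (k s : ℕ) (hk : 4 ≤ k) (hs : 4 ≤ s) :
    ∃ C : ℝ, 0 < C ∧ ∀ P : ℕ, 1 ≤ P → ∀ b : ℝ, 1 ≤ b → ∀ al : Fin s → ℝ,
      (∀ i, al i ∈ Icc (0 : ℝ) 1) →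
      ∫ t in {t : ℝ | |t| ≤ t1 k P}, w b t * ‖∏ i, f k P t (al i) - (v k P t) ^ s‖ ≤
        C * (P : ℝ) ^ ((s : ℝ) - 1 - k) := by
  refine ⟨s * 4 ^ (s - 1) * (2 * Real.pi * k * 2 ^ (k - 1)) * Real.pi, ?_, ?_⟩
  · have hs0 : (0 : ℝ) < s := by exact_mod_cast (by omega : 0 < s)
    have hk0 : (0 : ℝ) < k := by exact_mod_cast (by omega : 0 < k)
    positivity
  intro P hP b hb al hal
  have hP0 : (0 : ℝ) < P := by exact_mod_cast hP
  have hPk : (0 : ℝ) < (P : ℝ) ^ k := by positivity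
  have key := set_bound (S := {t : ℝ | |t| ≤ t1 k P})
    (g := fun t => w b t * ‖∏ i, f k P t (al i) - (v k P t) ^ s‖)
    (K := s * (4 * P) ^ (s - 1) * (2 * Real.pi * k * 2 ^ (k - 1))) (c := (P : ℝ) ^ k)
    (measurableSet_le measurable_norm measurable_const) (by positivity) hPk
    (fun t => mul_nonneg (w_nonneg _ _) (norm_nonneg _)) ?_
  · refine key.trans_eq ?_
    have h1 : ((s : ℝ) - 1 - k) = ((s - 1 : ℕ) : ℝ) - (k : ℕ) := by
      rw [Nat.cast_sub (by omega)]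
      simp
    rw [h1, Real.rpow_sub hP0, Real.rpow_natCast, Real.rpow_natCast, mul_pow]
    field_simp
  · intro t ht
    have h1 := prod_sub k P s hk hP t ht al hal
    have h2 : w b t * ‖∏ i, f k P t (al i) - (v k P t) ^ s‖ ≤
        s * (4 * P / (1 + |t| * (P : ℝ) ^ k)) ^ (s - 1) *
        (2 * Real.pi * k * 2 ^ (k - 1) * |t| * (P : ℝ) ^ k) := by
      calc _ ≤ 1 * ‖∏ i, f k P t (al i) - (v k P t) ^ s‖ :=
            mul_le_mul_of_nonneg_right (w_le_one hb t) (norm_nonneg _)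
        _ ≤ _ := by rw [one_mul]; exact h1
    refine h2.trans ?_
    set u : ℝ := |t| * (P : ℝ) ^ k with hu
    have hu0 : 0 ≤ u := by positivity
    have hu1 : ((P : ℝ) ^ k * t) ^ 2 = u ^ 2 := by
      rw [hu, mul_pow, mul_pow, sq_abs]
      ring
    rw [hu1]
    have h3 : (4 * P / (1 + u)) ^ (s - 1) = (4 * P : ℝ) ^ (s - 1) * ((1 + u) ^ (s - 1))⁻¹ := by
      rw [div_pow, div_eq_mul_inv]
    have h4 : ((1 + u) ^ (s - 1))⁻¹ * u ≤ (1 + u ^ 2)⁻¹ := by
      have h5 : (1 + u) ^ 3 ≤ (1 + u) ^ (s - 1) :=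
        pow_le_pow_right₀ (by linarith) (by omega)
      have h6 : ((1 + u) ^ (s - 1))⁻¹ ≤ ((1 + u) ^ 3)⁻¹ :=
        inv_anti₀ (by positivity) h5
      calc ((1 + u) ^ (s - 1))⁻¹ * u ≤ ((1 + u) ^ 3)⁻¹ * u :=
            mul_le_mul_of_nonneg_right h6 hu0
        _ ≤ (1 + u ^ 2)⁻¹ := by
            rw [inv_mul_le_iff₀ (by positivity), ← div_eq_mul_inv, le_div_iff₀ (by positivity)]
            nlinarith [pow_nonneg hu0 3, pow_nonneg hu0 2]
    have h7 : s * (4 * P / (1 + u)) ^ (s - 1) * (2 * Real.pi * k * 2 ^ (k - 1) * |t| * (P : ℝ) ^ k)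
        = s * (4 * P) ^ (s - 1) * (2 * Real.pi * k * 2 ^ (k - 1)) *
          (((1 + u) ^ (s - 1))⁻¹ * u) := by
      rw [h3, hu]
      ring
    rw [h7]
    exact mul_le_mul_of_nonneg_left h4 (by positivity)

theorem D2 (k s : ℕ) (hk : 4 ≤ k) (hs : 2 ≤ s) :
    ∃ C : ℝ, 0 < C ∧ ∀ P : ℕ, 1 ≤ P → ∀ b : ℝ, 1 ≤ b →
      ∫ t in {t : ℝ | t1 k P < |t|}, w b t * ‖v k P t‖ ^ s ≤ C := by
  have hk0 : (0 : ℝ) < k := by exact_mod_cast (by omega : 0 < k)
  set L : ℝ := 2 * k * 2 ^ (k - 1) with hL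
  have hL0 : 0 < L := by positivity
  refine ⟨L ^ (s - 2) * (1 + L ^ 2) * Real.pi, by positivity, ?_⟩
  intro P hP b hb
  have hP0 : (0 : ℝ) < P := by exact_mod_cast hP
  have hP1 : (1 : ℝ) ≤ P := by exact_mod_cast hP
  have hPk : (0 : ℝ) < (P : ℝ) ^ (k - 1) := by positivity
  have key := set_bound (S := {t : ℝ | t1 k P < |t|})
    (g := fun t => w b t * ‖v k P t‖ ^ s)
    (K := L ^ (s - 2) * (1 + L ^ 2)) (c := (P : ℝ) ^ (k - 1))
    (measurableSet_lt measurable_const measurable_norm) (by positivity) hPk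
    (fun t => mul_nonneg (w_nonneg _ _) (by positivity)) ?_
  · refine key.trans ?_
    refine mul_le_mul_of_nonneg_left ?_ (by positivity)
    exact div_le_self Real.pi_pos.le (one_le_pow₀ hP1)
  · intro t ht
    have ht' : t1 k P < |t| := ht
    have ht1 : 0 < t1 k P := by unfold t1; positivity
    have habs : 0 < |t| := ht1.trans ht'
    have h0 : t ≠ 0 := abs_pos.1 habs
    set x : ℝ := |t| * (P : ℝ) ^ (k - 1) with hx
    have hx0 : 0 < x := by positivity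
    have hxL : 1 / x < L := by
      rw [div_lt_iff₀ hx0]
      have h1 : t1 k P * (L * (P : ℝ) ^ (k - 1)) = 1 := by
        unfold t1
        rw [hL, mul_pow]
        field_simp
      calc 1 = t1 k P * (L * (P : ℝ) ^ (k - 1)) := h1.symm
        _ < |t| * (L * (P : ℝ) ^ (k - 1)) := mul_lt_mul_of_pos_right ht' (by positivity)
        _ = L * x := by rw [hx]; ring
    have hv : ‖v k P t‖ ≤ 1 / x := v_bound k P hk hP t h0
    have hxx : ((P : ℝ) ^ (k - 1) * t) ^ 2 = x ^ 2 := by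
      rw [hx, mul_pow, mul_pow, sq_abs]
      ring
    rw [hxx]
    obtain ⟨m, rfl⟩ : ∃ m, s = m + 2 := ⟨s - 2, by omega⟩
    have h5 : (1 / x) ^ 2 ≤ (1 + L ^ 2) * (1 + x ^ 2)⁻¹ := by
      have h6 : (1 / x) ^ 2 ≤ L ^ 2 := pow_le_pow_left₀ (by positivity) hxL.le 2
      rw [← div_eq_mul_inv, le_div_iff₀ (by positivity)]
      have h7 : (1 / x) ^ 2 * (1 + x ^ 2) = (1 / x) ^ 2 + 1 := by
        field_simp
      rw [h7]
      linarith
    calc w b t * ‖v k P t‖ ^ (m + 2) ≤ 1 * (1 / x) ^ (m + 2) :=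
          mul_le_mul (w_le_one hb t) (pow_le_pow_left₀ (norm_nonneg _) hv _) (by positivity)
            zero_le_one
      _ = (1 / x) ^ m * (1 / x) ^ 2 := by rw [one_mul, pow_add]
      _ ≤ L ^ m * ((1 + L ^ 2) * (1 + x ^ 2)⁻¹) :=
          mul_le_mul (pow_le_pow_left₀ (by positivity) hxL.le _) h5 (by positivity)
            (by positivity)
      _ = L ^ (m + 2 - 2) * (1 + L ^ 2) * (1 + x ^ 2)⁻¹ := by
          rw [Nat.add_sub_cancel]
          ring

end Pool.H19.Wa
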