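import Pool.Agent.H19.Wa.Rep

/-!
# Module MEANLOW: lower bound for the mean number of representations

s = r+1. For P large fix δ0 > 0 (depending on k, s) such that for x_i in [3P/2, (3/2+δ0)P], α_i in [0,1] (i /= 0) the
number m = Σ_{i /= 0} (x_i+α_i)^k satisfies (1.2P)^k <= τ - m <= (1.9P)^k (possible: s(3/2)^k - (s-1)(3/2+δ0)^k > (1.2)^k
for small δ0, and τ - m <= s(3(P+1)/2)^k - (s-1)(3P/2)^k <= (1.9P)^k for P large). For such (x_i), (α_i), i /= 0:
Σ_{x_0} ∫_0^1 G((x_0+a)^k + m - τ) da = ∫_P^{2P} G(y^k + m - τ) dy >= δ e^(-π) with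
δ = min(P/10, 1/(sqrt b k (2P)^(k-1))) >= c P^(1-k)/sqrt b, since for y in [y0, y0+δ], y0^k = τ - m, one has
|y^k - y0^k| <= k (2P)^(k-1) δ <= 1/sqrt b. There are >= (δ0 P/2)^(s-1) choices of (x_i)_{i/=0}.
All other terms are >= 0. (Fubini for the coordinate 0: `MeasureTheory.measurePreserving_piFinSuccAbove` or
`integral` over `Fin.insertNth`; or apply `lintegral`. One may also first prove
`∫ R dPP >= Σ_{x in sub-box} ...` with `Finset.sum_le_sum_of_subset_of_nonneg`.)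
-/

set_option autoImplicit false

namespace Pool.H19.Wa

open MeasureTheory Set

theorem ml_continuous_G (b : ℝ) : Continuous (G b) := by
  unfold G
  fun_prop

theorem ml_G_le_one {b : ℝ} (hb : 0 ≤ b) (u : ℝ) : G b u ≤ 1 := by
  unfold G
  apply Real.exp_le_one_iff.2
  have : 0 ≤ Real.pi * b * u ^ 2 := by positivity
  linarith

theorem ml_continuous_R (k P s : ℕ) (b tau : ℝ) : Continuous (R k P s b tau) := by
  unfold R G
  refine continuous_finsetSum _ fun x _ => ?_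
  fun_prop

theorem ml_R_nonneg (k P s : ℕ) (b tau : ℝ) (al : Fin s → ℝ) : 0 ≤ R k P s b tau al :=
  Finset.sum_nonneg fun _ _ => G_nonneg _ _

theorem ml_integrable_R (k P s : ℕ) {b : ℝ} (hb : 0 ≤ b) (tau : ℝ) :
    Integrable (R k P s b tau) (PP s) := by
  refine Integrable.of_bound (ml_continuous_R k P s b tau).aestronglyMeasurable
    ((Fintype.piFinset (fun _ : Fin s => Finset.Ico P (2 * P))).card : ℝ)
    (Filter.Eventually.of_forall fun al => ?_)
  rw [Real.norm_of_nonneg (ml_R_nonneg _ _ _ _ _ _)]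
  unfold R
  refine (Finset.sum_le_sum fun x _ => ml_G_le_one hb _).trans ?_
  simp

theorem ml_ae_cube (r : ℕ) : ∀ᵐ al ∂PP r, ∀ i, al i ∈ Icc (0 : ℝ) 1 := by
  unfold PP
  rw [← Measure.restrict_pi_pi]
  filter_upwards [ae_restrict_mem (MeasurableSet.univ_pi fun _ => measurableSet_Icc)] with al hal i
  exact hal i (mem_univ i)

/-- the one dimensional integral -/
theorem ml_inner (j P : ℕ) (hP : 10 ≤ P) (b : ℝ) (hb : 1 ≤ b) (M : ℝ)
    (hM1 : (6 / 5 * (P : ℝ)) ^ (j + 1) ≤ M) (hM2 : M ≤ (19 / 10 * (P : ℝ)) ^ (j + 1)) :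
    Real.exp (-Real.pi) * (1 / (Real.sqrt b * (j + 1) * (2 * (P : ℝ)) ^ j)) ≤
      ∫ y in (P : ℝ)..(2 * P : ℝ), G b (y ^ (j + 1) - M) := by
  have hP' : (10 : ℝ) ≤ P := by exact_mod_cast hP
  have hM0 : 0 ≤ M := le_trans (by positivity) hM1
  obtain ⟨y0, hy0, hy0M⟩ : ∃ y0 : ℝ, 0 ≤ y0 ∧ y0 ^ (j + 1) = M := by
    refine ⟨M ^ ((1 : ℝ) / ((j + 1 : ℕ) : ℝ)), by positivity, ?_⟩
    rw [← Real.rpow_natCast, ← Real.rpow_mul hM0, one_div, inv_mul_cancel₀ (by positivity),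
      Real.rpow_one]
  have hy1 : 6 / 5 * (P : ℝ) ≤ y0 := by
    rw [← hy0M] at hM1
    exact (pow_le_pow_iff_left₀ (by positivity) hy0 (Nat.succ_ne_zero j)).1 hM1
  have hy2 : y0 ≤ 19 / 10 * (P : ℝ) := by
    rw [← hy0M] at hM2
    exact (pow_le_pow_iff_left₀ hy0 (by positivity) (Nat.succ_ne_zero j)).1 hM2
  have hsb : 1 ≤ Real.sqrt b := Real.one_le_sqrt.2 hb
  set δ : ℝ := 1 / (Real.sqrt b * (j + 1) * (2 * (P : ℝ)) ^ j) with hδ
  have hden : 1 ≤ Real.sqrt b * (j + 1) * (2 * (P : ℝ)) ^ j := by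
    have h1 : (1 : ℝ) ≤ (j : ℝ) + 1 := by
      have : (0 : ℝ) ≤ j := Nat.cast_nonneg j
      linarith
    have h2 : (1 : ℝ) ≤ (2 * (P : ℝ)) ^ j := one_le_pow₀ (by linarith)
    exact one_le_mul_of_one_le_of_one_le (one_le_mul_of_one_le_of_one_le hsb h1) h2
  have hδ0 : 0 < δ := by rw [hδ]; positivity
  have hδ1 : δ ≤ 1 := by
    rw [hδ, div_le_one (by positivity)]
    exact hden
  have hcont : Continuous fun y : ℝ => G b (y ^ (j + 1) - M) :=
    (ml_continuous_G b).comp (by fun_prop)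
  have hsub : ∫ y in y0..(y0 + δ), G b (y ^ (j + 1) - M) ≤
      ∫ y in (P : ℝ)..(2 * P : ℝ), G b (y ^ (j + 1) - M) := by
    refine intervalIntegral.integral_mono_interval (by linarith) (by linarith) (by linarith)
      (Filter.Eventually.of_forall fun y => G_nonneg _ _) (hcont.intervalIntegrable _ _)
  refine le_trans ?_ hsub
  have hconst : Real.exp (-Real.pi) * δ = ∫ _y in y0..(y0 + δ), Real.exp (-Real.pi) := by
    rw [intervalIntegral.integral_const]
    simp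
    ring
  rw [hconst]
  refine intervalIntegral.integral_mono_on (by linarith) (by simp)
    (hcont.intervalIntegrable _ _) fun y hy => ?_
  unfold G
  apply Real.exp_le_exp.2
  apply neg_le_neg
  have hdiff : |y ^ (j + 1) - M| ≤ δ * (j + 1) * (2 * (P : ℝ)) ^ j := by
    rw [← hy0M]
    have h1 := abs_pow_sub_pow_le y y0 (j + 1)
    rw [Nat.add_sub_cancel] at h1
    refine h1.trans ?_
    push_cast
    have h2 : |y - y0| ≤ δ := by
      rw [abs_of_nonneg (by linarith [hy.1])]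
      linarith [hy.2]
    have h3 : max |y| |y0| ≤ 2 * P := by
      rw [abs_of_nonneg hy0, abs_of_nonneg (by linarith [hy.1])]
      refine max_le ?_ ?_
      · linarith [hy.2]
      · linarith
    have h4 : 0 ≤ max |y| |y0| := le_max_of_le_left (abs_nonneg _)
    gcongr
  have heq : δ * (j + 1) * (2 * (P : ℝ)) ^ j = (Real.sqrt b)⁻¹ := by
    rw [hδ]
    field_simp
  rw [heq] at hdiff
  have hsq : (y ^ (j + 1) - M) ^ 2 ≤ b⁻¹ := by
    rw [← sq_abs]
    calc |y ^ (j + 1) - M| ^ 2 ≤ ((Real.sqrt b)⁻¹) ^ 2 := pow_le_pow_left₀ (abs_nonneg _) hdiff 2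
      _ = b⁻¹ := by rw [inv_pow, Real.sq_sqrt (by linarith)]
  calc Real.pi * b * (y ^ (j + 1) - M) ^ 2 ≤ Real.pi * b * b⁻¹ := by
        have : 0 ≤ Real.pi * b := by positivity
        gcongr
    _ = Real.pi := by
        field_simp

/-- unfolding the integer variable -/
theorem ml_unfold (j P : ℕ) (b M : ℝ) :
    ∫ a in (0 : ℝ)..1, ∑ x ∈ Finset.Ico P (2 * P), G b (((x : ℝ) + a) ^ (j + 1) - M) =
      ∫ y in (P : ℝ)..(2 * P : ℝ), G b (y ^ (j + 1) - M) := by
  have hcont : Continuous fun y : ℝ => G b (y ^ (j + 1) - M) :=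
    (ml_continuous_G b).comp (by fun_prop)
  rw [intervalIntegral.integral_finsetSum]
  · have h1 : ∀ x ∈ Finset.Ico P (2 * P), ∫ a in (0 : ℝ)..1, G b (((x : ℝ) + a) ^ (j + 1) - M) =
        ∫ y in (x : ℝ)..((x + 1 : ℕ) : ℝ), G b (y ^ (j + 1) - M) := by
      intro x _
      have := intervalIntegral.integral_comp_add_left (a := (0 : ℝ)) (b := 1)
        (fun y : ℝ => G b (y ^ (j + 1) - M)) (x : ℝ)
      rw [this]
      simp
    rw [Finset.sum_congr rfl h1,
      intervalIntegral.sum_integral_adjacent_intervals_Ico (a := fun n : ℕ => (n : ℝ))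
        (by omega) (fun _ _ => hcont.intervalIntegrable _ _)]
    simp
  · intro x _
    exact (hcont.comp (continuous_const.add continuous_id)).intervalIntegrable _ _

/-- part of the sum defining `R` -/
theorem ml_R_ge (j P r A B : ℕ) (hA : P ≤ A) (hB : B ≤ 2 * P) (b tau a : ℝ) (al : Fin r → ℝ) :
    ∑ y ∈ Fintype.piFinset (fun _ : Fin r => Finset.Ico A B), ∑ x ∈ Finset.Ico P (2 * P),
      G b (((x : ℝ) + a) ^ (j + 1) - (tau - ∑ i, ((y i : ℝ) + al i) ^ (j + 1))) ≤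
      R (j + 1) P (r + 1) b tau (Fin.cons a al) := by
  classical
  rw [← Finset.sum_product']
  set F : (Fin (r + 1) → ℕ) → ℝ := fun x =>
    G b (∑ i, ((x i : ℝ) + (Fin.cons a al : Fin (r + 1) → ℝ) i) ^ (j + 1) - tau) with hF
  have h1 : ∀ p : (Fin r → ℕ) × ℕ,
      G b (((p.2 : ℝ) + a) ^ (j + 1) - (tau - ∑ i, ((p.1 i : ℝ) + al i) ^ (j + 1))) =
        F (Fin.cons p.2 p.1) := by
    intro p
    rw [hF]
    simp only [Fin.sum_univ_succ, Fin.cons_zero, Fin.cons_succ]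
    congr 1
    ring
  rw [Finset.sum_congr rfl fun p _ => h1 p]
  have hinj : Function.Injective (fun p : (Fin r → ℕ) × ℕ =>
      (Fin.cons p.2 p.1 : Fin (r + 1) → ℕ)) := by
    rintro ⟨y, x⟩ ⟨y', x'⟩ h
    have h' := Fin.cons_inj.1 h
    exact Prod.ext h'.2 h'.1
  rw [← Finset.sum_image (f := F) (g := fun p : (Fin r → ℕ) × ℕ =>
      (Fin.cons p.2 p.1 : Fin (r + 1) → ℕ)) hinj.injOn]
  unfold R
  refine Finset.sum_le_sum_of_subset_of_nonneg ?_ fun _ _ _ => G_nonneg _ _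
  intro z hz
  rw [Finset.mem_image] at hz
  obtain ⟨⟨y, x⟩, hp, rfl⟩ := hz
  rw [Finset.mem_product] at hp
  have hy := Fintype.mem_piFinset.1 hp.1
  have hx := Finset.mem_Ico.1 hp.2
  rw [Fintype.mem_piFinset]
  intro i
  refine Fin.cases ?_ (fun i => ?_) i
  · simpa using hx
  · have := Finset.mem_Ico.1 (hy i)
    rw [Fin.cons_succ, Finset.mem_Ico]
    exact ⟨hA.trans this.1, lt_of_lt_of_le this.2 hB⟩

/-- Fubini for the first coordinate -/
theorem ml_fubini (k P r : ℕ) {b : ℝ} (hb : 0 ≤ b) (tau D : ℝ)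
    (h : ∀ al : Fin r → ℝ, (∀ i, al i ∈ Icc (0 : ℝ) 1) →
      D ≤ ∫ a in (0 : ℝ)..1, R k P (r + 1) b tau (Fin.cons a al)) :
    D ≤ ∫ al, R k P (r + 1) b tau al ∂PP (r + 1) := by
  set μ : Measure ℝ := (volume : Measure ℝ).restrict (Set.Icc (0 : ℝ) 1) with hμ
  have hmp : MeasurePreserving (MeasurableEquiv.piFinSuccAbove (fun _ : Fin (r + 1) => ℝ) 0).symm
      (μ.prod (PP r)) (PP (r + 1)) :=
    (measurePreserving_piFinSuccAbove (α := fun _ : Fin (r + 1) => ℝ)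
      (fun _ : Fin (r + 1) => μ) 0).symm
  have hR := ml_integrable_R k P (r + 1) hb tau
  have e1 := hmp.integral_comp' (R k P (r + 1) b tau)
  have hint : Integrable (fun p : ℝ × (Fin r → ℝ) => R k P (r + 1) b tau
      ((MeasurableEquiv.piFinSuccAbove (fun _ : Fin (r + 1) => ℝ) 0).symm p)) (μ.prod (PP r)) :=
    (hmp.integrable_comp hR.aestronglyMeasurable).2 hR
  rw [← e1, integral_prod_symm _ hint]
  have hcons : ∀ (a : ℝ) (al : Fin r → ℝ),
      (MeasurableEquiv.piFinSuccAbove (fun _ : Fin (r + 1) => ℝ) 0).symm (a, al) =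
        (Fin.cons a al : Fin (r + 1) → ℝ) := by
    intro a al
    ext i
    refine Fin.cases ?_ (fun i => ?_) i
    · simp [MeasurableEquiv.piFinSuccAbove]
    · simp [MeasurableEquiv.piFinSuccAbove]
  have hD : D = ∫ _al : Fin r → ℝ, D ∂PP r := by simp
  rw [hD]
  refine integral_mono_ae (integrable_const _) hint.integral_prod_right ?_
  filter_upwards [ml_ae_cube r] with al hal
  refine (h al hal).trans (le_of_eq ?_)
  simp only [hcons]
  rw [intervalIntegral.integral_of_le zero_le_one, hμ, integral_Icc_eq_integral_Ioc]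

theorem mean_lower (k s : ℕ) (hk : 1 ≤ k) (hs : 1 ≤ s) :
    ∃ c : ℝ, 0 < c ∧ ∃ P0 : ℕ, ∀ P : ℕ, P0 ≤ P → ∀ b : ℝ, 1 ≤ b → ∀ tau : ℝ,
      (s : ℝ) * (3 * (P : ℝ) / 2) ^ k ≤ tau → tau ≤ (s : ℝ) * (3 * ((P : ℝ) + 1) / 2) ^ k →
      c * (P : ℝ) ^ ((s : ℝ) - k) * (Real.sqrt b)⁻¹ ≤ ∫ al, R k P s b tau al ∂PP s := by
  obtain ⟨j, rfl⟩ : ∃ j, k = j + 1 := ⟨k - 1, by omega⟩
  obtain ⟨r, rfl⟩ : ∃ r, s = r + 1 := ⟨s - 1, by omega⟩
  -- the constants
  have hc1 : ∃ δ0 : ℝ, 0 < δ0 ∧ δ0 ≤ 1 / 2 ∧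
      (6 / 5 : ℝ) ^ (j + 1) ≤ (r + 1) * (3 / 2 : ℝ) ^ (j + 1) - r * (3 / 2 + δ0) ^ (j + 1) := by
    have hcont : Continuous fun δ : ℝ =>
        ((r : ℝ) + 1) * (3 / 2 : ℝ) ^ (j + 1) - r * (3 / 2 + δ) ^ (j + 1) := by fun_prop
    have hlt : (6 / 5 : ℝ) ^ (j + 1) <
        ((r : ℝ) + 1) * (3 / 2 : ℝ) ^ (j + 1) - r * (3 / 2 + 0) ^ (j + 1) := by
      have : (6 / 5 : ℝ) ^ (j + 1) < (3 / 2) ^ (j + 1) :=
        pow_lt_pow_left₀ (by norm_num) (by norm_num) (Nat.succ_ne_zero j)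
      rw [add_zero]
      linarith
    have hev := (hcont.tendsto 0).eventually (lt_mem_nhds hlt)
    obtain ⟨ε, hε, hball⟩ := Metric.eventually_nhds_iff.1 hev
    refine ⟨min (ε / 2) (1 / 2), by positivity, min_le_right _ _, le_of_lt (hball ?_)⟩
    rw [Real.dist_eq, sub_zero, abs_of_pos (by positivity)]
    exact lt_of_le_of_lt (min_le_left _ _) (by linarith)
  have hc2 : ∃ h0 : ℝ, 0 < h0 ∧ ∀ h : ℝ, 0 ≤ h → h ≤ h0 →
      (3 / 2 : ℝ) ^ (j + 1) * ((r + 1) * (1 + h) ^ (j + 1) - r) ≤ (19 / 10 : ℝ) ^ (j + 1) := by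
    have hcont : Continuous fun h : ℝ =>
        (3 / 2 : ℝ) ^ (j + 1) * (((r : ℝ) + 1) * (1 + h) ^ (j + 1) - r) := by fun_prop
    have hlt : (3 / 2 : ℝ) ^ (j + 1) * (((r : ℝ) + 1) * (1 + 0) ^ (j + 1) - r) <
        (19 / 10 : ℝ) ^ (j + 1) := by
      have : (3 / 2 : ℝ) ^ (j + 1) < (19 / 10) ^ (j + 1) :=
        pow_lt_pow_left₀ (by norm_num) (by norm_num) (Nat.succ_ne_zero j)
      rw [add_zero, one_pow]
      linarith
    have hev := (hcont.tendsto 0).eventually (gt_mem_nhds hlt)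
    obtain ⟨ε, hε, hball⟩ := Metric.eventually_nhds_iff.1 hev
    refine ⟨ε / 2, by positivity, fun h hh0 hh1 => le_of_lt (hball ?_)⟩
    rw [Real.dist_eq, sub_zero, abs_of_nonneg hh0]
    linarith
  obtain ⟨δ0, hδ0, hδ1, hδ⟩ := hc1
  obtain ⟨h0, hh0, hh⟩ := hc2
  obtain ⟨N1, hN1⟩ := exists_nat_ge (4 / δ0)
  obtain ⟨N2, hN2⟩ := exists_nat_ge (1 / h0)
  refine ⟨(δ0 / 2) ^ r * Real.exp (-Real.pi) / ((j + 1) * 2 ^ j), by positivity,
    max 10 (max N1 N2), fun P hP b hb tau ht1 ht2 => ?_⟩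
  have hP10 : 10 ≤ P := (le_max_left _ _).trans hP
  have hPN1 : N1 ≤ P := ((le_max_left _ _).trans (le_max_right _ _)).trans hP
  have hPN2 : N2 ≤ P := ((le_max_right _ _).trans (le_max_right _ _)).trans hP
  have hPR : (10 : ℝ) ≤ P := by exact_mod_cast hP10
  have hP0 : (0 : ℝ) < P := by linarith
  have hPδ : 4 ≤ δ0 * P := by
    have h1 : (4 / δ0 : ℝ) ≤ P := hN1.trans (by exact_mod_cast hPN1)
    rw [div_le_iff₀ hδ0] at h1
    linarith
  have hPh : 1 / (P : ℝ) ≤ h0 := by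
    have h1 : (1 / h0 : ℝ) ≤ P := hN2.trans (by exact_mod_cast hPN2)
    rw [div_le_iff₀ hh0] at h1
    rw [div_le_iff₀ hP0]
    linarith
  have hb0 : 0 ≤ b := by linarith
  set A : ℕ := ⌈(3 / 2 : ℝ) * P⌉₊ with hA
  set B : ℕ := ⌊(3 / 2 + δ0) * (P : ℝ)⌋₊ with hB
  have hA1 : (3 / 2 : ℝ) * P ≤ A := Nat.le_ceil _
  have hA2 : (A : ℝ) < 3 / 2 * P + 1 := Nat.ceil_lt_add_one (by positivity)
  have hB1 : (B : ℝ) ≤ (3 / 2 + δ0) * P := Nat.floor_le (by positivity)
  have hB2 : (3 / 2 + δ0) * (P : ℝ) - 1 < B := by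
    have := Nat.lt_floor_add_one ((3 / 2 + δ0) * (P : ℝ))
    rw [← hB] at this
    linarith
  have hAP : P ≤ A := by
    have : (P : ℝ) ≤ A := by linarith
    exact_mod_cast this
  have hBP : B ≤ 2 * P := by
    have : (B : ℝ) ≤ 2 * P := by
      have : (3 / 2 + δ0) * (P : ℝ) ≤ 2 * P := by
        have : 3 / 2 + δ0 ≤ 2 := by linarith
        exact mul_le_mul_of_nonneg_right this hP0.le
      linarith
    exact_mod_cast this
  have hAB : A ≤ B := by
    have : (A : ℝ) ≤ B := by nlinarith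
    exact_mod_cast this
  have hcard : δ0 / 2 * P ≤ ((B - A : ℕ) : ℝ) := by
    rw [Nat.cast_sub hAB]
    nlinarith
  -- the bounds for the remaining target
  set D1 : ℝ := Real.exp (-Real.pi) * (1 / (Real.sqrt b * (j + 1) * (2 * (P : ℝ)) ^ j)) with hD1
  have hD10 : 0 ≤ D1 := by positivity
  have hmain : (δ0 / 2 * P) ^ r * D1 ≤ ∫ al, R (j + 1) P (r + 1) b tau al ∂PP (r + 1) := by
    refine ml_fubini (j + 1) P r hb0 tau _ fun al hal => ?_
    have hstep : ∀ y ∈ Fintype.piFinset (fun _ : Fin r => Finset.Ico A B),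
        D1 ≤ ∫ a in (0 : ℝ)..1, ∑ x ∈ Finset.Ico P (2 * P),
          G b (((x : ℝ) + a) ^ (j + 1) - (tau - ∑ i, ((y i : ℝ) + al i) ^ (j + 1))) := by
      intro y hy
      rw [ml_unfold]
      have hyi : ∀ i, (3 / 2 : ℝ) * P ≤ (y i : ℝ) + al i ∧
          (y i : ℝ) + al i ≤ (3 / 2 + δ0) * P := by
        intro i
        have h1 := Finset.mem_Ico.1 (Fintype.mem_piFinset.1 hy i)
        have h2 : (A : ℝ) ≤ y i := by exact_mod_cast h1.1
        have h3 : (y i : ℝ) + 1 ≤ B := by exact_mod_cast h1.2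
        have h4 := hal i
        exact ⟨by linarith [h4.1], by linarith [h4.2]⟩
      have hm1 : ∑ i, ((y i : ℝ) + al i) ^ (j + 1) ≤ r * ((3 / 2 + δ0) * P) ^ (j + 1) := by
        have : ∑ i, ((y i : ℝ) + al i) ^ (j + 1) ≤
            ∑ _i : Fin r, ((3 / 2 + δ0) * (P : ℝ)) ^ (j + 1) :=
          Finset.sum_le_sum fun i _ =>
            pow_le_pow_left₀ (le_trans (by positivity) (hyi i).1) (hyi i).2 _
        simpa using this
      have hm2 : r * ((3 / 2 : ℝ) * P) ^ (j + 1) ≤ ∑ i, ((y i : ℝ) + al i) ^ (j + 1) := by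
        have : ∑ _i : Fin r, ((3 / 2 : ℝ) * (P : ℝ)) ^ (j + 1) ≤
            ∑ i, ((y i : ℝ) + al i) ^ (j + 1) :=
          Finset.sum_le_sum fun i _ => pow_le_pow_left₀ (by positivity) (hyi i).1 _
        simpa using this
      refine ml_inner j P hP10 b hb _ ?_ ?_
      · have e1 : (6 / 5 * (P : ℝ)) ^ (j + 1) ≤
            ((r + 1) * (3 / 2 : ℝ) ^ (j + 1) - r * (3 / 2 + δ0) ^ (j + 1)) * P ^ (j + 1) := by
          rw [mul_pow]
          exact mul_le_mul_of_nonneg_right hδ (by positivity)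
        have e2 : ((r : ℝ) + 1) * (3 / 2 * (P : ℝ)) ^ (j + 1) ≤ tau := by
          refine le_trans (le_of_eq ?_) ht1
          push_cast
          ring
        rw [mul_pow] at hm1 e2
        nlinarith
      · have e1 := hh (1 / P) (by positivity) hPh
        have e2 : tau ≤ ((r : ℝ) + 1) * ((3 / 2) ^ (j + 1) * (1 + 1 / P) ^ (j + 1) *
            P ^ (j + 1)) := by
          refine ht2.trans (le_of_eq ?_)
          rw [← mul_pow, ← mul_pow]
          push_cast
          congr 2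
          field_simp
        have e3 : ((3 / 2 : ℝ) ^ (j + 1) * ((r + 1) * (1 + 1 / P) ^ (j + 1) - r)) * P ^ (j + 1) ≤
            (19 / 10 : ℝ) ^ (j + 1) * P ^ (j + 1) := mul_le_mul_of_nonneg_right e1 (by positivity)
        rw [mul_pow] at hm2
        rw [mul_pow]
        nlinarith
    -- sum over the box
    have hbox : (δ0 / 2 * P) ^ r * D1 ≤
        ∑ _y ∈ Fintype.piFinset (fun _ : Fin r => Finset.Ico A B), D1 := by
      rw [Finset.sum_const, Fintype.card_piFinset]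
      simp only [Nat.card_Ico, Finset.prod_const, Finset.card_univ, Fintype.card_fin,
        nsmul_eq_mul, Nat.cast_pow]
      exact mul_le_mul_of_nonneg_right (pow_le_pow_left₀ (by positivity) hcard r) hD10
    refine hbox.trans ((Finset.sum_le_sum hstep).trans ?_)
    have hcontG : ∀ (x : ℕ) (M : ℝ), Continuous fun a : ℝ => G b (((x : ℝ) + a) ^ (j + 1) - M) :=
      fun x M => (ml_continuous_G b).comp (by fun_prop)
    rw [← intervalIntegral.integral_finsetSum]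
    · refine intervalIntegral.integral_mono_on zero_le_one ?_ ?_ fun a _ => ?_
      · refine Continuous.intervalIntegrable ?_ _ _
        exact continuous_finsetSum _ fun y _ => continuous_finsetSum _ fun x _ => hcontG x _
      · refine Continuous.intervalIntegrable ?_ _ _
        refine (ml_continuous_R _ _ _ _ _).comp ?_
        exact Continuous.finCons continuous_id continuous_const
      · exact ml_R_ge j P r A B hAP hBP b tau a al
    · intro y _
      refine Continuous.intervalIntegrable ?_ _ _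
      exact continuous_finsetSum _ fun x _ => hcontG x _
  refine le_trans (le_of_eq ?_) hmain
  have hexp : (P : ℝ) ^ (((r + 1 : ℕ) : ℝ) - ((j + 1 : ℕ) : ℝ)) = (P : ℝ) ^ r / (P : ℝ) ^ j := by
    rw [← Real.rpow_natCast (P : ℝ) r, ← Real.rpow_natCast (P : ℝ) j, ← Real.rpow_sub hP0]
    congr 1
    push_cast
    ring
  have hsb : 0 < Real.sqrt b := Real.sqrt_pos.2 (by linarith)
  rw [hexp, hD1, mul_pow, mul_pow]
  field_simp

end Pool.H19.Wa
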