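import Pool.Agent.H19.Wa.CorBd

/-!
# Module MINORA: double integral over t1 < |t|, |t'| <= P^(-k/2)

For |t| > t1 = 1/(2k(2P)^(k-1)): cor_self gives ‖Cor t t‖ <= P + 2(1+log P) P^(2-k) 2k (2P)^(k-1)
<= C_k P (1+log P), and cor_trivial gives the same for ‖Cor t t'‖. With w <= 1 the double integral is at most
(2 P^(-k/2))^2 (C_k P (1+log P))^s.
-/

set_option autoImplicit false

namespace Pool.H19.Wa

open MeasureTheory Set

/-- pointwise bound on the minor arc -/
private theorem cor_minor (k : ℕ) (hk : 4 ≤ k) (P : ℕ) (hP : 1 ≤ P) (t t' : ℝ)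
    (ht : t1 k P < |t|) (ht' : t1 k P < |t'|) :
    ‖Cor k P t t'‖ ≤ (1 + k * 2 ^ (k + 1)) * (P * (1 + Real.log P)) := by
  have hP0 : (0 : ℝ) < P := by exact_mod_cast hP
  have hP1 : (1 : ℝ) ≤ P := by exact_mod_cast hP
  have hk0 : (0 : ℝ) < k := by
    have : 0 < k := by omega
    exact_mod_cast this
  have hlog : 0 ≤ Real.log P := Real.log_nonneg hP1
  have ht10 : 0 < t1 k P := by unfold t1; positivity
  have key : ∀ u : ℝ, t1 k P < |u| →
      ‖Cor k P u u‖ ≤ (1 + k * 2 ^ (k + 1)) * (P * (1 + Real.log P)) := by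
    intro u hu
    have hu0 : u ≠ 0 := by
      rintro rfl
      rw [abs_zero] at hu
      linarith
    refine (cor_self k P hk hP u hu0).trans ?_
    have h1 : 2 * (1 + Real.log P) / (|u| * (P : ℝ) ^ (k - 2)) ≤
        2 * (1 + Real.log P) / (t1 k P * (P : ℝ) ^ (k - 2)) := by
      apply div_le_div_of_nonneg_left (by positivity) (by positivity)
      gcongr
    have h2 : t1 k P * (P : ℝ) ^ (k - 2) = 1 / (k * 2 ^ k * P) := by
      unfold t1
      obtain ⟨m, rfl⟩ : ∃ m, k = m + 2 := ⟨k - 2, by omega⟩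
      have e1 : m + 2 - 1 = m + 1 := by omega
      have e2 : m + 2 - 2 = m := by omega
      rw [e1, e2, mul_pow]
      field_simp
      ring
    have h3 : 2 * (1 + Real.log P) / (t1 k P * (P : ℝ) ^ (k - 2)) =
        k * 2 ^ (k + 1) * (P * (1 + Real.log P)) := by
      rw [h2]
      field_simp
      ring
    rw [h3] at h1
    nlinarith [mul_nonneg hP0.le hlog]
  have h1 := cor_trivial k P t t'
  have h2 := key t ht
  have h3 := key t' ht'
  linarith

theorem minorA (k s : ℕ) (hk : 4 ≤ k) :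
    ∃ C : ℝ, 0 < C ∧ ∀ P : ℕ, 1 ≤ P → ∀ b : ℝ, 1 ≤ b →
      ∫ t in {t : ℝ | t1 k P < |t| ∧ |t| ≤ (P : ℝ) ^ (-(k : ℝ) / 2)},
        ∫ t' in {t : ℝ | t1 k P < |t| ∧ |t| ≤ (P : ℝ) ^ (-(k : ℝ) / 2)},
          w b t * w b t' * ‖Cor k P t t'‖ ^ s ≤
        C * (P : ℝ) ^ ((s : ℝ) - k) * (1 + Real.log P) ^ s := by
  refine ⟨4 * (1 + k * 2 ^ (k + 1)) ^ s, by positivity, fun P hP b hb => ?_⟩
  have hP0 : (0 : ℝ) < P := by exact_mod_cast hP
  have hP1 : (1 : ℝ) ≤ P := by exact_mod_cast hP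
  have hlog : 0 ≤ Real.log P := Real.log_nonneg hP1
  set T : ℝ := (P : ℝ) ^ (-(k : ℝ) / 2) with hT
  have hT0 : 0 < T := Real.rpow_pos_of_pos hP0 _
  set E : Set ℝ := {t : ℝ | t1 k P < |t| ∧ |t| ≤ T} with hE
  set M : ℝ := (1 + k * 2 ^ (k + 1)) * (P * (1 + Real.log P)) with hM
  have hM0 : 0 ≤ M := by positivity
  have hsub : E ⊆ Icc (-T) T := fun t ht => abs_le.mp ht.2
  have hvol : volume E ≤ ENNReal.ofReal (2 * T) := by
    refine (measure_mono hsub).trans ?_
    rw [Real.volume_Icc]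
    apply ENNReal.ofReal_le_ofReal
    linarith
  have hfin : volume E < ⊤ := lt_of_le_of_lt hvol ENNReal.ofReal_lt_top
  have hreal : volume.real E ≤ 2 * T := by
    unfold Measure.real
    exact ENNReal.toReal_le_of_le_ofReal (by positivity) hvol
  have hreal0 : 0 ≤ volume.real E := measureReal_nonneg
  have hin : ∀ t ∈ E, ‖∫ t' in E, w b t * w b t' * ‖Cor k P t t'‖ ^ s‖ ≤
      M ^ s * volume.real E := by
    intro t ht
    apply norm_setIntegral_le_of_norm_le_const hfin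
    intro t' ht'
    have h0 : 0 ≤ w b t * w b t' * ‖Cor k P t t'‖ ^ s :=
      mul_nonneg (mul_nonneg (w_nonneg _ _) (w_nonneg _ _)) (pow_nonneg (norm_nonneg _) _)
    rw [Real.norm_of_nonneg h0]
    have h1 : w b t * w b t' ≤ 1 := by
      have := mul_le_mul (w_le_one hb t) (w_le_one hb t') (w_nonneg b t') zero_le_one
      linarith
    have h2 : ‖Cor k P t t'‖ ^ s ≤ M ^ s :=
      pow_le_pow_left₀ (norm_nonneg _) (cor_minor k hk P hP t t' ht.1 ht'.1) s
    calc w b t * w b t' * ‖Cor k P t t'‖ ^ s ≤ 1 * M ^ s :=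
          mul_le_mul h1 h2 (by positivity) zero_le_one
      _ = M ^ s := one_mul _
  have hout : ‖∫ t in E, ∫ t' in E, w b t * w b t' * ‖Cor k P t t'‖ ^ s‖ ≤
      M ^ s * volume.real E * volume.real E :=
    norm_setIntegral_le_of_norm_le_const hfin hin
  refine (Real.le_norm_self _).trans (hout.trans ?_)
  have hTT : T * T = (P : ℝ) ^ (-(k : ℝ)) := by
    rw [hT, ← Real.rpow_add hP0]
    congr 1
    ring
  calc M ^ s * volume.real E * volume.real E ≤ M ^ s * (2 * T) * (2 * T) := by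
        gcongr
    _ = 4 * (T * T) * M ^ s := by ring
    _ = 4 * (1 + k * 2 ^ (k + 1)) ^ s * (P : ℝ) ^ ((s : ℝ) - k) * (1 + Real.log P) ^ s := by
        rw [hTT, hM, mul_pow, mul_pow, sub_eq_add_neg, Real.rpow_add hP0, Real.rpow_natCast]
        ring

end Pool.H19.Wa
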