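import Pool.Agent.H19.Wa.CorEq

/-!
# Module REP: Fourier representation, mean, second moment

`gauss_hat`: Mathlib `fourier_gaussian_pi` / `fourierIntegral_gaussian` (𝓕 of x ↦ exp(-π b' x^2) with b' = 1/b is
t ↦ b'^(-1/2) exp(-π t^2/b')); here G b u = exp(-π b u^2) = ∫ w b t e(tu) dt, w b t = b^(-1/2) exp(-π t²/b).
`rep`: finite sum of gauss_hat, e(t(Σ z_i - τ)) = e(-(tτ)) ∏ e(t z_i), `Finset.prod_univ_sum` for piFinset.
`mean`: Fubini (integrand bounded by P^s w b t), `integral_fintype_prod_eq_prod`, `mean_f`.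
`second_moment`: |∫_S g|^2 = ∫_S∫_S g(t) conj g(t'), Fubini, product formula:
∫ ∏ f(t,α_i) conj f(t',α_i) dPP = (Cor t t')^s; then norms. Everything is bounded by w b t w b t' P^(2s), integrable.
-/

set_option autoImplicit false

namespace Pool.H19.Wa

open MeasureTheory Set

theorem continuous_w (b : ℝ) : Continuous (fun t : ℝ => w b t) := by
  unfold w
  fun_prop

theorem integrable_w {b : ℝ} (hb : 0 < b) : Integrable (fun t : ℝ => w b t) := by
  unfold w
  have h := (integrable_exp_neg_mul_sq (b := Real.pi / b) (by positivity)).const_mul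
    ((Real.sqrt b)⁻¹)
  refine h.congr (Filter.Eventually.of_forall fun t => ?_)
  simp only
  congr 2
  ring

theorem integral_w {b : ℝ} (hb : 0 < b) : ∫ t : ℝ, w b t = 1 := by
  unfold w
  rw [integral_const_mul]
  have h := integral_gaussian (Real.pi / b)
  have h1 : (fun x : ℝ => Real.exp (-(Real.pi / b) * x ^ 2)) =
      fun x : ℝ => Real.exp (-(Real.pi * x ^ 2 / b)) := by
    funext x
    congr 1
    ring
  rw [h1] at h
  rw [h]
  have h2 : Real.pi / (Real.pi / b) = b := by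
    field_simp
  rw [h2]
  exact inv_mul_cancel₀ (Real.sqrt_pos.2 hb).ne'

theorem gauss_hat {b : ℝ} (hb : 0 < b) (u : ℝ) :
    ((G b u : ℝ) : ℂ) = ∫ t : ℝ, ((w b t : ℝ) : ℂ) * e (t * u) := by
  have hb' : 0 < (((Real.pi / b : ℝ) : ℂ)).re := by
    rw [Complex.ofReal_re]; positivity
  have h := fourierIntegral_gaussian hb' (2 * Real.pi * u : ℂ)
  have h1 : ∀ t : ℝ, ((w b t : ℝ) : ℂ) * e (t * u) = (((Real.sqrt b)⁻¹ : ℝ) : ℂ) *
      (Complex.exp (Complex.I * (2 * Real.pi * u) * t) *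
        Complex.exp (-((Real.pi / b : ℝ) : ℂ) * t ^ 2)) := by
    intro t
    unfold w e
    rw [← Complex.exp_add]
    push_cast
    rw [mul_assoc, ← Complex.exp_add]
    congr 2
    ring
  simp only [h1]
  rw [integral_const_mul, h]
  have hbC : (b : ℂ) ≠ 0 := by exact_mod_cast hb.ne'
  have hpi : (Real.pi : ℂ) ≠ 0 := by exact_mod_cast Real.pi_ne_zero
  have h2 : (Real.pi : ℂ) / ((Real.pi / b : ℝ) : ℂ) = ((b : ℝ) : ℂ) := by
    push_cast
    field_simp
  have h3 : ((b : ℝ) : ℂ) ^ (1 / 2 : ℂ) = ((Real.sqrt b : ℝ) : ℂ) := by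
    rw [Real.sqrt_eq_rpow, Complex.ofReal_cpow hb.le]
    norm_num
  rw [h2, h3]
  have h4 : (-(2 * Real.pi * u : ℂ) ^ 2 / (4 * ((Real.pi / b : ℝ) : ℂ))) =
      ((-(Real.pi * b * u ^ 2) : ℝ) : ℂ) := by
    push_cast
    field_simp
    ring
  rw [h4, ← mul_assoc, ← Complex.ofReal_mul, inv_mul_cancel₀ (Real.sqrt_pos.2 hb).ne']
  unfold G
  push_cast
  ring

theorem integrable_w_mul {b : ℝ} (hb : 0 < b) {g : ℝ → ℂ} (hg : Continuous g) {C : ℝ}
    (hC : ∀ t, ‖g t‖ ≤ C) : Integrable (fun t : ℝ => ((w b t : ℝ) : ℂ) * g t) := by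
  refine ((integrable_w hb).mul_const C).mono' ?_ (Filter.Eventually.of_forall fun t => ?_)
  · exact ((Complex.continuous_ofReal.comp (continuous_w b)).mul hg).aestronglyMeasurable
  · rw [norm_mul, Complex.norm_real, Real.norm_of_nonneg (w_nonneg b t)]
    exact mul_le_mul_of_nonneg_left (hC t) (w_nonneg b t)

theorem rep (k P s : ℕ) {b : ℝ} (hb : 0 < b) (tau : ℝ) (al : Fin s → ℝ) :
    ((R k P s b tau al : ℝ) : ℂ) =
      ∫ t : ℝ, ((w b t : ℝ) : ℂ) * e (-(t * tau)) * ∏ i, f k P t (al i) := by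
  have h1 : ∀ t : ℝ, ((w b t : ℝ) : ℂ) * e (-(t * tau)) * ∏ i, f k P t (al i) =
      ∑ x ∈ Fintype.piFinset (fun _ : Fin s => Finset.Ico P (2 * P)),
        ((w b t : ℝ) : ℂ) * e (t * (∑ i, ((x i : ℝ) + al i) ^ k - tau)) := by
    intro t
    unfold f
    rw [Finset.prod_univ_sum, mul_assoc, Finset.mul_sum, Finset.mul_sum]
    refine Finset.sum_congr rfl fun x _ => ?_
    rw [← e_sum, ← e_add]
    congr 2
    rw [mul_sub, Finset.mul_sum]
    ring
  simp only [h1]
  rw [integral_finsetSum]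
  · unfold R
    push_cast
    refine Finset.sum_congr rfl fun x _ => ?_
    exact gauss_hat hb _
  · intro x _
    refine integrable_w_mul hb (continuous_e.comp (by fun_prop)) (C := 1) fun t => ?_
    exact (norm_e _).le

/-- the integrand of the representation -/
noncomputable def gg (k P s : ℕ) (b tau : ℝ) (al : Fin s → ℝ) (t : ℝ) : ℂ :=
  ((w b t : ℝ) : ℂ) * e (-(t * tau)) * ∏ i, f k P t (al i)

theorem continuous_gg (k P s : ℕ) (b tau : ℝ) :
    Continuous (fun p : (Fin s → ℝ) × ℝ => gg k P s b tau p.1 p.2) := by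
  unfold gg
  refine ((Complex.continuous_ofReal.comp ((continuous_w b).comp continuous_snd)).mul
    (continuous_e.comp (by fun_prop))).mul ?_
  refine continuous_finsetProd _ fun i _ => ?_
  exact (continuous_f k P).comp (continuous_snd.prodMk ((continuous_apply i).comp continuous_fst))

theorem continuous_psi (k P s : ℕ) (b tau : ℝ) :
    Continuous (fun p : (Fin s → ℝ) × (ℝ × ℝ) =>
      gg k P s b tau p.1 p.2.1 * (starRingEnd ℂ) (gg k P s b tau p.1 p.2.2)) := by
  have h1 : Continuous (fun p : (Fin s → ℝ) × (ℝ × ℝ) => gg k P s b tau p.1 p.2.1) :=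
    (continuous_gg k P s b tau).comp
      (g := fun p : (Fin s → ℝ) × ℝ => gg k P s b tau p.1 p.2)
      (f := fun p : (Fin s → ℝ) × (ℝ × ℝ) => (p.1, p.2.1)) (by fun_prop)
  have h2 : Continuous (fun p : (Fin s → ℝ) × (ℝ × ℝ) => gg k P s b tau p.1 p.2.2) :=
    (continuous_gg k P s b tau).comp
      (g := fun p : (Fin s → ℝ) × ℝ => gg k P s b tau p.1 p.2)
      (f := fun p : (Fin s → ℝ) × (ℝ × ℝ) => (p.1, p.2.2)) (by fun_prop)
  exact h1.mul (Complex.continuous_conj.comp h2)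

theorem norm_gg_le (k P s : ℕ) (b tau : ℝ) (al : Fin s → ℝ) (t : ℝ) :
    ‖gg k P s b tau al t‖ ≤ w b t * (P : ℝ) ^ s := by
  unfold gg
  rw [norm_mul, norm_mul, norm_e, mul_one, Complex.norm_real, Real.norm_of_nonneg (w_nonneg b t),
    norm_prod]
  refine mul_le_mul_of_nonneg_left ?_ (w_nonneg b t)
  calc ∏ i, ‖f k P t (al i)‖ ≤ ∏ _i : Fin s, (P : ℝ) :=
        Finset.prod_le_prod (fun i _ => norm_nonneg _) fun i _ => norm_f_le k P t (al i)
    _ = (P : ℝ) ^ s := by simp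

theorem integrable_gg (k P s : ℕ) {b : ℝ} (hb : 0 < b) (tau : ℝ) (S : Set ℝ) :
    Integrable (fun p : (Fin s → ℝ) × ℝ => gg k P s b tau p.1 p.2)
      ((PP s).prod (volume.restrict S)) := by
  have h : Integrable (fun t => w b t * (P : ℝ) ^ s) (volume.restrict S) :=
    ((integrable_w hb).mul_const _).restrict
  refine (h.comp_snd (PP s)).mono' (continuous_gg k P s b tau).aestronglyMeasurable
    (Filter.Eventually.of_forall fun p => ?_)
  exact norm_gg_le k P s b tau p.1 p.2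

theorem integral_prod_PP {s : ℕ} (g : ℝ → ℂ) :
    ∫ al : Fin s → ℝ, ∏ i, g (al i) ∂PP s = (∫ a in (0 : ℝ)..1, g a) ^ s := by
  unfold PP
  rw [integral_fintype_prod_eq_prod (fun _ : Fin s => g)]
  rw [Finset.prod_const, Finset.card_univ, Fintype.card_fin,
    intervalIntegral.integral_of_le zero_le_one, integral_Icc_eq_integral_Ioc]

theorem mean (k P s : ℕ) {b : ℝ} (hb : 0 < b) (tau : ℝ) :
    ((∫ al, R k P s b tau al ∂PP s : ℝ) : ℂ) =
      ∫ t : ℝ, ((w b t : ℝ) : ℂ) * e (-(t * tau)) * (v k P t) ^ s := by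
  rw [← integral_complex_ofReal]
  have h1 : ∀ al, (((R k P s b tau al : ℝ)) : ℂ) = ∫ t : ℝ, gg k P s b tau al t := fun al =>
    rep k P s hb tau al
  have h2 : (∫ al, (((R k P s b tau al : ℝ)) : ℂ) ∂PP s) =
      ∫ al, (∫ t : ℝ, gg k P s b tau al t) ∂PP s := by
    refine integral_congr_ae (Filter.Eventually.of_forall fun al => ?_)
    exact h1 al
  have h3 := integrable_gg k P s hb tau Set.univ
  rw [Measure.restrict_univ] at h3
  refine h2.trans ?_
  rw [integral_integral_swap h3]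
  refine integral_congr_ae (Filter.Eventually.of_forall fun t => ?_)
  simp only [gg]
  rw [integral_const_mul, integral_prod_PP, mean_f]

theorem second_moment (k P s : ℕ) {b : ℝ} (hb : 0 < b) (tau : ℝ) (S : Set ℝ)
    (hS : MeasurableSet S) :
    Integrable (fun al : Fin s → ℝ =>
      ‖∫ t in S, ((w b t : ℝ) : ℂ) * e (-(t * tau)) * ∏ i, f k P t (al i)‖ ^ 2) (PP s) ∧
    ∫ al, ‖∫ t in S, ((w b t : ℝ) : ℂ) * e (-(t * tau)) * ∏ i, f k P t (al i)‖ ^ 2 ∂PP s ≤
      ∫ t in S, ∫ t' in S, w b t * w b t' * ‖Cor k P t t'‖ ^ s := by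
  set μ : Measure ℝ := volume.restrict S with hμ
  have hgi := integrable_gg k P s hb tau S
  rw [← hμ] at hgi
  set Z : (Fin s → ℝ) → ℂ := fun al => ∫ t, gg k P s b tau al t ∂μ with hZ
  have hZi : Integrable Z (PP s) := hgi.integral_prod_left
  have hwS : Integrable (fun t => w b t * (P : ℝ) ^ s) μ :=
    ((integrable_w hb).mul_const _).restrict
  have hZb : ∀ al, ‖Z al‖ ≤ (P : ℝ) ^ s := by
    intro al
    calc ‖Z al‖ ≤ ∫ t, w b t * (P : ℝ) ^ s ∂μ :=
          norm_integral_le_of_norm_le hwS (Filter.Eventually.of_forall fun t =>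
            norm_gg_le k P s b tau al t)
      _ ≤ ∫ t, w b t * (P : ℝ) ^ s := by
          refine setIntegral_le_integral ((integrable_w hb).mul_const _) ?_
          exact Filter.Eventually.of_forall fun t => mul_nonneg (w_nonneg b t) (by positivity)
      _ = (P : ℝ) ^ s := by rw [integral_mul_const, integral_w hb, one_mul]
  have hint : Integrable (fun al => ‖Z al‖ ^ 2) (PP s) := by
    refine (integrable_const (((P : ℝ) ^ s) ^ 2)).mono' (hZi.aestronglyMeasurable.norm.pow 2)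
      (Filter.Eventually.of_forall fun al => ?_)
    rw [Real.norm_of_nonneg (by positivity)]
    exact pow_le_pow_left₀ (norm_nonneg _) (hZb al) 2
  refine ⟨hint, ?_⟩
  -- the product integrand
  set Ψ : (Fin s → ℝ) → ℝ × ℝ → ℂ := fun al q =>
    gg k P s b tau al q.1 * (starRingEnd ℂ) (gg k P s b tau al q.2) with hΨ
  have hZZ : ∀ al, ((‖Z al‖ ^ 2 : ℝ) : ℂ) = ∫ q, Ψ al q ∂(μ.prod μ) := by
    intro al
    have h1 : ((‖Z al‖ ^ 2 : ℝ) : ℂ) = Z al * (starRingEnd ℂ) (Z al) := by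
      rw [Complex.mul_conj, Complex.normSq_eq_norm_sq]
    rw [h1]
    have h2 : (starRingEnd ℂ) (Z al) = ∫ t, (starRingEnd ℂ) (gg k P s b tau al t) ∂μ :=
      integral_conj.symm
    rw [h2]
    exact (integral_prod_mul (fun t => gg k P s b tau al t)
      (fun t => (starRingEnd ℂ) (gg k P s b tau al t))).symm
  have hΨc : Continuous (fun p : (Fin s → ℝ) × (ℝ × ℝ) => Ψ p.1 p.2) :=
    continuous_psi k P s b tau
  have hΨi : Integrable (Function.uncurry Ψ) ((PP s).prod (μ.prod μ)) := by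
    have h := (hwS.mul_prod hwS).comp_snd (PP s)
    refine h.mono' hΨc.aestronglyMeasurable (Filter.Eventually.of_forall fun p => ?_)
    simp only [Function.uncurry, hΨ, norm_mul, RCLike.norm_conj]
    exact mul_le_mul (norm_gg_le _ _ _ _ _ _ _) (norm_gg_le _ _ _ _ _ _ _) (norm_nonneg _)
      (mul_nonneg (w_nonneg _ _) (by positivity))
  set Φ : ℝ × ℝ → ℂ := fun q => ∫ al, Ψ al q ∂PP s with hΦ
  have hΦi : Integrable Φ (μ.prod μ) := hΨi.integral_prod_right
  have hΦe : ∀ q : ℝ × ℝ, ‖Φ q‖ = w b q.1 * w b q.2 * ‖Cor k P q.1 q.2‖ ^ s := by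
    intro q
    have h1 : Φ q = (((w b q.1 : ℝ) : ℂ) * e (-(q.1 * tau)) *
        (starRingEnd ℂ) (((w b q.2 : ℝ) : ℂ) * e (-(q.2 * tau)))) * (Cor k P q.1 q.2) ^ s := by
      have h2 : ∀ al, Ψ al q = (((w b q.1 : ℝ) : ℂ) * e (-(q.1 * tau)) *
        (starRingEnd ℂ) (((w b q.2 : ℝ) : ℂ) * e (-(q.2 * tau)))) *
          ∏ i, (f k P q.1 (al i) * (starRingEnd ℂ) (f k P q.2 (al i))) := by
        intro al
        simp only [hΨ, gg, map_mul, map_prod, Finset.prod_mul_distrib]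
        ring
      simp only [hΦ, h2]
      rw [integral_const_mul, integral_prod_PP
        (fun a => f k P q.1 a * (starRingEnd ℂ) (f k P q.2 a))]
      rfl
    rw [h1]
    simp only [norm_mul, map_mul, RCLike.norm_conj, norm_e, mul_one, Complex.norm_real,
      Real.norm_of_nonneg (w_nonneg _ _), norm_pow]
  have hmain : ((∫ al, ‖Z al‖ ^ 2 ∂PP s : ℝ) : ℂ) = ∫ q, Φ q ∂(μ.prod μ) := by
    rw [← integral_complex_ofReal]
    have h1 : (∫ al, ((‖Z al‖ ^ 2 : ℝ) : ℂ) ∂PP s) = ∫ al, ∫ q, Ψ al q ∂(μ.prod μ) ∂PP s :=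
      integral_congr_ae (Filter.Eventually.of_forall fun al => hZZ al)
    refine h1.trans ?_
    rw [integral_integral_swap hΨi]
  have hn : ∫ al, ‖Z al‖ ^ 2 ∂PP s ≤ ‖((∫ al, ‖Z al‖ ^ 2 ∂PP s : ℝ) : ℂ)‖ := by
    rw [Complex.norm_real]
    exact le_abs_self _
  refine hn.trans ?_
  rw [hmain]
  refine (norm_integral_le_integral_norm _).trans (le_of_eq ?_)
  rw [integral_prod _ hΦi.norm]
  simp only [hΦe]

end Pool.H19.Wa
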