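import Pool.Agent.H19.Wa.CorBd
import Pool.Agent.H19.Wa.Rep

/-!
# Module MINORB: double integral over |t|, |t'| > T = P^(-k/2)

Here |t| P^(k-1) >= P^(k/2-1) >= 1, so cor_near applies. Pointwise for |t| > T,
with A = 2P/(1+|t-t'|P^k), B = 32 sqrt P/ sqrt(|t| P^(k-3)) = 32 P^(2-k/2) |t|^(-1/2):
* if |t'| <= 2^k |t|: ‖Cor‖^s <= (A+B)^s <= 2^s A^s + 2^s B^s;
* if |t'| > 2^k |t|: ‖Cor‖^s <= (2P/(|t'|P^(k-1)))^s (cor_far).
All kernels are bounded by multiples of (1 + |y - t'| lam)^(-s), whose integral is J(s)/lam.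
-/

set_option autoImplicit false

namespace Pool.H19.Wa

open MeasureTheory Set

/-- the basic kernel integral -/
noncomputable def JJ (a : ℝ) : ℝ := ∫ x : ℝ, (1 + |x|) ^ (-a)

theorem JJ_nonneg (a : ℝ) : 0 ≤ JJ a :=
  integral_nonneg fun x => Real.rpow_nonneg (by positivity) _

theorem kern (a lam y : ℝ) (ha : 1 < a) (hlam : 0 < lam) :
    Integrable (fun x : ℝ => (1 + |y - x| * lam) ^ (-a)) ∧
    ∫ x : ℝ, (1 + |y - x| * lam) ^ (-a) = lam⁻¹ * JJ a := by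
  have h1 : Integrable (fun x : ℝ => (1 + ‖x‖) ^ (-a)) :=
    integrable_one_add_norm (by simpa using ha)
  have h2 : Integrable (fun x : ℝ => (1 + ‖lam * x‖) ^ (-a)) := h1.comp_mul_left' hlam.ne'
  have h3 : Integrable (fun x : ℝ => (1 + ‖lam * (y - x)‖) ^ (-a)) := h2.comp_sub_left y
  have e : ∀ x : ℝ, (1 + |y - x| * lam) ^ (-a) = (1 + ‖lam * (y - x)‖) ^ (-a) := by
    intro x
    rw [Real.norm_eq_abs, abs_mul, abs_of_pos hlam, mul_comm]
  refine ⟨by simpa only [e] using h3, ?_⟩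
  simp only [e]
  rw [integral_sub_left_eq_self (fun x => (1 + ‖lam * x‖) ^ (-a)) volume y,
    Measure.integral_comp_mul_left (fun x => (1 + ‖x‖) ^ (-a))]
  rw [abs_of_pos (inv_pos.mpr hlam), smul_eq_mul]
  rfl

/-- the tail integral with a weight at most one, in the form used twice below -/
theorem tail (a T b : ℝ) (ha : 1 < a) (hT : 0 < T) (hb : 1 ≤ b) :
    Integrable (fun t : ℝ => w b t * |t| ^ (-a)) (volume.restrict {t : ℝ | T < |t|}) ∧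
    ∫ t in {t : ℝ | T < |t|}, w b t * |t| ^ (-a) ≤ 2 ^ a * T ^ (1 - a) * JJ a := by
  have hS : MeasurableSet {t : ℝ | T < |t|} := measurableSet_lt measurable_const measurable_id.abs
  obtain ⟨hi, he⟩ := kern a T⁻¹ 0 ha (inv_pos.mpr hT)
  have hpt : ∀ t ∈ {t : ℝ | T < |t|}, w b t * |t| ^ (-a) ≤
      (2 / T) ^ a * (1 + |0 - t| * T⁻¹) ^ (-a) := by
    intro t ht
    have ht : T < |t| := ht
    have h0 : 0 < |t| := hT.trans ht
    have h1 : w b t * |t| ^ (-a) ≤ |t| ^ (-a) := by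
      have := w_le_one hb t
      have h2 : 0 ≤ |t| ^ (-a) := Real.rpow_nonneg h0.le _
      nlinarith
    refine h1.trans ?_
    have h3 : (1 + |0 - t| * T⁻¹) = (T + |t|) / T := by
      rw [zero_sub, abs_neg]; field_simp
    rw [h3, Real.rpow_neg h0.le, Real.rpow_neg (by positivity : (0 : ℝ) ≤ (T + |t|) / T),
      Real.div_rpow (by norm_num) hT.le, Real.div_rpow (by positivity) hT.le]
    have h4 : (T + |t|) ^ a ≤ (2 * |t|) ^ a :=
      Real.rpow_le_rpow (by positivity) (by linarith) (by linarith)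
    rw [Real.mul_rpow (by norm_num) h0.le] at h4
    have h5 : 0 < T ^ a := Real.rpow_pos_of_pos hT a
    have h6 : 0 < |t| ^ a := Real.rpow_pos_of_pos h0 a
    have h7 : 0 < (T + |t|) ^ a := Real.rpow_pos_of_pos (by positivity) a
    have : 2 ^ a / T ^ a * ((T + |t|) ^ a / T ^ a)⁻¹ = 2 ^ a / (T + |t|) ^ a := by
      field_simp
    rw [this, inv_eq_one_div, div_le_div_iff₀ h6 h7]
    linarith
  have hg : Integrable (fun t : ℝ => (2 / T) ^ a * (1 + |0 - t| * T⁻¹) ^ (-a)) := hi.const_mul _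
  have h0 : ∀ t : ℝ, 0 ≤ w b t * |t| ^ (-a) := fun t =>
    mul_nonneg (w_nonneg b t) (Real.rpow_nonneg (abs_nonneg t) _)
  constructor
  · refine Integrable.mono' hg.integrableOn ?_ ?_
    · apply Measurable.aestronglyMeasurable
      unfold w
      fun_prop
    · refine ae_restrict_of_forall_mem hS fun t ht => ?_
      rw [Real.norm_of_nonneg (h0 t)]
      exact hpt t ht
  · calc _ ≤ ∫ t in {t : ℝ | T < |t|}, (2 / T) ^ a * (1 + |0 - t| * T⁻¹) ^ (-a) :=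
          integral_mono_of_nonneg (Filter.Eventually.of_forall h0) hg.integrableOn
            (ae_restrict_of_forall_mem hS hpt)
      _ ≤ ∫ t, (2 / T) ^ a * (1 + |0 - t| * T⁻¹) ^ (-a) := by
          refine setIntegral_le_integral hg (Filter.Eventually.of_forall fun t => ?_)
          have : 0 ≤ |0 - t| * T⁻¹ := by positivity
          positivity
      _ = _ := by
          rw [integral_const_mul, he, Real.div_rpow (by norm_num) hT.le, inv_inv,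
            Real.rpow_sub hT, Real.rpow_one]
          ring

/-- pointwise bound -/
theorem ptw (k s P : ℕ) (hk : 4 ≤ k) (hP : 1 ≤ P) (t t' : ℝ)
    (ht : 1 ≤ |t| * (P : ℝ) ^ (k - 1)) (ht0 : t ≠ 0) :
    ‖Cor k P t t'‖ ^ s ≤
      (4 * (P : ℝ)) ^ s * (1 + |t - t'| * (P : ℝ) ^ k) ^ (-(s : ℝ)) +
      ((64 * (1 + 2 ^ k) * (P : ℝ) ^ (2 - (k : ℝ) / 2) * |t| ^ (-(1 / 2 : ℝ))) ^ s +
        (4 * (P : ℝ) ^ (2 - (k : ℝ)) * |t| ^ (-1 : ℝ)) ^ s) *
      (1 + |0 - t'| * |t|⁻¹) ^ (-(s : ℝ)) := by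
  have hP0 : (0 : ℝ) < P := by exact_mod_cast hP
  have ht1 : 0 < |t| := abs_pos.mpr ht0
  have hA : 0 ≤ |t - t'| * (P : ℝ) ^ k := by positivity
  have hD : 0 ≤ |0 - t'| * |t|⁻¹ := by positivity
  have k1 : (0 : ℝ) ≤ (1 + |t - t'| * (P : ℝ) ^ k) ^ (-(s : ℝ)) := Real.rpow_nonneg (by positivity) _
  have k2 : (0 : ℝ) ≤ (1 + |0 - t'| * |t|⁻¹) ^ (-(s : ℝ)) := Real.rpow_nonneg (by positivity) _
  have k3 : (0 : ℝ) ≤ (P : ℝ) ^ (2 - (k : ℝ) / 2) := Real.rpow_nonneg hP0.le _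
  have k4 : (0 : ℝ) ≤ |t| ^ (-(1 / 2 : ℝ)) := Real.rpow_nonneg ht1.le _
  have k5 : (0 : ℝ) ≤ (P : ℝ) ^ (2 - (k : ℝ)) := Real.rpow_nonneg hP0.le _
  have k6 : (0 : ℝ) ≤ |t| ^ (-1 : ℝ) := Real.rpow_nonneg ht1.le _
  by_cases hc : |t'| ≤ 2 ^ k * |t|
  · -- near
    have h1 := cor_near k P hk hP t t' ht
    have hB : Real.sqrt P / Real.sqrt (|t| * (P : ℝ) ^ (k - 3)) =
        (P : ℝ) ^ (2 - (k : ℝ) / 2) * |t| ^ (-(1 / 2 : ℝ)) := by
      rw [Real.sqrt_eq_rpow, Real.sqrt_eq_rpow, Real.mul_rpow ht1.le (by positivity),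
        ← Real.rpow_natCast, ← Real.rpow_mul hP0.le, Real.rpow_neg ht1.le]
      have hcast : ((k - 3 : ℕ) : ℝ) = (k : ℝ) - 3 := by
        rw [Nat.cast_sub (by omega)]; norm_num
      rw [hcast]
      have h2 : (P : ℝ) ^ (2 - (k : ℝ) / 2) = (P : ℝ) ^ (1 / 2 : ℝ) / (P : ℝ) ^ (((k : ℝ) - 3) * (1 / 2)) := by
        rw [← Real.rpow_sub hP0]; congr 1; ring
      rw [h2]
      have h3 : 0 < |t| ^ (1 / 2 : ℝ) := Real.rpow_pos_of_pos ht1 _
      have h4 : 0 < (P : ℝ) ^ (((k : ℝ) - 3) * (1 / 2)) := Real.rpow_pos_of_pos hP0 _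
      field_simp
    have hA0 : 0 ≤ 2 * (P : ℝ) / (1 + |t - t'| * (P : ℝ) ^ k) := by positivity
    set B : ℝ := 32 * ((P : ℝ) ^ (2 - (k : ℝ) / 2) * |t| ^ (-(1 / 2 : ℝ))) with hBdef
    have hB0 : 0 ≤ B := by positivity
    have h2 : ‖Cor k P t t'‖ ≤ 2 * (P : ℝ) / (1 + |t - t'| * (P : ℝ) ^ k) + B := by
      refine h1.trans (le_of_eq ?_)
      rw [hBdef, ← hB]; ring
    have h3 : ‖Cor k P t t'‖ ^ s ≤ (2 * (2 * (P : ℝ) / (1 + |t - t'| * (P : ℝ) ^ k))) ^ s + (2 * B) ^ s := by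
      set A : ℝ := 2 * (P : ℝ) / (1 + |t - t'| * (P : ℝ) ^ k) with hAdef
      rcases le_total A B with h | h
      · have : ‖Cor k P t t'‖ ^ s ≤ (2 * B) ^ s :=
          pow_le_pow_left₀ (norm_nonneg _) (by linarith) s
        have h4 : 0 ≤ (2 * A) ^ s := by positivity
        linarith
      · have : ‖Cor k P t t'‖ ^ s ≤ (2 * A) ^ s :=
          pow_le_pow_left₀ (norm_nonneg _) (by linarith) s
        have h4 : 0 ≤ (2 * B) ^ s := by positivity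
        linarith
    refine h3.trans ?_
    have h4 : (2 * (2 * (P : ℝ) / (1 + |t - t'| * (P : ℝ) ^ k))) ^ s =
        (4 * (P : ℝ)) ^ s * (1 + |t - t'| * (P : ℝ) ^ k) ^ (-(s : ℝ)) := by
      rw [Real.rpow_neg (by positivity), Real.rpow_natCast, ← inv_pow, ← mul_pow]
      congr 1
      field_simp
      ring
    have h5 : (2 * B) ^ s ≤ (64 * (1 + 2 ^ k) * (P : ℝ) ^ (2 - (k : ℝ) / 2) * |t| ^ (-(1 / 2 : ℝ))) ^ s *
        (1 + |0 - t'| * |t|⁻¹) ^ (-(s : ℝ)) := by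
      rw [Real.rpow_neg (by positivity) (s : ℝ), Real.rpow_natCast, ← inv_pow, ← mul_pow]
      apply pow_le_pow_left₀ (by positivity)
      have h6 : 1 + |0 - t'| * |t|⁻¹ ≤ 1 + 2 ^ k := by
        rw [zero_sub, abs_neg]
        have : |t'| * |t|⁻¹ ≤ 2 ^ k := by
          rw [← div_eq_mul_inv, div_le_iff₀ ht1]; exact hc
        linarith
      have h7 : (0 : ℝ) < 1 + |0 - t'| * |t|⁻¹ := by positivity
      rw [← div_eq_mul_inv, le_div_iff₀ h7]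
      calc 2 * B * (1 + |0 - t'| * |t|⁻¹) ≤ 2 * B * (1 + 2 ^ k) :=
            mul_le_mul_of_nonneg_left h6 (by positivity)
        _ = _ := by rw [hBdef]; ring
    have h8 : 0 ≤ (4 * (P : ℝ) ^ (2 - (k : ℝ)) * |t| ^ (-1 : ℝ)) ^ s * (1 + |0 - t'| * |t|⁻¹) ^ (-(s : ℝ)) := by
      positivity
    rw [h4, add_mul]
    linarith
  · -- far
    have hc : 2 ^ k * |t| < |t'| := lt_of_not_ge hc
    have h1 : |t| ≤ 2 ^ k * |t| := by
      have : (1 : ℝ) ≤ 2 ^ k := one_le_pow₀ (by norm_num)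
      nlinarith
    have ht'0 : 0 < |t'| := lt_of_le_of_lt (by positivity) hc
    have h2 := cor_far k P hk hP t t' (abs_pos.mp ht'0) hc.le
    have h3 : ‖Cor k P t t'‖ ^ s ≤ (4 * (P : ℝ) ^ (2 - (k : ℝ)) * |t| ^ (-1 : ℝ)) ^ s *
        (1 + |0 - t'| * |t|⁻¹) ^ (-(s : ℝ)) := by
      rw [Real.rpow_neg (by positivity) (s : ℝ), Real.rpow_natCast, ← inv_pow, ← mul_pow]
      apply pow_le_pow_left₀ (norm_nonneg _)
      refine h2.trans ?_
      have h4 : (P : ℝ) ^ (2 - (k : ℝ)) = P / (P : ℝ) ^ (k - 1) := by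
        rw [Real.rpow_sub hP0, Real.rpow_natCast]
        have : (P : ℝ) ^ k = P ^ (k - 1) * P := by
          rw [← pow_succ]; congr 1; omega
        rw [this]
        have h5 : (P : ℝ) ^ (2 : ℝ) = P * P := by
          rw [show (2 : ℝ) = ((2 : ℕ) : ℝ) by norm_num, Real.rpow_natCast]; ring
        rw [h5]
        field_simp
      have h5 : |t| ^ (-1 : ℝ) = |t|⁻¹ := by rw [Real.rpow_neg_one]
      rw [h4, h5, zero_sub, abs_neg]
      have hq : 0 < (P : ℝ) ^ (k - 1) := by positivity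
      have : 4 * ((P : ℝ) / (P : ℝ) ^ (k - 1)) * |t|⁻¹ * (1 + |t'| * |t|⁻¹)⁻¹ =
          4 * P / ((|t| + |t'|) * (P : ℝ) ^ (k - 1)) := by
        have h6 : 0 < |t| + |t'| := by positivity
        have h7 : (1 + |t'| * |t|⁻¹) = (|t| + |t'|) / |t| := by field_simp
        rw [h7]
        field_simp
      rw [this, div_le_div_iff₀ (by positivity) (by positivity)]
      have h9 : |t| + |t'| ≤ 2 * |t'| := by linarith
      calc 2 * (P : ℝ) * ((|t| + |t'|) * (P : ℝ) ^ (k - 1)) ≤ 2 * (P : ℝ) * ((2 * |t'|) * (P : ℝ) ^ (k - 1)) := by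
            gcongr
        _ = _ := by ring
    have h8 : 0 ≤ (64 * (1 + 2 ^ k) * (P : ℝ) ^ (2 - (k : ℝ) / 2) * |t| ^ (-(1 / 2 : ℝ))) ^ s *
        (1 + |0 - t'| * |t|⁻¹) ^ (-(s : ℝ)) := by positivity
    have h9 : 0 ≤ (4 * (P : ℝ)) ^ s * (1 + |t - t'| * (P : ℝ) ^ k) ^ (-(s : ℝ)) := by positivity
    rw [add_mul]
    linarith

theorem minorB (k s : ℕ) (hk : 4 ≤ k) (hs : 5 ≤ s) :
    ∃ C : ℝ, 0 < C ∧ ∀ P : ℕ, 1 ≤ P → ∀ b : ℝ, 1 ≤ b →
      ∫ t in {t : ℝ | (P : ℝ) ^ (-(k : ℝ) / 2) < |t|},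
        ∫ t' in {t : ℝ | (P : ℝ) ^ (-(k : ℝ) / 2) < |t|},
          w b t * w b t' * ‖Cor k P t t'‖ ^ s ≤ C * (P : ℝ) ^ ((s : ℝ) - k) := by
  have hk4 : (4 : ℝ) ≤ k := by exact_mod_cast hk
  have hs5 : (5 : ℝ) ≤ s := by exact_mod_cast hs
  set J0 := JJ (s : ℝ) with hJ0
  set Ja := JJ ((s : ℝ) / 2 - 1) with hJa
  set Jb := JJ ((s : ℝ) - 1) with hJb
  have j0 : 0 ≤ J0 := JJ_nonneg _
  have ja : 0 ≤ Ja := JJ_nonneg _
  have jb : 0 ≤ Jb := JJ_nonneg _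
  refine ⟨J0 * 4 ^ s + J0 * (64 * (1 + 2 ^ k)) ^ s * (2 ^ ((s : ℝ) / 2 - 1) * Ja) +
    J0 * 4 ^ s * (2 ^ ((s : ℝ) - 1) * Jb) + 1, by positivity, ?_⟩
  intro P hP b hb
  have hP0 : (0 : ℝ) < P := by exact_mod_cast hP
  have hP1 : (1 : ℝ) ≤ P := by exact_mod_cast hP
  set T : ℝ := (P : ℝ) ^ (-(k : ℝ) / 2) with hT
  have hT0 : 0 < T := Real.rpow_pos_of_pos hP0 _
  have hS : MeasurableSet {t : ℝ | T < |t|} := measurableSet_lt measurable_const measurable_id.abs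
  -- inner bound
  have inner : ∀ t ∈ {t : ℝ | T < |t|},
      ∫ t' in {t : ℝ | T < |t|}, w b t * w b t' * ‖Cor k P t t'‖ ^ s ≤
      (J0 * ((4 * (P : ℝ)) ^ s * ((P : ℝ) ^ k)⁻¹)) * w b t +
      (J0 * (64 * (1 + 2 ^ k) * (P : ℝ) ^ (2 - (k : ℝ) / 2)) ^ s) * (w b t * |t| ^ (-((s : ℝ) / 2 - 1))) +
      (J0 * (4 * (P : ℝ) ^ (2 - (k : ℝ))) ^ s) * (w b t * |t| ^ (-((s : ℝ) - 1))) := by
    intro t ht
    have ht : T < |t| := ht
    have ht1 : 0 < |t| := hT0.trans ht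
    have ht0 : t ≠ 0 := abs_pos.mp ht1
    have htP : 1 ≤ |t| * (P : ℝ) ^ (k - 1) := by
      have h1 : (1 : ℝ) ≤ T * (P : ℝ) ^ (k - 1) := by
        rw [hT, ← Real.rpow_natCast, ← Real.rpow_add hP0]
        apply Real.one_le_rpow hP1
        have : ((k - 1 : ℕ) : ℝ) = (k : ℝ) - 1 := by rw [Nat.cast_sub (by omega)]; norm_num
        rw [this]; linarith
      refine h1.trans ?_
      gcongr
    obtain ⟨i1, e1⟩ := kern (s : ℝ) ((P : ℝ) ^ k) t (by linarith) (by positivity)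
    obtain ⟨i2, e2⟩ := kern (s : ℝ) (|t|⁻¹) 0 (by linarith) (inv_pos.mpr ht1)
    set D : ℝ := (64 * (1 + 2 ^ k) * (P : ℝ) ^ (2 - (k : ℝ) / 2) * |t| ^ (-(1 / 2 : ℝ))) ^ s +
        (4 * (P : ℝ) ^ (2 - (k : ℝ)) * |t| ^ (-1 : ℝ)) ^ s with hD
    have ig : Integrable (fun t' : ℝ => w b t * ((4 * (P : ℝ)) ^ s * (1 + |t - t'| * (P : ℝ) ^ k) ^ (-(s : ℝ)) +
        D * (1 + |0 - t'| * |t|⁻¹) ^ (-(s : ℝ)))) := ((i1.const_mul _).add (i2.const_mul _)).const_mul _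
    have hw0 : 0 ≤ w b t := w_nonneg b t
    have hD0 : 0 ≤ D := by positivity
    calc ∫ t' in {t : ℝ | T < |t|}, w b t * w b t' * ‖Cor k P t t'‖ ^ s
        ≤ ∫ t' in {t : ℝ | T < |t|}, w b t * ((4 * (P : ℝ)) ^ s * (1 + |t - t'| * (P : ℝ) ^ k) ^ (-(s : ℝ)) +
        D * (1 + |0 - t'| * |t|⁻¹) ^ (-(s : ℝ))) := by
          refine integral_mono_of_nonneg (Filter.Eventually.of_forall fun t' => ?_) ig.integrableOn
            (Filter.Eventually.of_forall fun t' => ?_)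
          · have := w_nonneg b t'
            positivity
          · have h1 := ptw k s P hk hP t t' htP ht0
            have h2 := w_nonneg b t'
            have h3 := w_le_one hb t'
            have h4 : w b t' * ‖Cor k P t t'‖ ^ s ≤ ‖Cor k P t t'‖ ^ s := by
              have : 0 ≤ ‖Cor k P t t'‖ ^ s := by positivity
              nlinarith
            show w b t * w b t' * ‖Cor k P t t'‖ ^ s ≤ _
            rw [mul_assoc]
            exact mul_le_mul_of_nonneg_left (h4.trans h1) hw0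
      _ ≤ ∫ t', w b t * ((4 * (P : ℝ)) ^ s * (1 + |t - t'| * (P : ℝ) ^ k) ^ (-(s : ℝ)) +
        D * (1 + |0 - t'| * |t|⁻¹) ^ (-(s : ℝ))) := by
          refine setIntegral_le_integral ig (Filter.Eventually.of_forall fun t' => ?_)
          show 0 ≤ _
          positivity
      _ = w b t * ((4 * (P : ℝ)) ^ s * (((P : ℝ) ^ k)⁻¹ * J0) + D * (|t| * J0)) := by
          rw [integral_const_mul, integral_add (i1.const_mul _) (i2.const_mul _), integral_const_mul,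
            integral_const_mul, e1, e2, inv_inv]
      _ = _ := by
          have q1 : (|t| ^ (-(1 / 2 : ℝ))) ^ s * |t| = |t| ^ (-((s : ℝ) / 2 - 1)) := by
            rw [← Real.rpow_natCast, ← Real.rpow_mul ht1.le]
            nth_rw 2 [← Real.rpow_one |t|]
            rw [← Real.rpow_add ht1]; congr 1; ring
          have q2 : (|t| ^ (-1 : ℝ)) ^ s * |t| = |t| ^ (-((s : ℝ) - 1)) := by
            rw [← Real.rpow_natCast, ← Real.rpow_mul ht1.le]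
            nth_rw 2 [← Real.rpow_one |t|]
            rw [← Real.rpow_add ht1]; congr 1; ring
          rw [hD, mul_pow _ (|t| ^ (-(1 / 2 : ℝ))), mul_pow _ (|t| ^ (-1 : ℝ)), ← q1, ← q2]
          ring
  obtain ⟨ta1, ta2⟩ := tail ((s : ℝ) / 2 - 1) T b (by linarith) hT0 hb
  obtain ⟨tb1, tb2⟩ := tail ((s : ℝ) - 1) T b (by linarith) hT0 hb
  have iw : Integrable (fun t : ℝ => w b t) := integrable_w (by linarith)
  have iw1 : ∫ t in {t : ℝ | T < |t|}, w b t ≤ 1 := by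
    rw [← integral_w (show (0:ℝ) < b by linarith)]
    exact setIntegral_le_integral iw (Filter.Eventually.of_forall fun t => w_nonneg b t)
  have I1 : Integrable (fun t : ℝ => (J0 * ((4 * (P : ℝ)) ^ s * ((P : ℝ) ^ k)⁻¹)) * w b t)
      (volume.restrict {t : ℝ | T < |t|}) := iw.integrableOn.const_mul _
  have I2 : Integrable (fun t : ℝ => (J0 * (64 * (1 + 2 ^ k) * (P : ℝ) ^ (2 - (k : ℝ) / 2)) ^ s) *
      (w b t * |t| ^ (-((s : ℝ) / 2 - 1)))) (volume.restrict {t : ℝ | T < |t|}) := ta1.const_mul _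
  have I3 : Integrable (fun t : ℝ => (J0 * (4 * (P : ℝ) ^ (2 - (k : ℝ))) ^ s) *
      (w b t * |t| ^ (-((s : ℝ) - 1)))) (volume.restrict {t : ℝ | T < |t|}) := tb1.const_mul _
  calc _ ≤ ∫ t in {t : ℝ | T < |t|}, ((J0 * ((4 * (P : ℝ)) ^ s * ((P : ℝ) ^ k)⁻¹)) * w b t +
      (J0 * (64 * (1 + 2 ^ k) * (P : ℝ) ^ (2 - (k : ℝ) / 2)) ^ s) * (w b t * |t| ^ (-((s : ℝ) / 2 - 1))) +
      (J0 * (4 * (P : ℝ) ^ (2 - (k : ℝ))) ^ s) * (w b t * |t| ^ (-((s : ℝ) - 1)))) := by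
        refine integral_mono_of_nonneg (Filter.Eventually.of_forall fun t => ?_) ((I1.add I2).add I3)
          (ae_restrict_of_forall_mem hS inner)
        refine integral_nonneg fun t' => ?_
        have := w_nonneg b t
        have := w_nonneg b t'
        show 0 ≤ _
        positivity
    _ = (J0 * ((4 * (P : ℝ)) ^ s * ((P : ℝ) ^ k)⁻¹)) * (∫ t in {t : ℝ | T < |t|}, w b t) +
      (J0 * (64 * (1 + 2 ^ k) * (P : ℝ) ^ (2 - (k : ℝ) / 2)) ^ s) *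
        (∫ t in {t : ℝ | T < |t|}, w b t * |t| ^ (-((s : ℝ) / 2 - 1))) +
      (J0 * (4 * (P : ℝ) ^ (2 - (k : ℝ))) ^ s) * (∫ t in {t : ℝ | T < |t|}, w b t * |t| ^ (-((s : ℝ) - 1))) := by
        have I12 : Integrable (fun t : ℝ => (J0 * ((4 * (P : ℝ)) ^ s * ((P : ℝ) ^ k)⁻¹)) * w b t +
          (J0 * (64 * (1 + 2 ^ k) * (P : ℝ) ^ (2 - (k : ℝ) / 2)) ^ s) *
          (w b t * |t| ^ (-((s : ℝ) / 2 - 1)))) (volume.restrict {t : ℝ | T < |t|}) := I1.add I2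
        rw [integral_add I12 I3, integral_add I1 I2, integral_const_mul, integral_const_mul,
          integral_const_mul]
    _ ≤ (J0 * ((4 * (P : ℝ)) ^ s * ((P : ℝ) ^ k)⁻¹)) * 1 +
      (J0 * (64 * (1 + 2 ^ k) * (P : ℝ) ^ (2 - (k : ℝ) / 2)) ^ s) *
        (2 ^ ((s : ℝ) / 2 - 1) * T ^ (1 - ((s : ℝ) / 2 - 1)) * Ja) +
      (J0 * (4 * (P : ℝ) ^ (2 - (k : ℝ))) ^ s) * (2 ^ ((s : ℝ) - 1) * T ^ (1 - ((s : ℝ) - 1)) * Jb) := by
        gcongr
    _ ≤ _ := by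
        have hR : 0 ≤ (P : ℝ) ^ ((s : ℝ) - k) := Real.rpow_nonneg hP0.le _
        have r1 : (P : ℝ) ^ s * ((P : ℝ) ^ k)⁻¹ = (P : ℝ) ^ ((s : ℝ) - k) := by
          rw [Real.rpow_sub hP0, Real.rpow_natCast, Real.rpow_natCast]; ring
        have r2 : ((P : ℝ) ^ (2 - (k : ℝ) / 2)) ^ s * T ^ (1 - ((s : ℝ) / 2 - 1)) ≤
            (P : ℝ) ^ ((s : ℝ) - k) := by
          rw [hT, ← Real.rpow_natCast, ← Real.rpow_mul hP0.le, ← Real.rpow_mul hP0.le,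
            ← Real.rpow_add hP0]
          apply Real.rpow_le_rpow_of_exponent_le hP1
          nlinarith
        have r3 : ((P : ℝ) ^ (2 - (k : ℝ))) ^ s * T ^ (1 - ((s : ℝ) - 1)) ≤
            (P : ℝ) ^ ((s : ℝ) - k) := by
          rw [hT, ← Real.rpow_natCast, ← Real.rpow_mul hP0.le, ← Real.rpow_mul hP0.le,
            ← Real.rpow_add hP0]
          apply Real.rpow_le_rpow_of_exponent_le hP1
          nlinarith
        have s1 : (J0 * ((4 * (P : ℝ)) ^ s * ((P : ℝ) ^ k)⁻¹)) * 1 = (J0 * 4 ^ s) * (P : ℝ) ^ ((s : ℝ) - k) := by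
          rw [mul_pow, ← r1]; ring
        have s2 : (J0 * (64 * (1 + 2 ^ k) * (P : ℝ) ^ (2 - (k : ℝ) / 2)) ^ s) *
            (2 ^ ((s : ℝ) / 2 - 1) * T ^ (1 - ((s : ℝ) / 2 - 1)) * Ja) ≤
            (J0 * (64 * (1 + 2 ^ k)) ^ s * (2 ^ ((s : ℝ) / 2 - 1) * Ja)) * (P : ℝ) ^ ((s : ℝ) - k) := by
          rw [mul_pow]
          calc _ = (J0 * (64 * (1 + 2 ^ k)) ^ s * (2 ^ ((s : ℝ) / 2 - 1) * Ja)) *
                (((P : ℝ) ^ (2 - (k : ℝ) / 2)) ^ s * T ^ (1 - ((s : ℝ) / 2 - 1))) := by ring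
            _ ≤ _ := mul_le_mul_of_nonneg_left r2 (by positivity)
        have s3 : (J0 * (4 * (P : ℝ) ^ (2 - (k : ℝ))) ^ s) * (2 ^ ((s : ℝ) - 1) * T ^ (1 - ((s : ℝ) - 1)) * Jb) ≤
            (J0 * 4 ^ s * (2 ^ ((s : ℝ) - 1) * Jb)) * (P : ℝ) ^ ((s : ℝ) - k) := by
          rw [mul_pow]
          calc _ = (J0 * 4 ^ s * (2 ^ ((s : ℝ) - 1) * Jb)) *
                (((P : ℝ) ^ (2 - (k : ℝ))) ^ s * T ^ (1 - ((s : ℝ) - 1))) := by ring
            _ ≤ _ := mul_le_mul_of_nonneg_left r3 (by positivity)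
        rw [s1]
        calc _ ≤ (J0 * 4 ^ s) * (P : ℝ) ^ ((s : ℝ) - k) +
              (J0 * (64 * (1 + 2 ^ k)) ^ s * (2 ^ ((s : ℝ) / 2 - 1) * Ja)) * (P : ℝ) ^ ((s : ℝ) - k) +
              (J0 * 4 ^ s * (2 ^ ((s : ℝ) - 1) * Jb)) * (P : ℝ) ^ ((s : ℝ) - k) := by
                linarith
          _ ≤ _ := by nlinarith

end Pool.H19.Wa
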