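import Pool.Agent.H19.Wa.Vdc

/-!
# Module PHASE: the integrals over y for a fixed difference h (uses only vdc1, vdc2)

Phase ψ(y) = t y^k - t' (y+h)^k, ψ' = k D, D = t y^(k-1) - t' (y+h)^(k-1),
ψ'' = k (k-1) E, E = t y^(k-2) - t' (y+h)^(k-2), with y, y+h in [P, 2P].

* identity: (y+h) E - D = t h y^(k-2), so |D| + 2P |E| >= |t||h|P^(k-2): either |D| >= |t||h|P^(k-2)/2 or
  |E| >= |t||h|P^(k-3)/4.
* sign changes of E (`exists_split`): E(y) = y^(k-2) (t - t' r(y)) with r(y) = ((y+h)/y)^(k-2) monotone in y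
  (decreasing for h >= 0, increasing for h <= 0), so E >= 0 on one side of some c and E <= 0 on the other side.
* `phase_near`: split at c and use vdc2 twice with δ = (k/2)|t||h|P^(k-2), lam = (k(k-1)/4)|t||h|P^(k-3). With
  X = |t||h|P^(k-3): X P^2 >= 1 gives X P >= sqrt X, so 2/δ <= 1/sqrt X (k >= 4), 4/sqrt lam <= 2.31/sqrt X; total
  6.62/sqrt X <= 8/sqrt X.
* `phase_far`: |D| >= |t'|P^(k-1) - |t|(2P)^(k-1) >= |t'|P^(k-1)/2, so |ψ'| >= 2|t'|P^(k-1); split at c, vdc1 twice.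
* `phase_diag`: t = t': |D| = |t||y^(k-1) - (y+h)^(k-1)| >= (k-1)|t||h|P^(k-2), E has one sign; vdc1.
* `phase_zero`: phase u y^k; vdc1 with ρ = |u| P^(k-1).
-/

set_option autoImplicit false

namespace Pool.H19.Wa

open MeasureTheory Set

/-- a monotone continuous function has one sign change -/
theorem split_mono {g : ℝ → ℝ} {a b : ℝ} (hab : a ≤ b) (hg : ContinuousOn g (Icc a b))
    (hm : MonotoneOn g (Icc a b)) :
    ∃ c ∈ Icc a b, (∀ y ∈ Icc a c, g y ≤ 0) ∧ (∀ y ∈ Icc c b, 0 ≤ g y) ∨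
      (c = a ∧ (∀ y ∈ Icc a b, 0 ≤ g y)) ∨ (c = b ∧ (∀ y ∈ Icc a b, g y ≤ 0)) := by
  have ha : a ∈ Icc a b := left_mem_Icc.2 hab
  have hb : b ∈ Icc a b := right_mem_Icc.2 hab
  by_cases h1 : 0 ≤ g a
  · exact ⟨a, ha, Or.inr (Or.inl ⟨rfl, fun y hy => h1.trans (hm ha hy hy.1)⟩)⟩
  by_cases h2 : g b ≤ 0
  · exact ⟨b, hb, Or.inr (Or.inr ⟨rfl, fun y hy => (hm hy hb hy.2).trans h2⟩)⟩
  push Not at h1 h2
  obtain ⟨c, hc, hc0⟩ := intermediate_value_Icc hab hg ⟨h1.le, h2.le⟩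
  refine ⟨c, hc, Or.inl ⟨fun y hy => ?_, fun y hy => ?_⟩⟩
  · exact (hm ⟨hy.1, hy.2.trans hc.2⟩ hc hy.2).trans hc0.le
  · exact hc0.ge.trans (hm hc ⟨hc.1.trans hy.1, hy.2⟩ hy.1)

theorem split_mono' {g : ℝ → ℝ} {a b : ℝ} (hab : a ≤ b) (hg : ContinuousOn g (Icc a b))
    (hm : MonotoneOn g (Icc a b) ∨ AntitoneOn g (Icc a b)) :
    ∃ c ∈ Icc a b,
      ((∀ y ∈ Icc a c, 0 ≤ g y) ∨ (∀ y ∈ Icc a c, g y ≤ 0)) ∧
      ((∀ y ∈ Icc c b, 0 ≤ g y) ∨ (∀ y ∈ Icc c b, g y ≤ 0)) := by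
  rcases hm with hm | hm
  · obtain ⟨c, hc, h⟩ := split_mono hab hg hm
    refine ⟨c, hc, ?_⟩
    rcases h with ⟨h1, h2⟩ | ⟨h1, h2⟩ | ⟨h1, h2⟩
    · exact ⟨Or.inr h1, Or.inl h2⟩
    · subst h1
      exact ⟨Or.inl fun y hy => h2 y ⟨hy.1, hy.2.trans hc.2⟩, Or.inl h2⟩
    · subst h1
      exact ⟨Or.inr h2, Or.inr fun y hy => h2 y ⟨hc.1.trans hy.1, hy.2⟩⟩
  · obtain ⟨c, hc, h⟩ := split_mono (g := fun y => -g y) hab hg.neg
      (fun x hx y hy hxy => neg_le_neg (hm hx hy hxy))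
    refine ⟨c, hc, ?_⟩
    simp only [Left.neg_nonpos_iff, Left.nonneg_neg_iff] at h
    rcases h with ⟨h1, h2⟩ | ⟨h1, h2⟩ | ⟨h1, h2⟩
    · exact ⟨Or.inl h1, Or.inr h2⟩
    · subst h1
      exact ⟨Or.inr fun y hy => h2 y ⟨hy.1, hy.2.trans hc.2⟩, Or.inr h2⟩
    · subst h1
      exact ⟨Or.inl h2, Or.inl fun y hy => h2 y ⟨hc.1.trans hy.1, hy.2⟩⟩

/-- one sign change of the second derivative -/
theorem exists_split (k : ℕ) (hk : 4 ≤ k) (t t' h a b : ℝ) (ha : 0 < a) (hab : a ≤ b)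
    (ha' : 0 < a + h) :
    ∃ c ∈ Icc a b,
      ((∀ y ∈ Icc a c, 0 ≤ t * y ^ (k - 2) - t' * (y + h) ^ (k - 2)) ∨
        (∀ y ∈ Icc a c, t * y ^ (k - 2) - t' * (y + h) ^ (k - 2) ≤ 0)) ∧
      ((∀ y ∈ Icc c b, 0 ≤ t * y ^ (k - 2) - t' * (y + h) ^ (k - 2)) ∨
        (∀ y ∈ Icc c b, t * y ^ (k - 2) - t' * (y + h) ^ (k - 2) ≤ 0)) := by
  set m := k - 2 with hm
  set g : ℝ → ℝ := fun y => t - t' * ((y + h) / y) ^ m with hg
  have hpos : ∀ y ∈ Icc a b, 0 < y := fun y hy => lt_of_lt_of_le ha hy.1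
  have hpos' : ∀ y ∈ Icc a b, 0 < y + h := fun y hy => by linarith [hy.1]
  have heq : ∀ y ∈ Icc a b, t * y ^ m - t' * (y + h) ^ m = y ^ m * g y := by
    intro y hy
    have h0 : y ≠ 0 := (hpos y hy).ne'
    simp only [hg]
    rw [div_pow]
    field_simp
  have hcont : ContinuousOn g (Icc a b) := by
    refine continuousOn_const.sub (continuousOn_const.mul (ContinuousOn.pow ?_ m))
    exact (continuousOn_id.add continuousOn_const).div continuousOn_id
      (fun y hy => (hpos y hy).ne')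
  -- monotonicity of the ratio
  have hratio : (∀ x ∈ Icc a b, ∀ y ∈ Icc a b, x ≤ y →
      ((x + h) / x) ^ m ≤ ((y + h) / y) ^ m) ∨ (∀ x ∈ Icc a b, ∀ y ∈ Icc a b, x ≤ y →
      ((y + h) / y) ^ m ≤ ((x + h) / x) ^ m) := by
    rcases le_total 0 h with h0 | h0
    · right
      intro x hx y hy hxy
      refine pow_le_pow_left₀ (div_nonneg (hpos' y hy).le (hpos y hy).le) ?_ m
      rw [div_le_div_iff₀ (hpos y hy) (hpos x hx)]
      nlinarith
    · left
      intro x hx y hy hxy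
      refine pow_le_pow_left₀ (div_nonneg (hpos' x hx).le (hpos x hx).le) ?_ m
      rw [div_le_div_iff₀ (hpos x hx) (hpos y hy)]
      nlinarith
  have hmono : MonotoneOn g (Icc a b) ∨ AntitoneOn g (Icc a b) := by
    rcases hratio with hr | hr <;> rcases le_total 0 t' with h0 | h0
    · right
      intro x hx y hy hxy
      have := mul_le_mul_of_nonneg_left (hr x hx y hy hxy) h0
      simp only [hg]
      linarith
    · left
      intro x hx y hy hxy
      have := mul_le_mul_of_nonpos_left (hr x hx y hy hxy) h0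
      simp only [hg]
      linarith
    · left
      intro x hx y hy hxy
      have := mul_le_mul_of_nonneg_left (hr x hx y hy hxy) h0
      simp only [hg]
      linarith
    · right
      intro x hx y hy hxy
      have := mul_le_mul_of_nonpos_left (hr x hx y hy hxy) h0
      simp only [hg]
      linarith
  obtain ⟨c, hc, h1, h2⟩ := split_mono' hab hcont hmono
  have hsub1 : ∀ y ∈ Icc a c, y ∈ Icc a b := fun y hy => ⟨hy.1, hy.2.trans hc.2⟩
  have hsub2 : ∀ y ∈ Icc c b, y ∈ Icc a b := fun y hy => ⟨hc.1.trans hy.1, hy.2⟩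
  refine ⟨c, hc, ?_, ?_⟩
  · rcases h1 with h1 | h1
    · left
      intro y hy
      rw [heq y (hsub1 y hy)]
      exact mul_nonneg (pow_nonneg (hpos y (hsub1 y hy)).le _) (h1 y hy)
    · right
      intro y hy
      rw [heq y (hsub1 y hy)]
      exact mul_nonpos_of_nonneg_of_nonpos (pow_nonneg (hpos y (hsub1 y hy)).le _) (h1 y hy)
  · rcases h2 with h1 | h1
    · left
      intro y hy
      rw [heq y (hsub2 y hy)]
      exact mul_nonneg (pow_nonneg (hpos y (hsub2 y hy)).le _) (h1 y hy)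
    · right
      intro y hy
      rw [heq y (hsub2 y hy)]
      exact mul_nonpos_of_nonneg_of_nonpos (pow_nonneg (hpos y (hsub2 y hy)).le _) (h1 y hy)

theorem phase_d1 (k : ℕ) (t t' h y : ℝ) :
    HasDerivAt (fun y => t * y ^ k - t' * (y + h) ^ k)
      (k * (t * y ^ (k - 1) - t' * (y + h) ^ (k - 1))) y := by
  have h1 : HasDerivAt (fun y : ℝ => t * y ^ k) (t * (k * y ^ (k - 1))) y :=
    (hasDerivAt_pow k y).const_mul t
  have h2 : HasDerivAt (fun y : ℝ => (y + h) ^ k) (k * (y + h) ^ (k - 1) * 1) y :=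
    ((hasDerivAt_id y).add_const h).fun_pow k
  refine (h1.fun_sub (h2.const_mul t')).congr_deriv ?_
  ring

theorem phase_d2 (k : ℕ) (t t' h y : ℝ) :
    HasDerivAt (fun y => (k : ℝ) * (t * y ^ (k - 1) - t' * (y + h) ^ (k - 1)))
      (k * (((k - 1 : ℕ) : ℝ) * (t * y ^ (k - 2) - t' * (y + h) ^ (k - 2)))) y := by
  have h1 := (phase_d1 (k - 1) t t' h y).const_mul (k : ℝ)
  have h2 : k - 1 - 1 = k - 2 := by omega
  rw [h2] at h1
  exact h1

theorem phase_c (k : ℕ) (t t' h : ℝ) (S : Set ℝ) : ContinuousOn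
    (fun y : ℝ => (k : ℝ) * (((k - 1 : ℕ) : ℝ) * (t * y ^ (k - 2) - t' * (y + h) ^ (k - 2)))) S := by
  fun_prop

theorem phase_sign (k : ℕ) {t t' h : ℝ} {S : Set ℝ}
    (hs : (∀ y ∈ S, 0 ≤ t * y ^ (k - 2) - t' * (y + h) ^ (k - 2)) ∨
      (∀ y ∈ S, t * y ^ (k - 2) - t' * (y + h) ^ (k - 2) ≤ 0)) :
    (∀ y ∈ S, 0 ≤ (k : ℝ) * (((k - 1 : ℕ) : ℝ) * (t * y ^ (k - 2) - t' * (y + h) ^ (k - 2)))) ∨
      (∀ y ∈ S, (k : ℝ) * (((k - 1 : ℕ) : ℝ) *
        (t * y ^ (k - 2) - t' * (y + h) ^ (k - 2))) ≤ 0) := by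
  rcases hs with hs | hs
  · left
    intro y hy
    exact mul_nonneg (Nat.cast_nonneg _) (mul_nonneg (Nat.cast_nonneg _) (hs y hy))
  · right
    intro y hy
    exact mul_nonpos_of_nonneg_of_nonpos (Nat.cast_nonneg _)
      (mul_nonpos_of_nonneg_of_nonpos (Nat.cast_nonneg _) (hs y hy))

theorem phase_int (k : ℕ) (t t' h a b : ℝ) :
    IntervalIntegrable (fun y : ℝ => e (t * y ^ k - t' * (y + h) ^ k)) volume a b := by
  refine Continuous.intervalIntegrable ?_ _ _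
  refine continuous_e.comp ?_
  fun_prop

theorem phase_near (k P : ℕ) (hk : 4 ≤ k) (hP : 1 ≤ P) (t t' h a b : ℝ) (hab : a ≤ b)
    (ha : (P : ℝ) ≤ a) (hb : b ≤ 2 * P) (ha' : (P : ℝ) ≤ a + h) (hb' : b + h ≤ 2 * P)
    (hbig : 1 ≤ |t| * |h| * (P : ℝ) ^ (k - 1)) :
    ‖∫ y in a..b, e (t * y ^ k - t' * (y + h) ^ k)‖ ≤ 8 / Real.sqrt (|t| * |h| * (P : ℝ) ^ (k - 3)) := by
  have hP0 : (0 : ℝ) < P := by exact_mod_cast hP
  have hk4 : (4 : ℝ) ≤ k := by exact_mod_cast hk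
  have hk1 : ((k - 1 : ℕ) : ℝ) = k - 1 := by
    rw [Nat.cast_sub (by omega)]
    simp
  set X : ℝ := |t| * |h| * (P : ℝ) ^ (k - 3) with hX
  have hth : 0 < |t| * |h| := by
    by_contra h0
    push Not at h0
    have h1 : |t| * |h| = 0 := le_antisymm h0 (by positivity)
    rw [h1, zero_mul] at hbig
    linarith
  have hX0 : 0 < X := by positivity
  have hXP : 1 ≤ X * P ^ 2 := by
    have : k - 1 = (k - 3) + 2 := by omega
    rw [this, pow_add, ← mul_assoc] at hbig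
    exact hbig
  have hXP1 : |t| * |h| * (P : ℝ) ^ (k - 2) = X * P := by
    have : k - 2 = (k - 3) + 1 := by omega
    rw [this, pow_succ, ← mul_assoc]
  set δ : ℝ := k / 2 * (X * P) with hδ
  set lam : ℝ := k * (k - 1) / 4 * X with hlam
  have hδ0 : 0 < δ := by positivity
  have hlam0 : 0 < lam := by
    have : (0 : ℝ) < k * (k - 1) := by nlinarith
    positivity
  have hor : ∀ y ∈ Icc a b, δ ≤ |(k : ℝ) * (t * y ^ (k - 1) - t' * (y + h) ^ (k - 1))| ∨
      lam ≤ |(k : ℝ) * (((k - 1 : ℕ) : ℝ) * (t * y ^ (k - 2) - t' * (y + h) ^ (k - 2)))| := by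
    intro y hy
    set D := t * y ^ (k - 1) - t' * (y + h) ^ (k - 1) with hD
    set E := t * y ^ (k - 2) - t' * (y + h) ^ (k - 2) with hE
    have hid : (y + h) * E - D = t * h * y ^ (k - 2) := by
      have : k - 1 = (k - 2) + 1 := by omega
      rw [hE, hD, this, pow_succ, pow_succ]
      ring
    have hy0 : (P : ℝ) ≤ y := ha.trans hy.1
    have hyh0 : 0 ≤ y + h := by linarith [hy.1]
    have hyh1 : y + h ≤ 2 * P := by linarith [hy.2]
    have h1 : X * P ≤ 2 * P * |E| + |D| := by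
      calc X * P = |t| * |h| * (P : ℝ) ^ (k - 2) := hXP1.symm
        _ ≤ |t| * |h| * y ^ (k - 2) :=
            mul_le_mul_of_nonneg_left (pow_le_pow_left₀ hP0.le hy0 _) hth.le
        _ = |t * h * y ^ (k - 2)| := by
            rw [abs_mul, abs_mul, abs_of_nonneg (pow_nonneg (hP0.le.trans hy0) _)]
        _ = |(y + h) * E - D| := by rw [hid]
        _ ≤ |(y + h) * E| + |D| := abs_sub _ _
        _ = (y + h) * |E| + |D| := by rw [abs_mul, abs_of_nonneg hyh0]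
        _ ≤ 2 * P * |E| + |D| := by
            have := mul_le_mul_of_nonneg_right hyh1 (abs_nonneg E)
            linarith
    rcases le_or_gt (X * P / 2) |D| with h2 | h2
    · left
      rw [abs_mul, abs_of_nonneg (by positivity : (0 : ℝ) ≤ k)]
      have := mul_le_mul_of_nonneg_left h2 (by positivity : (0 : ℝ) ≤ k)
      calc δ = k * (X * P / 2) := by rw [hδ]; ring
        _ ≤ _ := this
    · right
      have h3 : X / 4 ≤ |E| := by
        have h4 : P * (X / 4) ≤ P * |E| := by linarith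
        exact le_of_mul_le_mul_left h4 hP0
      rw [abs_mul, abs_mul, hk1, abs_of_nonneg (by positivity : (0 : ℝ) ≤ k),
        abs_of_nonneg (by linarith : (0 : ℝ) ≤ k - 1)]
      have h5 : (0 : ℝ) ≤ k * (k - 1) := by nlinarith
      have := mul_le_mul_of_nonneg_left h3 h5
      calc lam = k * (k - 1) * (X / 4) := by rw [hlam]; ring
        _ ≤ k * (k - 1) * |E| := this
        _ = _ := by ring
  have hsub : ∀ c d, a ≤ c → c ≤ d → d ≤ b →
      ((∀ y ∈ Icc c d, 0 ≤ t * y ^ (k - 2) - t' * (y + h) ^ (k - 2)) ∨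
      (∀ y ∈ Icc c d, t * y ^ (k - 2) - t' * (y + h) ^ (k - 2) ≤ 0)) →
      ‖∫ y in c..d, e (t * y ^ k - t' * (y + h) ^ k)‖ ≤ 2 / δ + 4 / Real.sqrt lam := by
    intro c d hac hcd hdb hs
    have hss : Icc c d ⊆ Icc a b := Icc_subset_Icc hac hdb
    exact vdc2 hcd hδ0 hlam0 (fun y _ => phase_d1 k t t' h y) (fun y _ => phase_d2 k t t' h y)
      (phase_c k t t' h _) (phase_sign k hs) (fun y hy => hor y (hss hy))
  obtain ⟨c, hc, hs1, hs2⟩ := exists_split k hk t t' h a b (by linarith) hab (by linarith)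
  have e1 := hsub a c le_rfl hc.1 hc.2 hs1
  have e2 := hsub c b hc.1 hc.2 le_rfl hs2
  rw [← intervalIntegral.integral_add_adjacent_intervals (phase_int k t t' h a c)
    (phase_int k t t' h c b)]
  refine (norm_add_le _ _).trans ?_
  -- numbers
  set r := Real.sqrt X with hr
  have hr0 : 0 < r := Real.sqrt_pos.2 hX0
  have hrr : r * r = X := Real.mul_self_sqrt hX0.le
  have hrXP : r ≤ X * P := by
    have h1 : r ^ 2 ≤ (X * P) ^ 2 := by
      calc r ^ 2 = X := by rw [sq, hrr]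
        _ = X * 1 := (mul_one X).symm
        _ ≤ X * (X * P ^ 2) := mul_le_mul_of_nonneg_left hXP hX0.le
        _ = (X * P) ^ 2 := by ring
    exact le_of_sq_le_sq h1 (by positivity)
  have hδ1 : 2 / δ ≤ 1 / r := by
    rw [div_le_div_iff₀ hδ0 hr0, hδ]
    nlinarith
  have hlam1 : 4 / Real.sqrt lam ≤ 3 / r := by
    have h1 : 4 / 3 * r ≤ Real.sqrt lam := by
      apply Real.le_sqrt_of_sq_le
      rw [mul_pow, sq r, hrr, hlam]
      refine mul_le_mul_of_nonneg_right ?_ hX0.le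
      nlinarith
    have h2 : 0 < Real.sqrt lam := Real.sqrt_pos.2 hlam0
    rw [div_le_div_iff₀ h2 hr0]
    linarith
  have h8 : 8 / r = 2 * (1 / r + 3 / r) := by ring
  rw [h8]
  linarith

theorem phase_far (k P : ℕ) (hk : 4 ≤ k) (hP : 1 ≤ P) (t t' h a b : ℝ) (hab : a ≤ b)
    (ha : (P : ℝ) ≤ a) (hb : b ≤ 2 * P) (ha' : (P : ℝ) ≤ a + h) (hb' : b + h ≤ 2 * P)
    (h0 : t' ≠ 0) (hfar : 2 ^ k * |t| ≤ |t'|) :
    ‖∫ y in a..b, e (t * y ^ k - t' * (y + h) ^ k)‖ ≤ 1 / (|t'| * (P : ℝ) ^ (k - 1)) := by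
  have hP0 : (0 : ℝ) < P := by exact_mod_cast hP
  have hk4 : (4 : ℝ) ≤ k := by exact_mod_cast hk
  have ht' : 0 < |t'| := abs_pos.2 h0
  set Y : ℝ := |t'| * (P : ℝ) ^ (k - 1) with hY
  have hY0 : 0 < Y := by positivity
  have hlow : ∀ y ∈ Icc a b, 2 * Y ≤ |(k : ℝ) * (t * y ^ (k - 1) - t' * (y + h) ^ (k - 1))| := by
    intro y hy
    have hy0 : (P : ℝ) ≤ y := ha.trans hy.1
    have hy1 : y ≤ 2 * P := hy.2.trans hb
    have hyh0 : (P : ℝ) ≤ y + h := by linarith [hy.1]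
    have hy00 : 0 ≤ y := hP0.le.trans hy0
    have h1 : Y / 2 ≤ |t * y ^ (k - 1) - t' * (y + h) ^ (k - 1)| := by
      have h2 : |t * y ^ (k - 1)| ≤ Y / 2 := by
        rw [abs_mul, abs_of_nonneg (pow_nonneg hy00 _)]
        calc |t| * y ^ (k - 1) ≤ |t| * (2 * P) ^ (k - 1) :=
              mul_le_mul_of_nonneg_left (pow_le_pow_left₀ hy00 hy1 _) (abs_nonneg _)
          _ = (2 ^ k * |t|) * (P : ℝ) ^ (k - 1) / 2 := by
              have : k = (k - 1) + 1 := by omega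
              rw [mul_pow]
              conv_rhs => rw [this, pow_succ, ← this]
              ring
          _ ≤ |t'| * (P : ℝ) ^ (k - 1) / 2 := by
              have := mul_le_mul_of_nonneg_right hfar (by positivity : (0 : ℝ) ≤ (P : ℝ) ^ (k - 1))
              linarith
      have h3 : Y ≤ |t' * (y + h) ^ (k - 1)| := by
        rw [abs_mul, abs_of_nonneg (pow_nonneg (hP0.le.trans hyh0) _)]
        exact mul_le_mul_of_nonneg_left (pow_le_pow_left₀ hP0.le hyh0 _) (abs_nonneg _)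
      have h4 := abs_sub_abs_le_abs_sub (t' * (y + h) ^ (k - 1)) (t * y ^ (k - 1))
      rw [abs_sub_comm] at h4
      linarith
    rw [abs_mul, abs_of_nonneg (by positivity : (0 : ℝ) ≤ k)]
    nlinarith
  have hsub : ∀ c d, a ≤ c → c ≤ d → d ≤ b →
      ((∀ y ∈ Icc c d, 0 ≤ t * y ^ (k - 2) - t' * (y + h) ^ (k - 2)) ∨
      (∀ y ∈ Icc c d, t * y ^ (k - 2) - t' * (y + h) ^ (k - 2) ≤ 0)) →
      ‖∫ y in c..d, e (t * y ^ k - t' * (y + h) ^ k)‖ ≤ 1 / (2 * Y) := by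
    intro c d hac hcd hdb hs
    have hss : Icc c d ⊆ Icc a b := Icc_subset_Icc hac hdb
    exact vdc1 hcd (by positivity) (fun y _ => phase_d1 k t t' h y)
      (fun y _ => phase_d2 k t t' h y)
      (phase_c k t t' h _) (phase_sign k hs) (fun y hy => hlow y (hss hy))
  obtain ⟨c, hc, hs1, hs2⟩ := exists_split k hk t t' h a b (by linarith) hab (by linarith)
  have e1 := hsub a c le_rfl hc.1 hc.2 hs1
  have e2 := hsub c b hc.1 hc.2 le_rfl hs2
  rw [← intervalIntegral.integral_add_adjacent_intervals (phase_int k t t' h a c)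
    (phase_int k t t' h c b)]
  refine (norm_add_le _ _).trans ?_
  have h8 : 1 / Y = 1 / (2 * Y) + 1 / (2 * Y) := by
    field_simp
    norm_num
  rw [h8]
  linarith

theorem pow_sub_pow_lower (n : ℕ) {p x z : ℝ} (hp : 0 ≤ p) (hx : p ≤ x) (hz : p ≤ z) :
    |x - z| * (n * p ^ (n - 1)) ≤ |x ^ n - z ^ n| := by
  rw [← (Commute.all x z).geom_sum₂_mul n, abs_mul, mul_comm]
  refine mul_le_mul_of_nonneg_right ?_ (abs_nonneg _)
  refine le_trans ?_ (le_abs_self _)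
  have h1 : (n : ℝ) * p ^ (n - 1) = ∑ _i ∈ Finset.range n, p ^ (n - 1) := by
    rw [Finset.sum_const, Finset.card_range, nsmul_eq_mul]
  rw [h1]
  refine Finset.sum_le_sum fun i hi => ?_
  simp only [Finset.mem_range] at hi
  have h2 : p ^ (n - 1) = p ^ i * p ^ (n - 1 - i) := by
    rw [← pow_add]
    congr 1
    omega
  rw [h2]
  exact mul_le_mul (pow_le_pow_left₀ hp hx _) (pow_le_pow_left₀ hp hz _) (by positivity)
    (pow_nonneg (hp.trans hx) _)

theorem phase_diag (k P : ℕ) (hk : 4 ≤ k) (hP : 1 ≤ P) (t h a b : ℝ) (hab : a ≤ b)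
    (ha : (P : ℝ) ≤ a) (ha' : (P : ℝ) ≤ a + h) (h0 : t ≠ 0) (hh : h ≠ 0) :
    ‖∫ y in a..b, e (t * y ^ k - t * (y + h) ^ k)‖ ≤ 1 / (|t| * |h| * (P : ℝ) ^ (k - 2)) := by
  have hP0 : (0 : ℝ) < P := by exact_mod_cast hP
  have hk4 : (4 : ℝ) ≤ k := by exact_mod_cast hk
  have ht' : 0 < |t| := abs_pos.2 h0
  have hh' : 0 < |h| := abs_pos.2 hh
  refine vdc1 hab (by positivity) (fun y _ => phase_d1 k t t h y) (fun y _ => phase_d2 k t t h y)
      (phase_c k t t h _) (phase_sign k ?_) ?_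
  · have hyp : ∀ y ∈ Icc a b, 0 ≤ y ∧ 0 ≤ y + h := fun y hy =>
      ⟨by linarith [hy.1], by linarith [hy.1]⟩
    have hcmp : (∀ y ∈ Icc a b, y ^ (k - 2) ≤ (y + h) ^ (k - 2)) ∨
        (∀ y ∈ Icc a b, (y + h) ^ (k - 2) ≤ y ^ (k - 2)) := by
      rcases le_total 0 h with hs | hs
      · left
        intro y hy
        exact pow_le_pow_left₀ (hyp y hy).1 (by linarith) _
      · right
        intro y hy
        exact pow_le_pow_left₀ (hyp y hy).2 (by linarith) _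
    rcases hcmp with hc | hc <;> rcases le_total 0 t with hs | hs
    · right
      intro y hy
      have := mul_le_mul_of_nonneg_left (hc y hy) hs
      linarith
    · left
      intro y hy
      have := mul_le_mul_of_nonpos_left (hc y hy) hs
      linarith
    · left
      intro y hy
      have := mul_le_mul_of_nonneg_left (hc y hy) hs
      linarith
    · right
      intro y hy
      have := mul_le_mul_of_nonpos_left (hc y hy) hs
      linarith
  · intro y hy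
    have hy0 : (P : ℝ) ≤ y := ha.trans hy.1
    have hyh0 : (P : ℝ) ≤ y + h := by linarith [hy.1]
    have h1 := pow_sub_pow_lower (k - 1) hP0.le hy0 hyh0
    have h2 : |y - (y + h)| = |h| := by
      rw [show y - (y + h) = -h by ring, abs_neg]
    have h3 : k - 1 - 1 = k - 2 := by omega
    rw [h2, h3, Nat.cast_sub (by omega : 1 ≤ k)] at h1
    rw [← mul_sub, abs_mul, abs_mul, abs_of_nonneg (by positivity : (0 : ℝ) ≤ k)]
    have h4 : (0 : ℝ) < (P : ℝ) ^ (k - 2) := by positivity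
    have h5 : |h| * (P : ℝ) ^ (k - 2) ≤ |y ^ (k - 1) - (y + h) ^ (k - 1)| := by
      refine le_trans ?_ h1
      refine mul_le_mul_of_nonneg_left ?_ hh'.le
      push_cast
      nlinarith
    have h6 := mul_le_mul_of_nonneg_left h5 ht'.le
    have h7 : 0 ≤ |t| * |y ^ (k - 1) - (y + h) ^ (k - 1)| := by positivity
    calc |t| * |h| * (P : ℝ) ^ (k - 2) = |t| * (|h| * (P : ℝ) ^ (k - 2)) := by ring
      _ ≤ |t| * |y ^ (k - 1) - (y + h) ^ (k - 1)| := h6
      _ ≤ k * (|t| * |y ^ (k - 1) - (y + h) ^ (k - 1)|) := by nlinarith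

theorem phase_zero (k P : ℕ) (hk : 4 ≤ k) (hP : 1 ≤ P) (u a b : ℝ) (hab : a ≤ b)
    (ha : (P : ℝ) ≤ a) (h0 : u ≠ 0) :
    ‖∫ y in a..b, e (u * y ^ k)‖ ≤ 1 / (|u| * (P : ℝ) ^ (k - 1)) := by
  have hP0 : (0 : ℝ) < P := by exact_mod_cast hP
  have hk4 : (4 : ℝ) ≤ k := by exact_mod_cast hk
  have ht' : 0 < |u| := abs_pos.2 h0
  have h1 : ∀ y ∈ Icc a b, HasDerivAt (fun y : ℝ => u * y ^ k) (u * (k * y ^ (k - 1))) y :=
    fun y _ => (hasDerivAt_pow k y).const_mul u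
  have h2 : ∀ y ∈ Icc a b, HasDerivAt (fun y : ℝ => u * (k * y ^ (k - 1)))
      (u * (k * (((k - 1 : ℕ) : ℝ) * y ^ (k - 1 - 1)))) y :=
    fun y _ => ((hasDerivAt_pow (k - 1) y).const_mul (k : ℝ)).const_mul u
  refine vdc1 hab (by positivity) h1 h2 (by fun_prop) ?_ ?_
  · have hy : ∀ y ∈ Icc a b, 0 ≤ (k : ℝ) * (((k - 1 : ℕ) : ℝ) * y ^ (k - 1 - 1)) := by
      intro y hy
      have : 0 ≤ y := by linarith [hy.1]
      positivity
    rcases le_total 0 u with hs | hs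
    · exact Or.inl fun y hy' => mul_nonneg hs (hy y hy')
    · exact Or.inr fun y hy' => mul_nonpos_of_nonpos_of_nonneg hs (hy y hy')
  · intro y hy
    have hy0 : (P : ℝ) ≤ y := ha.trans hy.1
    have h3 : (P : ℝ) ^ (k - 1) ≤ y ^ (k - 1) := pow_le_pow_left₀ hP0.le hy0 _
    have h4 : (0 : ℝ) < (P : ℝ) ^ (k - 1) := by positivity
    rw [abs_mul, abs_mul, abs_of_nonneg (by positivity : (0 : ℝ) ≤ k),
      abs_of_nonneg (pow_nonneg (hP0.le.trans hy0) _)]
    refine mul_le_mul_of_nonneg_left ?_ ht'.le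
    nlinarith

end Pool.H19.Wa
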