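import Pool.Agent.H19.Wa.Major
import Pool.Agent.H19.Wa.MinorA
import Pool.Agent.H19.Wa.MinorB
import Pool.Agent.H19.Wa.MeanLow

/-!
# Module PROB: the probability that a target is missed

b = P^ε'. On the set where all |Σ(x_i+α_i)^k - τ| >= η: R <= P^s exp(-π b η²) <= mean/4 for P large. By rep, mean:
R - mean = ∫_{|t|<=t1} w e (∏f - v^s) + ∫_{t1<|t|<=T} w e ∏ f + ∫_{|t|>T} w e ∏ f - ∫_{|t|>t1} w e v^s, T = P^(-k/2) >= t1.
The first is <= C P^(s-1-k), the last <= C (D1, D2), both <= mean/8 for P large. So |M1| + |M2| >= mean/2, and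
Chebyshev with second_moment, minorA, minorB gives probability <= C P^(s-k)(1+log P)^s / mean^2.
-/

set_option autoImplicit false

namespace Pool.H19.Wa

open MeasureTheory Set Filter Topology

/-- integrand of the representation -/
noncomputable def gg_pr (k P s : ℕ) (b tau : ℝ) (al : Fin s → ℝ) (t : ℝ) : ℂ :=
  ((w b t : ℝ) : ℂ) * e (-(t * tau)) * ∏ i, f k P t (al i)

theorem continuous_w_pr (b : ℝ) : Continuous (w b) := by
  unfold w
  fun_prop

theorem continuous_f1_pr (k P : ℕ) (a : ℝ) : Continuous (fun t : ℝ => f k P t a) :=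
  (continuous_f k P).comp (by fun_prop : Continuous (fun t : ℝ => (t, a)))

theorem continuous_gg_pr (k P s : ℕ) (b tau : ℝ) (al : Fin s → ℝ) :
    Continuous (gg_pr k P s b tau al) := by
  unfold gg_pr
  refine Continuous.mul (Continuous.mul ?_ ?_) ?_
  · exact Complex.continuous_ofReal.comp (continuous_w_pr b)
  · exact continuous_e.comp (by fun_prop)
  · exact continuous_finsetProd _ (fun i _ => continuous_f1_pr k P (al i))

theorem continuous_v_pr (k P : ℕ) : Continuous (v k P) := by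
  unfold v
  have h : Continuous (Function.uncurry fun (t y : ℝ) => e (t * y ^ k)) :=
    continuous_e.comp (by fun_prop)
  exact intervalIntegral.continuous_parametric_intervalIntegral_of_continuous' h _ _

theorem integrable_gg_pr (k P s : ℕ) {b : ℝ} (hb : 0 < b) (tau : ℝ) (al : Fin s → ℝ) :
    Integrable (gg_pr k P s b tau al) := by
  refine Integrable.mono' ((integrable_w hb).mul_const ((P : ℝ) ^ s))
    (continuous_gg_pr k P s b tau al).aestronglyMeasurable (Eventually.of_forall fun t => ?_)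
  unfold gg_pr
  rw [norm_mul, norm_mul, norm_e, mul_one, Complex.norm_real, Real.norm_of_nonneg (w_nonneg b t),
    norm_prod]
  refine mul_le_mul_of_nonneg_left ?_ (w_nonneg b t)
  calc ∏ i, ‖f k P t (al i)‖ ≤ ∏ _i : Fin s, (P : ℝ) :=
        Finset.prod_le_prod (fun i _ => norm_nonneg _) (fun i _ => norm_f_le k P t (al i))
    _ = (P : ℝ) ^ s := by simp

theorem integrable_vv_pr (k P s : ℕ) {b : ℝ} (hb : 0 < b) (tau : ℝ) :
    Integrable (fun t : ℝ => ((w b t : ℝ) : ℂ) * e (-(t * tau)) * (v k P t) ^ s) := by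
  refine Integrable.mono' ((integrable_w hb).mul_const ((P : ℝ) ^ s)) ?_
    (Eventually.of_forall fun t => ?_)
  · refine Continuous.aestronglyMeasurable ?_
    refine Continuous.mul (Continuous.mul ?_ ?_) ((continuous_v_pr k P).pow s)
    · exact Complex.continuous_ofReal.comp (continuous_w_pr b)
    · exact continuous_e.comp (by fun_prop)
  · rw [norm_mul, norm_mul, norm_e, mul_one, Complex.norm_real, Real.norm_of_nonneg (w_nonneg b t),
      norm_pow]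
    exact mul_le_mul_of_nonneg_left (pow_le_pow_left₀ (norm_nonneg _) (norm_v_le k P t) s)
      (w_nonneg b t)

/-- t1 is at most P^(-k/2) -/
theorem t1_le_pr (k P : ℕ) (hk : 4 ≤ k) (hP : 1 ≤ P) : t1 k P ≤ (P : ℝ) ^ (-(k : ℝ) / 2) := by
  have hP1 : (1 : ℝ) ≤ P := by exact_mod_cast hP
  have hP0 : (0 : ℝ) < P := by linarith
  have hk' : (4 : ℝ) ≤ k := by exact_mod_cast hk
  unfold t1
  rw [neg_div, Real.rpow_neg hP0.le, ← one_div]
  apply one_div_le_one_div_of_le (Real.rpow_pos_of_pos hP0 _)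
  have h1 : (P : ℝ) ^ ((k : ℝ) / 2) ≤ (P : ℝ) ^ (k - 1) := by
    rw [← Real.rpow_natCast]
    apply Real.rpow_le_rpow_of_exponent_le hP1
    rw [Nat.cast_sub (by omega)]
    push_cast
    linarith
  have h2 : (P : ℝ) ^ (k - 1) ≤ (2 * (P : ℝ)) ^ (k - 1) :=
    pow_le_pow_left₀ hP0.le (by linarith) _
  have h3 : (0 : ℝ) < (2 * (P : ℝ)) ^ (k - 1) := by positivity
  nlinarith

/-- the deterministic inequality behind Chebyshev -/
theorem key_ineq_pr (k P s : ℕ) (hk : 4 ≤ k) (hP : 1 ≤ P) {b : ℝ} (hb : 1 ≤ b)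
    (tau : ℝ) (al : Fin s → ℝ) (η : ℝ) (hη : 0 < η)
    (hbad : ∀ x : Fin s → ℕ, (∀ i, P ≤ x i ∧ x i < 2 * P) →
        η ≤ |∑ i, ((x i : ℝ) + al i) ^ k - tau|) :
    (∫ al, R k P s b tau al ∂PP s) ≤ (P : ℝ) ^ s * Real.exp (-(Real.pi * b * η ^ 2)) +
      (∫ t in {t : ℝ | |t| ≤ t1 k P}, w b t * ‖∏ i, f k P t (al i) - (v k P t) ^ s‖) +
      (∫ t in {t : ℝ | t1 k P < |t|}, w b t * ‖v k P t‖ ^ s) +
      ‖∫ t in {t : ℝ | t1 k P < |t| ∧ |t| ≤ (P : ℝ) ^ (-(k : ℝ) / 2)}, gg_pr k P s b tau al t‖ +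
      ‖∫ t in {t : ℝ | (P : ℝ) ^ (-(k : ℝ) / 2) < |t|}, gg_pr k P s b tau al t‖ := by
  have hb0 : 0 < b := by linarith
  set T := (P : ℝ) ^ (-(k : ℝ) / 2) with hT
  have hT1 : t1 k P ≤ T := t1_le_pr k P hk hP
  -- R small
  have hR : R k P s b tau al ≤ (P : ℝ) ^ s * Real.exp (-(Real.pi * b * η ^ 2)) := by
    unfold R
    calc _ ≤ ∑ _x ∈ Fintype.piFinset (fun _ : Fin s => Finset.Ico P (2 * P)),
          Real.exp (-(Real.pi * b * η ^ 2)) := by
          refine Finset.sum_le_sum fun x hx => ?_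
          rw [Fintype.mem_piFinset] at hx
          have h1 := hbad x (fun i => by simpa using hx i)
          unfold G
          apply Real.exp_le_exp.mpr
          have h2 : η ^ 2 ≤ (∑ i, ((x i : ℝ) + al i) ^ k - tau) ^ 2 := by
            rw [← sq_abs (∑ i, ((x i : ℝ) + al i) ^ k - tau)]
            exact pow_le_pow_left₀ hη.le h1 2
          have h3 : 0 < Real.pi * b := by positivity
          nlinarith
      _ = _ := by
          rw [Finset.sum_const, Fintype.card_piFinset]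
          simp only [Nat.card_Ico, Finset.prod_const, Finset.card_univ, Fintype.card_fin,
            nsmul_eq_mul]
          have : 2 * P - P = P := by omega
          rw [this]
          push_cast
          ring
  have hmeas1 : MeasurableSet {t : ℝ | |t| ≤ t1 k P} :=
    measurableSet_le measurable_norm measurable_const
  have hcompl : {t : ℝ | |t| ≤ t1 k P}ᶜ = {t : ℝ | t1 k P < |t|} := by
    ext t; simp
  have hmeas2 : MeasurableSet {t : ℝ | T < |t|} := measurableSet_lt measurable_const measurable_norm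
  have hunion : {t : ℝ | t1 k P < |t|} = {t : ℝ | t1 k P < |t| ∧ |t| ≤ T} ∪ {t : ℝ | T < |t|} := by
    ext t
    simp only [mem_ofPred_eq, mem_union]
    constructor
    · intro h
      by_cases h2 : |t| ≤ T
      · exact Or.inl ⟨h, h2⟩
      · exact Or.inr (not_le.mp h2)
    · rintro (h | h)
      · exact h.1
      · exact lt_of_le_of_lt hT1 h
  have hdisj : Disjoint {t : ℝ | t1 k P < |t| ∧ |t| ≤ T} {t : ℝ | T < |t|} := by
    rw [Set.disjoint_left]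
    intro t h1 h2
    exact absurd h2 (not_lt.mpr h1.2)
  have hrep := rep k P s hb0 tau al
  have hmean := mean k P s hb0 tau
  have hgi := integrable_gg_pr k P s hb0 tau al
  have hvi := integrable_vv_pr k P s hb0 tau
  have e1 : ((R k P s b tau al : ℝ) : ℂ) = (∫ t in {t : ℝ | |t| ≤ t1 k P}, gg_pr k P s b tau al t) +
      ((∫ t in {t : ℝ | t1 k P < |t| ∧ |t| ≤ T}, gg_pr k P s b tau al t) +
        ∫ t in {t : ℝ | T < |t|}, gg_pr k P s b tau al t) := by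
    rw [hrep, ← setIntegral_union hdisj hmeas2 hgi.integrableOn hgi.integrableOn, ← hunion, ← hcompl,
      integral_add_compl hmeas1 hgi]
    rfl
  have e2 : ((∫ al, R k P s b tau al ∂PP s : ℝ) : ℂ) =
      (∫ t in {t : ℝ | |t| ≤ t1 k P}, ((w b t : ℝ) : ℂ) * e (-(t * tau)) * (v k P t) ^ s) +
      ∫ t in {t : ℝ | t1 k P < |t|}, ((w b t : ℝ) : ℂ) * e (-(t * tau)) * (v k P t) ^ s := by
    rw [hmean, ← hcompl, integral_add_compl hmeas1 hvi]
  have e3 : (∫ t in {t : ℝ | |t| ≤ t1 k P}, gg_pr k P s b tau al t) -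
      (∫ t in {t : ℝ | |t| ≤ t1 k P}, ((w b t : ℝ) : ℂ) * e (-(t * tau)) * (v k P t) ^ s) =
      ∫ t in {t : ℝ | |t| ≤ t1 k P}, ((w b t : ℝ) : ℂ) * e (-(t * tau)) *
        (∏ i, f k P t (al i) - (v k P t) ^ s) := by
    rw [← integral_sub hgi.integrableOn hvi.integrableOn]
    congr 1
    ext t
    unfold gg_pr
    ring
  have n1 : ‖∫ t in {t : ℝ | |t| ≤ t1 k P}, ((w b t : ℝ) : ℂ) * e (-(t * tau)) *
        (∏ i, f k P t (al i) - (v k P t) ^ s)‖ ≤
      ∫ t in {t : ℝ | |t| ≤ t1 k P}, w b t * ‖∏ i, f k P t (al i) - (v k P t) ^ s‖ := by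
    refine (norm_integral_le_integral_norm _).trans (le_of_eq ?_)
    congr 1
    ext t
    rw [norm_mul, norm_mul, norm_e, mul_one, Complex.norm_real, Real.norm_of_nonneg (w_nonneg b t)]
  have n2 : ‖∫ t in {t : ℝ | t1 k P < |t|}, ((w b t : ℝ) : ℂ) * e (-(t * tau)) * (v k P t) ^ s‖ ≤
      ∫ t in {t : ℝ | t1 k P < |t|}, w b t * ‖v k P t‖ ^ s := by
    refine (norm_integral_le_integral_norm _).trans (le_of_eq ?_)
    congr 1
    ext t
    rw [norm_mul, norm_mul, norm_e, mul_one, Complex.norm_real, Real.norm_of_nonneg (w_nonneg b t),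
      norm_pow]
  have e4 : (((∫ al, R k P s b tau al ∂PP s) - R k P s b tau al : ℝ) : ℂ) =
      -(∫ t in {t : ℝ | |t| ≤ t1 k P}, ((w b t : ℝ) : ℂ) * e (-(t * tau)) *
        (∏ i, f k P t (al i) - (v k P t) ^ s)) +
      (∫ t in {t : ℝ | t1 k P < |t|}, ((w b t : ℝ) : ℂ) * e (-(t * tau)) * (v k P t) ^ s) -
      (∫ t in {t : ℝ | t1 k P < |t| ∧ |t| ≤ T}, gg_pr k P s b tau al t) -
      ∫ t in {t : ℝ | T < |t|}, gg_pr k P s b tau al t := by
    push_cast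
    rw [← e3, e1, e2]
    ring
  have e5 : (∫ al, R k P s b tau al ∂PP s) - R k P s b tau al ≤
      ‖∫ t in {t : ℝ | |t| ≤ t1 k P}, ((w b t : ℝ) : ℂ) * e (-(t * tau)) *
        (∏ i, f k P t (al i) - (v k P t) ^ s)‖ +
      ‖∫ t in {t : ℝ | t1 k P < |t|}, ((w b t : ℝ) : ℂ) * e (-(t * tau)) * (v k P t) ^ s‖ +
      ‖∫ t in {t : ℝ | t1 k P < |t| ∧ |t| ≤ T}, gg_pr k P s b tau al t‖ +
      ‖∫ t in {t : ℝ | T < |t|}, gg_pr k P s b tau al t‖ := by
    have h0 : (∫ al, R k P s b tau al ∂PP s) - R k P s b tau al ≤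
        ‖(((∫ al, R k P s b tau al ∂PP s) - R k P s b tau al : ℝ) : ℂ)‖ := by
      rw [Complex.norm_real]; exact le_abs_self _
    refine h0.trans ?_
    rw [e4]
    refine (norm_sub_le _ _).trans ?_
    gcongr
    refine (norm_sub_le _ _).trans ?_
    gcongr
    refine (norm_add_le _ _).trans ?_
    rw [norm_neg]
  linarith

theorem cube_ae_pr (s : ℕ) : ∀ᵐ al ∂PP s, ∀ i, al i ∈ Icc (0 : ℝ) 1 := by
  rw [ae_all_iff]
  intro i
  have h : ∀ᵐ a ∂((volume : Measure ℝ).restrict (Icc (0 : ℝ) 1)), a ∈ Icc (0 : ℝ) 1 :=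
    ae_restrict_mem measurableSet_Icc
  exact (Measure.tendsto_eval_ae_ae (μ := fun _ : Fin s => (volume : Measure ℝ).restrict (Icc (0 : ℝ) 1))
    (i := i)).eventually h

theorem log_pow_le_pr (s : ℕ) (δ : ℝ) (hδ : 0 < δ) :
    ∀ᶠ P : ℕ in atTop, (1 + Real.log P) ^ s ≤ (P : ℝ) ^ δ := by
  rcases Nat.eq_zero_or_pos s with rfl | hs
  · filter_upwards [eventually_ge_atTop 1] with P hP
    simp only [pow_zero]
    exact Real.one_le_rpow (by exact_mod_cast hP) hδ.le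
  have hs' : (0 : ℝ) < s := by exact_mod_cast hs
  have hr : 0 < δ / s := by positivity
  have h1 : ∀ᶠ x : ℝ in atTop, ‖Real.log x‖ ≤ (1 / 2) * ‖x ^ (δ / s)‖ :=
    (isLittleO_log_rpow_atTop hr).bound (by norm_num)
  have h2 : ∀ᶠ x : ℝ in atTop, (2 : ℝ) ≤ x ^ (δ / s) :=
    (tendsto_rpow_atTop hr).eventually_ge_atTop 2
  have h3 := tendsto_natCast_atTop_atTop (R := ℝ)
  filter_upwards [h3.eventually h1, h3.eventually h2, eventually_ge_atTop 1] with P a1 a2 a3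
  have hP1 : (1 : ℝ) ≤ P := by exact_mod_cast a3
  have hlog : 0 ≤ Real.log P := Real.log_nonneg hP1
  have hx : (0 : ℝ) ≤ (P : ℝ) ^ (δ / s) := by positivity
  rw [Real.norm_of_nonneg hlog, Real.norm_of_nonneg hx] at a1
  calc (1 + Real.log P) ^ s ≤ ((P : ℝ) ^ (δ / s)) ^ s := by
        apply pow_le_pow_left₀ (by linarith)
        linarith
    _ = (P : ℝ) ^ δ := by
        rw [← Real.rpow_natCast, ← Real.rpow_mul (by linarith)]
        congr 1
        field_simp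

theorem exp_small_pr (A c ε' : ℝ) (hc : 0 < c) (hε : 0 < ε') (δ : ℝ) (hδ : 0 < δ) :
    ∀ᶠ P : ℕ in atTop, (P : ℝ) ^ A * Real.exp (-(c * (P : ℝ) ^ ε')) ≤ δ := by
  have h1 := tendsto_rpow_mul_exp_neg_mul_atTop_nhds_zero (A / ε') c hc
  have h2 : Tendsto (fun P : ℕ => (P : ℝ) ^ ε') atTop atTop :=
    (tendsto_rpow_atTop hε).comp tendsto_natCast_atTop_atTop
  have h3 := h1.comp h2
  filter_upwards [(h3.eventually_le_const hδ), eventually_ge_atTop 1] with P a1 a2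
  have hP : (0 : ℝ) ≤ P := by positivity
  simp only [Function.comp_apply] at a1
  rw [← Real.rpow_mul hP] at a1
  have : ε' * (A / ε') = A := by field_simp
  rw [this] at a1
  simpa [neg_mul] using a1

theorem prob (k s : ℕ) (hk : 4 ≤ k) (hs : 2 * k + 1 ≤ s) (η ε : ℝ) (hη : 0 < η) (hε : 0 < ε) :
    ∃ C : ℝ, 0 < C ∧ ∃ P0 : ℕ, ∀ P : ℕ, P0 ≤ P → ∀ tau : ℝ,
      (s : ℝ) * (3 * (P : ℝ) / 2) ^ k ≤ tau → tau ≤ (s : ℝ) * (3 * ((P : ℝ) + 1) / 2) ^ k →
      PP s {al : Fin s → ℝ | ∀ x : Fin s → ℕ, (∀ i, P ≤ x i ∧ x i < 2 * P) →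
        η ≤ |∑ i, ((x i : ℝ) + al i) ^ k - tau|} ≤
        ENNReal.ofReal (C * (P : ℝ) ^ (-((s : ℝ) - k) + ε)) := by
  obtain ⟨C1, hC1, h1⟩ := D1 k s hk (by omega)
  obtain ⟨C2, hC2, h2⟩ := D2 k s hk (by omega)
  obtain ⟨CA, hCA, hA⟩ := minorA k s hk
  obtain ⟨CB, hCB, hB⟩ := minorB k s hk (by omega)
  obtain ⟨c, hc, P1, hm⟩ := mean_lower k s (by omega) (by omega)
  have hsk : (2 * (k : ℝ) + 1) ≤ s := by exact_mod_cast hs
  have hk4 : (4 : ℝ) ≤ k := by exact_mod_cast hk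
  set ε1 : ℝ := min (ε / 2) 1 with hε1
  have hε1p : 0 < ε1 := lt_min (by linarith) one_pos
  have hε1a : ε1 ≤ ε / 2 := min_le_left _ _
  have hε1b : ε1 ≤ 1 := min_le_right _ _
  -- eventual inequalities
  have E1 : ∀ᶠ P : ℕ in atTop, (P : ℝ) ^ ((k : ℝ) + ε1 / 2) *
      Real.exp (-(Real.pi * η ^ 2 * (P : ℝ) ^ ε1)) ≤ c / 8 :=
    exp_small_pr _ _ _ (by positivity) hε1p _ (by positivity)
  have E2 : ∀ᶠ P : ℕ in atTop, 8 * C1 / c ≤ (P : ℝ) ^ (1 - ε1 / 2) :=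
    ((tendsto_rpow_atTop (by linarith : 0 < 1 - ε1 / 2)).comp
      tendsto_natCast_atTop_atTop).eventually_ge_atTop _
  have E3 : ∀ᶠ P : ℕ in atTop, 8 * C2 / c ≤ (P : ℝ) ^ ((s : ℝ) - k - ε1 / 2) :=
    ((tendsto_rpow_atTop (by linarith : 0 < (s : ℝ) - k - ε1 / 2)).comp
      tendsto_natCast_atTop_atTop).eventually_ge_atTop _
  have E4 := log_pow_le_pr s (ε / 2) (by positivity)
  obtain ⟨P2, hP2⟩ := eventually_atTop.mp ((E1.and E2).and (E3.and E4))
  refine ⟨8 * (CA + CB) / c ^ 2 + 1, by positivity, max (max P1 P2) 1, fun P hP tau ht1 ht2 => ?_⟩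
  have hPP1 : P1 ≤ P := le_trans (le_trans (le_max_left _ _) (le_max_left _ _)) hP
  have hPP2 : P2 ≤ P := le_trans (le_trans (le_max_right _ _) (le_max_left _ _)) hP
  have hPP3 : 1 ≤ P := le_trans (le_max_right _ _) hP
  obtain ⟨⟨F1, F2⟩, F3, F4⟩ := hP2 P hPP2
  have hP1 : (1 : ℝ) ≤ P := by exact_mod_cast hPP3
  have hP0 : (0 : ℝ) < P := by linarith
  set b : ℝ := (P : ℝ) ^ ε1 with hb
  have hb1 : 1 ≤ b := Real.one_le_rpow hP1 hε1p.le
  have hb0 : 0 < b := by linarith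
  have hmean := hm P hPP1 b hb1 tau ht1 ht2
  set m0 : ℝ := c * (P : ℝ) ^ ((s : ℝ) - k - ε1 / 2) with hm0
  have hm0pos : 0 < m0 := by positivity
  have hsqrt : (Real.sqrt b)⁻¹ = (P : ℝ) ^ (-(ε1 / 2)) := by
    rw [hb, Real.sqrt_eq_rpow, ← Real.rpow_mul hP0.le, Real.rpow_neg hP0.le]
    congr 2
    ring
  have hmean' : m0 ≤ ∫ al, R k P s b tau al ∂PP s := by
    refine le_trans (le_of_eq ?_) hmean
    rw [hsqrt, mul_assoc, ← Real.rpow_add hP0, hm0]
    congr 2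
  -- small terms
  have S1 : (P : ℝ) ^ s * Real.exp (-(Real.pi * b * η ^ 2)) ≤ m0 / 8 := by
    have hh : (P : ℝ) ^ s = (P : ℝ) ^ ((s : ℝ) - k - ε1 / 2) * (P : ℝ) ^ ((k : ℝ) + ε1 / 2) := by
      rw [← Real.rpow_add hP0, ← Real.rpow_natCast]
      congr 1
      ring
    rw [hh, hm0]
    have h5 : Real.pi * b * η ^ 2 = Real.pi * η ^ 2 * (P : ℝ) ^ ε1 := by rw [hb]; ring
    rw [h5]
    have h6 : (0 : ℝ) < (P : ℝ) ^ ((s : ℝ) - k - ε1 / 2) := by positivity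
    calc _ = (P : ℝ) ^ ((s : ℝ) - k - ε1 / 2) * ((P : ℝ) ^ ((k : ℝ) + ε1 / 2) *
          Real.exp (-(Real.pi * η ^ 2 * (P : ℝ) ^ ε1))) := by ring
      _ ≤ (P : ℝ) ^ ((s : ℝ) - k - ε1 / 2) * (c / 8) := mul_le_mul_of_nonneg_left F1 h6.le
      _ = _ := by ring
  have S2 : C1 * (P : ℝ) ^ ((s : ℝ) - 1 - k) ≤ m0 / 8 := by
    have hh : (P : ℝ) ^ ((s : ℝ) - k - ε1 / 2) =
        (P : ℝ) ^ ((s : ℝ) - 1 - k) * (P : ℝ) ^ (1 - ε1 / 2) := by
      rw [← Real.rpow_add hP0]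
      congr 1
      ring
    rw [hm0, hh]
    have h6 : (0 : ℝ) < (P : ℝ) ^ ((s : ℝ) - 1 - k) := by positivity
    have h7 : 8 * C1 ≤ c * (P : ℝ) ^ (1 - ε1 / 2) := by
      rw [div_le_iff₀ hc] at F2
      linarith
    nlinarith
  have S3 : C2 ≤ m0 / 8 := by
    rw [div_le_iff₀ hc] at F3
    rw [hm0]
    linarith
  -- moments
  set S1' : Set ℝ := {t : ℝ | t1 k P < |t| ∧ |t| ≤ (P : ℝ) ^ (-(k : ℝ) / 2)} with hS1'
  set S2' : Set ℝ := {t : ℝ | (P : ℝ) ^ (-(k : ℝ) / 2) < |t|} with hS2'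
  have ms1 : MeasurableSet S1' :=
    (measurableSet_lt measurable_const measurable_norm).inter
      (measurableSet_le measurable_norm measurable_const)
  have ms2 : MeasurableSet S2' := measurableSet_lt measurable_const measurable_norm
  obtain ⟨I1, J1⟩ := second_moment k P s hb0 tau S1' ms1
  obtain ⟨I2, J2⟩ := second_moment k P s hb0 tau S2' ms2
  have K1 := J1.trans (hA P hPP3 b hb1)
  have K2 := J2.trans (hB P hPP3 b hb1)
  set FF : (Fin s → ℝ) → ℝ := fun al => ‖∫ t in S1', gg_pr k P s b tau al t‖ ^ 2 +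
    ‖∫ t in S2', gg_pr k P s b tau al t‖ ^ 2 with hFF
  have hFFint : Integrable FF (PP s) := I1.add I2
  have hFFnn : 0 ≤ᵐ[PP s] FF := Eventually.of_forall fun al => by
    simp only [hFF, Pi.zero_apply]; positivity
  have hcheb := mul_meas_ge_le_integral_of_nonneg hFFnn hFFint (m0 ^ 2 / 8)
  have hlog1 : 1 ≤ (1 + Real.log P) ^ s := one_le_pow₀ (by
    have := Real.log_nonneg hP1; linarith)
  have hint : ∫ al, FF al ∂PP s ≤ (CA + CB) * (P : ℝ) ^ ((s : ℝ) - k) * (1 + Real.log P) ^ s := by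
    have : ∫ al, FF al ∂PP s = (∫ al, ‖∫ t in S1', gg_pr k P s b tau al t‖ ^ 2 ∂PP s) +
        ∫ al, ‖∫ t in S2', gg_pr k P s b tau al t‖ ^ 2 ∂PP s := integral_add I1 I2
    rw [this]
    have hx : 0 < (P : ℝ) ^ ((s : ℝ) - k) := by positivity
    have K1' : ∫ al, ‖∫ t in S1', gg_pr k P s b tau al t‖ ^ 2 ∂PP s ≤
        CA * (P : ℝ) ^ ((s : ℝ) - k) * (1 + Real.log P) ^ s := K1
    have K2' : ∫ al, ‖∫ t in S2', gg_pr k P s b tau al t‖ ^ 2 ∂PP s ≤ CB * (P : ℝ) ^ ((s : ℝ) - k) := K2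
    have : CB * (P : ℝ) ^ ((s : ℝ) - k) ≤ CB * (P : ℝ) ^ ((s : ℝ) - k) * (1 + Real.log P) ^ s :=
      le_mul_of_one_le_right (by positivity) hlog1
    calc _ ≤ CA * (P : ℝ) ^ ((s : ℝ) - k) * (1 + Real.log P) ^ s +
          CB * (P : ℝ) ^ ((s : ℝ) - k) * (1 + Real.log P) ^ s := by linarith
      _ = _ := by ring
  -- the bad set is contained in the Chebyshev set, almost everywhere
  have hsub : PP s {al : Fin s → ℝ | ∀ x : Fin s → ℕ, (∀ i, P ≤ x i ∧ x i < 2 * P) →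
        η ≤ |∑ i, ((x i : ℝ) + al i) ^ k - tau|} ≤ PP s {al | m0 ^ 2 / 8 ≤ FF al} := by
    apply measure_mono_ae
    filter_upwards [cube_ae_pr s] with al hal hbad
    have hkey := key_ineq_pr k P s hk hPP3 hb1 tau al η hη hbad
    have a1 := h1 P hPP3 b hb1 al hal
    have a2 := h2 P hPP3 b hb1
    have hge : m0 / 2 ≤ ‖∫ t in S1', gg_pr k P s b tau al t‖ + ‖∫ t in S2', gg_pr k P s b tau al t‖ := by
      linarith
    show m0 ^ 2 / 8 ≤ FF al
    simp only [hFF]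
    have hsq : (m0 / 2) ^ 2 ≤ (‖∫ t in S1', gg_pr k P s b tau al t‖ +
        ‖∫ t in S2', gg_pr k P s b tau al t‖) ^ 2 := pow_le_pow_left₀ (by positivity) hge 2
    nlinarith [sq_nonneg (‖∫ t in S1', gg_pr k P s b tau al t‖ - ‖∫ t in S2', gg_pr k P s b tau al t‖)]
  refine hsub.trans ?_
  rw [← ofReal_measureReal (measure_ne_top _ _)]
  apply ENNReal.ofReal_le_ofReal
  have hm2 : 0 < m0 ^ 2 / 8 := by positivity
  have hfin : (PP s).real {al | m0 ^ 2 / 8 ≤ FF al} ≤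
      ((CA + CB) * (P : ℝ) ^ ((s : ℝ) - k) * (1 + Real.log P) ^ s) / (m0 ^ 2 / 8) := by
    rw [le_div_iff₀ hm2, mul_comm]
    exact hcheb.trans hint
  refine hfin.trans ?_
  have hpw : (P : ℝ) ^ ((s : ℝ) - k) * (1 + Real.log P) ^ s ≤
      (P : ℝ) ^ (2 * ((s : ℝ) - k - ε1 / 2)) * (P : ℝ) ^ (-((s : ℝ) - k) + ε) := by
    calc _ ≤ (P : ℝ) ^ ((s : ℝ) - k) * (P : ℝ) ^ (ε / 2) :=
          mul_le_mul_of_nonneg_left F4 (by positivity)
      _ = (P : ℝ) ^ ((s : ℝ) - k + ε / 2) := by rw [← Real.rpow_add hP0]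
      _ ≤ (P : ℝ) ^ (2 * ((s : ℝ) - k - ε1 / 2) + (-((s : ℝ) - k) + ε)) := by
          apply Real.rpow_le_rpow_of_exponent_le hP1
          linarith
      _ = _ := by rw [Real.rpow_add hP0]
  have hm0sq : m0 ^ 2 = c ^ 2 * (P : ℝ) ^ (2 * ((s : ℝ) - k - ε1 / 2)) := by
    rw [hm0, mul_pow, ← Real.rpow_natCast ((P : ℝ) ^ ((s : ℝ) - k - ε1 / 2)), ← Real.rpow_mul hP0.le]
    congr 2
    push_cast
    ring
  rw [div_le_iff₀ hm2, hm0sq]
  have hY : 0 < (P : ℝ) ^ (2 * ((s : ℝ) - k - ε1 / 2)) := by positivity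
  have hZ : 0 < (P : ℝ) ^ (-((s : ℝ) - k) + ε) := by positivity
  calc (CA + CB) * (P : ℝ) ^ ((s : ℝ) - k) * (1 + Real.log P) ^ s
      = (CA + CB) * ((P : ℝ) ^ ((s : ℝ) - k) * (1 + Real.log P) ^ s) := by ring
    _ ≤ (CA + CB) * ((P : ℝ) ^ (2 * ((s : ℝ) - k - ε1 / 2)) * (P : ℝ) ^ (-((s : ℝ) - k) + ε)) :=
        mul_le_mul_of_nonneg_left hpw (by positivity)
    _ = (8 * (CA + CB) / c ^ 2) * (P : ℝ) ^ (-((s : ℝ) - k) + ε) *
        (c ^ 2 * (P : ℝ) ^ (2 * ((s : ℝ) - k - ε1 / 2)) / 8) := by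
        field_simp
    _ ≤ (8 * (CA + CB) / c ^ 2 + 1) * (P : ℝ) ^ (-((s : ℝ) - k) + ε) *
        (c ^ 2 * (P : ℝ) ^ (2 * ((s : ℝ) - k - ε1 / 2)) / 8) := by
        apply mul_le_mul_of_nonneg_right _ (by positivity)
        apply mul_le_mul_of_nonneg_right _ hZ.le
        linarith

end Pool.H19.Wa
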