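import Pool.Agent.H19.Wa.Defs

/-!
# Module VDC: first and second derivative tests

`vdc1`: e(φ) = (1/(2πi φ')) (e∘φ)', integrate by parts (1/φ' is C^1 since |φ'| >= ρ). Boundary terms
<= 2/(2πρ); the remaining integral is <= (1/2π) ∫ |φ''|/φ'^2 = (1/2π) |1/φ'(a) - 1/φ'(b)| (φ'' has one sign)
<= (1/2π)(1/ρ) or 2/(2πρ). Total <= 4/(2πρ) <= 1/ρ.

`vdc2`: WLOG φ'' >= 0 (otherwise replace φ by -φ, which conjugates the integral). φ' is monotone. Put
ρ = min δ (sqrt lam), c = inf of {y in [a,b] : φ' y > -ρ}, d = sup of {y in [a,b] : φ' y < ρ}. On [a,c] and on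
[d,b] one has |φ'| >= ρ (closed conditions), so `vdc1` gives 1/ρ each; for c <= d, in (c,d) one has |φ'| < ρ <= δ,
so φ'' >= lam, whence lam (d-c) <= 2ρ and d - c <= 2/sqrt lam. If one of the sets is empty, `vdc1` applies on [a,b].
Total <= 2/ρ + 2/sqrt lam <= 2/δ + 4/sqrt lam. (If d < c use c = d.)
-/

set_option autoImplicit false

namespace Pool.H19.Wa

open MeasureTheory Set

theorem vdc1 {φ φ' φ'' : ℝ → ℝ} {a b ρ : ℝ} (hab : a ≤ b) (hρ : 0 < ρ)
    (h1 : ∀ y ∈ Icc a b, HasDerivAt φ (φ' y) y) (h2 : ∀ y ∈ Icc a b, HasDerivAt φ' (φ'' y) y)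
    (hc : ContinuousOn φ'' (Icc a b))
    (hs : (∀ y ∈ Icc a b, 0 ≤ φ'' y) ∨ (∀ y ∈ Icc a b, φ'' y ≤ 0))
    (hr : ∀ y ∈ Icc a b, ρ ≤ |φ' y|) :
    ‖∫ y in a..b, e (φ y)‖ ≤ 1 / ρ := by
  have huIcc : uIcc a b = Icc a b := uIcc_of_le hab
  have hcφ : ContinuousOn φ (Icc a b) := fun y hy => (h1 y hy).continuousAt.continuousWithinAt
  have hcφ' : ContinuousOn φ' (Icc a b) := fun y hy => (h2 y hy).continuousAt.continuousWithinAt
  have hne : ∀ y ∈ Icc a b, φ' y ≠ 0 := by
    intro y hy h0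
    have := hr y hy
    rw [h0, abs_zero] at this
    linarith
  have hce : ContinuousOn (fun y => e (φ y)) (Icc a b) := continuous_e.comp_continuousOn hcφ
  -- the correction term
  have hcr : ContinuousOn (fun y => φ'' y / φ' y ^ 2) (Icc a b) :=
    hc.div (hcφ'.pow 2) (fun y hy => pow_ne_zero 2 (hne y hy))
  have hcrC : ContinuousOn (fun y => ((φ'' y / φ' y ^ 2 : ℝ) : ℂ)) (Icc a b) :=
    Complex.continuous_ofReal.comp_continuousOn hcr
  have hI1 : IntervalIntegrable (fun y => e (φ y)) volume a b :=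
    ContinuousOn.intervalIntegrable (by rw [huIcc]; exact hce)
  have hI2 : IntervalIntegrable (fun y => e (φ y) * ((φ'' y / φ' y ^ 2 : ℝ) : ℂ)) volume a b :=
    ContinuousOn.intervalIntegrable (by rw [huIcc]; exact hce.mul hcrC)
  have hI3 : IntervalIntegrable (fun y => φ'' y / φ' y ^ 2) volume a b :=
    ContinuousOn.intervalIntegrable (by rw [huIcc]; exact hcr)
  -- derivative of the reciprocal
  have hinv : ∀ y ∈ Icc a b, HasDerivAt (fun y => (φ' y)⁻¹) (-(φ'' y / φ' y ^ 2)) y := by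
    intro y hy
    have := (h2 y hy).fun_inv (hne y hy)
    exact this.congr_deriv (by ring)
  have hder : ∀ y ∈ uIcc a b, HasDerivAt (fun y => e (φ y) * (((φ' y)⁻¹ : ℝ) : ℂ))
      (2 * Real.pi * Complex.I * e (φ y) - e (φ y) * ((φ'' y / φ' y ^ 2 : ℝ) : ℂ)) y := by
    intro y hy
    rw [huIcc] at hy
    have hA : HasDerivAt (fun y => e (φ y)) (((φ' y : ℝ)) • (2 * Real.pi * Complex.I * e (φ y))) y :=
      HasDerivAt.scomp y (hasDerivAt_e (φ y)) (h1 y hy)
    have hB : HasDerivAt (fun y => (((φ' y)⁻¹ : ℝ) : ℂ)) ((-(φ'' y / φ' y ^ 2) : ℝ) : ℂ) y :=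
      (hinv y hy).ofReal_comp
    refine (hA.fun_mul hB).congr_deriv ?_
    have h0 : ((φ' y : ℝ) : ℂ) ≠ 0 := by exact_mod_cast hne y hy
    simp only [Complex.real_smul]
    push_cast
    field_simp
    ring
  have hFTC := intervalIntegral.integral_eq_sub_of_hasDerivAt hder
    ((hI1.const_mul _).sub hI2)
  have hFTC2 := intervalIntegral.integral_eq_sub_of_hasDerivAt (a := a) (b := b)
    (f := fun y => (φ' y)⁻¹) (f' := fun y => -(φ'' y / φ' y ^ 2))
    (fun y hy => hinv y (by rwa [huIcc] at hy)) hI3.neg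
  rw [intervalIntegral.integral_sub (hI1.const_mul _) hI2,
    intervalIntegral.integral_const_mul] at hFTC
  rw [intervalIntegral.integral_neg] at hFTC2
  have ha : a ∈ Icc a b := left_mem_Icc.2 hab
  have hb : b ∈ Icc a b := right_mem_Icc.2 hab
  have hia : |(φ' a)⁻¹| ≤ 1 / ρ := by
    rw [abs_inv, ← one_div]
    exact one_div_le_one_div_of_le hρ (hr a ha)
  have hib : |(φ' b)⁻¹| ≤ 1 / ρ := by
    rw [abs_inv, ← one_div]
    exact one_div_le_one_div_of_le hρ (hr b hb)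
  -- the bound for the correction
  have hcorr : ‖∫ y in a..b, e (φ y) * ((φ'' y / φ' y ^ 2 : ℝ) : ℂ)‖ ≤ 2 / ρ := by
    have hn : ‖∫ y in a..b, e (φ y) * ((φ'' y / φ' y ^ 2 : ℝ) : ℂ)‖ ≤
        ∫ y in a..b, |φ'' y / φ' y ^ 2| := by
      refine (intervalIntegral.norm_integral_le_integral_norm hab).trans (le_of_eq ?_)
      congr 1
      funext y
      rw [norm_mul, norm_e, one_mul, Complex.norm_real, Real.norm_eq_abs]
    refine hn.trans ?_
    rcases hs with hs | hs
    · have : ∫ y in a..b, |φ'' y / φ' y ^ 2| = ∫ y in a..b, φ'' y / φ' y ^ 2 := by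
        refine intervalIntegral.integral_congr fun y hy => ?_
        rw [huIcc] at hy
        exact abs_of_nonneg (div_nonneg (hs y hy) (sq_nonneg _))
      rw [this]
      have h3 := neg_abs_le (φ' b)⁻¹
      have h4 := le_abs_self (φ' a)⁻¹
      have h5 : 2 / ρ = 1 / ρ + 1 / ρ := by ring
      linarith
    · have : ∫ y in a..b, |φ'' y / φ' y ^ 2| = ∫ y in a..b, -(φ'' y / φ' y ^ 2) := by
        refine intervalIntegral.integral_congr fun y hy => ?_
        rw [huIcc] at hy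
        exact abs_of_nonpos (div_nonpos_of_nonpos_of_nonneg (hs y hy) (sq_nonneg _))
      rw [this, intervalIntegral.integral_neg]
      have h3 := neg_abs_le (φ' a)⁻¹
      have h4 := le_abs_self (φ' b)⁻¹
      have h5 : 2 / ρ = 1 / ρ + 1 / ρ := by ring
      linarith
  have hmain : 2 * Real.pi * ‖∫ y in a..b, e (φ y)‖ ≤ 4 / ρ := by
    have h3 : 2 * Real.pi * Complex.I * ∫ y in a..b, e (φ y) =
        e (φ b) * (((φ' b)⁻¹ : ℝ) : ℂ) - e (φ a) * (((φ' a)⁻¹ : ℝ) : ℂ) +
          ∫ y in a..b, e (φ y) * ((φ'' y / φ' y ^ 2 : ℝ) : ℂ) := by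
      rw [← hFTC]
      ring
    have h4 : 2 * Real.pi * ‖∫ y in a..b, e (φ y)‖ =
        ‖2 * Real.pi * Complex.I * ∫ y in a..b, e (φ y)‖ := by
      rw [norm_mul, norm_mul, norm_mul, Complex.norm_I, Complex.norm_real, Real.norm_eq_abs,
        abs_of_pos Real.pi_pos]
      simp
    rw [h4, h3]
    refine (norm_add_le _ _).trans ?_
    refine (add_le_add_left (norm_sub_le _ _) _).trans ?_
    rw [norm_mul, norm_mul, norm_e, norm_e, one_mul, one_mul, Complex.norm_real,
      Complex.norm_real, Real.norm_eq_abs, Real.norm_eq_abs]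
    have h5 : 4 / ρ = 1 / ρ + 1 / ρ + 2 / ρ := by ring
    linarith
  have hpi : 3 < Real.pi := Real.pi_gt_three
  have hN := norm_nonneg (∫ y in a..b, e (φ y))
  have h6 : 4 / ρ = 4 * (1 / ρ) := by ring
  rw [h6] at hmain
  nlinarith

theorem vdc2_aux {φ φ' φ'' : ℝ → ℝ} {a b δ lam : ℝ} (hab : a ≤ b) (hδ : 0 < δ) (hlam : 0 < lam)
    (h1 : ∀ y ∈ Icc a b, HasDerivAt φ (φ' y) y) (h2 : ∀ y ∈ Icc a b, HasDerivAt φ' (φ'' y) y)
    (hc : ContinuousOn φ'' (Icc a b)) (hs : ∀ y ∈ Icc a b, 0 ≤ φ'' y)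
    (hor : ∀ y ∈ Icc a b, δ ≤ |φ' y| ∨ lam ≤ |φ'' y|) :
    ‖∫ y in a..b, e (φ y)‖ ≤ 2 / δ + 4 / Real.sqrt lam := by
  set s := Real.sqrt lam with hsd
  have hs0 : 0 < s := Real.sqrt_pos.2 hlam
  have hss : s * s = lam := Real.mul_self_sqrt hlam.le
  -- the threshold
  obtain ⟨ρ, hρ0, hρδ, hρs, hρ⟩ : ∃ ρ : ℝ, 0 < ρ ∧ ρ < δ ∧ ρ < s ∧ 1 / ρ = 1 / δ + 1 / s := by
    refine ⟨δ * s / (δ + s), by positivity, ?_, ?_, ?_⟩
    · rw [div_lt_iff₀ (by positivity)]
      nlinarith
    · rw [div_lt_iff₀ (by positivity)]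
      nlinarith
    · field_simp
      ring
  have hmono : MonotoneOn φ' (Icc a b) := by
    refine monotoneOn_of_deriv_nonneg (convex_Icc a b)
      (fun y hy => (h2 y hy).continuousAt.continuousWithinAt)
      (fun y hy => (h2 y (interior_subset hy)).differentiableAt.differentiableWithinAt) ?_
    intro y hy
    rw [(h2 y (interior_subset hy)).deriv]
    exact hs y (interior_subset hy)
  have hcφ : ContinuousOn φ (Icc a b) := fun y hy => (h1 y hy).continuousAt.continuousWithinAt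
  have hcφ' : ContinuousOn φ' (Icc a b) := fun y hy => (h2 y hy).continuousAt.continuousWithinAt
  have hce : ContinuousOn (fun y => e (φ y)) (Icc a b) := continuous_e.comp_continuousOn hcφ
  have ha : a ∈ Icc a b := left_mem_Icc.2 hab
  have hb : b ∈ Icc a b := right_mem_Icc.2 hab
  -- first derivative test on subintervals
  have hsub : ∀ c d, a ≤ c → c ≤ d → d ≤ b → (∀ y ∈ Icc c d, ρ ≤ |φ' y|) →
      ‖∫ y in c..d, e (φ y)‖ ≤ 1 / ρ := by
    intro c d hac hcd hdb hr
    have hss : Icc c d ⊆ Icc a b := Icc_subset_Icc hac hdb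
    exact vdc1 hcd hρ0 (fun y hy => h1 y (hss hy)) (fun y hy => h2 y (hss hy)) (hc.mono hss)
      (Or.inl fun y hy => hs y (hss hy)) hr
  have hρtot : 1 / ρ ≤ 2 / δ + 4 / s := by
    have h3 : 0 < 1 / δ := by positivity
    have h4 : 0 < 1 / s := by positivity
    have h5 : 2 / δ = 2 * (1 / δ) := by ring
    have h6 : 4 / s = 4 * (1 / s) := by ring
    rw [hρ, h5, h6]
    linarith
  by_cases hA : φ' b < -ρ
  · refine (hsub a b le_rfl hab le_rfl ?_).trans hρtot
    intro y hy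
    have := hmono hy hb hy.2
    rw [abs_of_neg (by linarith)]
    linarith
  by_cases hB : ρ < φ' a
  · refine (hsub a b le_rfl hab le_rfl ?_).trans hρtot
    intro y hy
    have := hmono ha hy hy.1
    rw [abs_of_pos (by linarith)]
    linarith
  push Not at hA hB
  -- the left point
  obtain ⟨c, hcI, hcl, hcr⟩ : ∃ c ∈ Icc a b, -ρ ≤ φ' c ∧ (c = a ∨ φ' c = -ρ) := by
    by_cases hC : -ρ ≤ φ' a
    · exact ⟨a, ha, hC, Or.inl rfl⟩
    · push Not at hC
      obtain ⟨c, hc1, hc2⟩ := intermediate_value_Icc hab hcφ' ⟨hC.le, hA⟩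
      exact ⟨c, hc1, hc2.ge, Or.inr hc2⟩
  obtain ⟨d, hdI, hdl, hdr⟩ : ∃ d ∈ Icc a b, φ' d ≤ ρ ∧ (d = b ∨ φ' d = ρ) := by
    by_cases hC : φ' b ≤ ρ
    · exact ⟨b, hb, hC, Or.inl rfl⟩
    · push Not at hC
      obtain ⟨c, hc1, hc2⟩ := intermediate_value_Icc hab hcφ' ⟨hB, hC.le⟩
      exact ⟨c, hc1, hc2.le, Or.inr hc2⟩
  have hcd : c ≤ d := by
    rcases hcr with rfl | hcr
    · exact hdI.1
    rcases hdr with rfl | hdr
    · exact hcI.2
    by_contra hlt
    push Not at hlt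
    have := hmono hdI hcI hlt.le
    linarith
  have hint : ∀ x y, x ∈ Icc a b → y ∈ Icc a b →
      IntervalIntegrable (fun y => e (φ y)) volume x y := by
    intro x y hx hy
    exact ContinuousOn.intervalIntegrable (hce.mono (uIcc_subset_Icc hx hy))
  have hsplit : ∫ y in a..b, e (φ y) = (∫ y in a..c, e (φ y)) + (∫ y in c..d, e (φ y)) +
      ∫ y in d..b, e (φ y) := by
    rw [intervalIntegral.integral_add_adjacent_intervals (hint a c ha hcI) (hint c d hcI hdI),
      intervalIntegral.integral_add_adjacent_intervals (hint a d ha hdI) (hint d b hdI hb)]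
  have hL : ‖∫ y in a..c, e (φ y)‖ ≤ 1 / ρ := by
    rcases hcr with hcr | hcr
    · rw [hcr, intervalIntegral.integral_same, norm_zero]
      positivity
    · refine hsub a c le_rfl hcI.1 hcI.2 ?_
      intro y hy
      have hy' : y ∈ Icc a b := ⟨hy.1, hy.2.trans hcI.2⟩
      have := hmono hy' hcI hy.2
      rw [hcr] at this
      rw [abs_of_neg (by linarith)]
      linarith
  have hR : ‖∫ y in d..b, e (φ y)‖ ≤ 1 / ρ := by
    rcases hdr with hdr | hdr
    · rw [hdr, intervalIntegral.integral_same, norm_zero]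
      positivity
    · refine hsub d b hdI.1 hdI.2 le_rfl ?_
      intro y hy
      have hy' : y ∈ Icc a b := ⟨hdI.1.trans hy.1, hy.2⟩
      have := hmono hdI hy' hy.1
      rw [hdr] at this
      rw [abs_of_pos (by linarith)]
      linarith
  have hM : ‖∫ y in c..d, e (φ y)‖ ≤ d - c := by
    have := intervalIntegral.norm_integral_le_of_norm_le_const (a := c) (b := d) (C := 1)
      (f := fun y => e (φ y)) (fun y _ => (norm_e _).le)
    rwa [one_mul, abs_of_nonneg (by linarith)] at this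
  have hdc : d - c ≤ 2 / s := by
    -- on `[c,d]` the second derivative is at least `lam`
    have hlow : ∀ y ∈ Icc c d, lam ≤ φ'' y := by
      intro y hy
      have hy' : y ∈ Icc a b := ⟨hcI.1.trans hy.1, hy.2.trans hdI.2⟩
      have h3 := hmono hcI hy' hy.1
      have h4 := hmono hy' hdI hy.2
      rcases hor y hy' with h5 | h5
      · exfalso
        have : |φ' y| ≤ ρ := abs_le.2 ⟨by linarith, by linarith⟩
        linarith
      · rwa [abs_of_nonneg (hs y hy')] at h5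
    have hgrow : lam * (d - c) ≤ φ' d - φ' c := by
      rcases eq_or_lt_of_le hcd with h | h
      · subst h
        simp
      · refine Convex.mul_sub_le_image_sub_of_le_deriv (convex_Icc c d) (hcφ'.mono
          (Icc_subset_Icc hcI.1 hdI.2)) ?_ ?_ c (left_mem_Icc.2 hcd) d (right_mem_Icc.2 hcd) hcd
        · intro y hy
          have hy1 := interior_subset hy
          exact (h2 y ⟨hcI.1.trans hy1.1, hy1.2.trans hdI.2⟩).differentiableAt.differentiableWithinAt
        · intro y hy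
          have hy1 := interior_subset hy
          rw [(h2 y ⟨hcI.1.trans hy1.1, hy1.2.trans hdI.2⟩).deriv]
          exact hlow y hy1
    rw [le_div_iff₀ hs0]
    have h3 : s * (s * (d - c)) ≤ s * 2 := by
      calc s * (s * (d - c)) = lam * (d - c) := by rw [← hss]; ring
        _ ≤ 2 * ρ := by linarith
        _ ≤ s * 2 := by linarith
    have h4 := le_of_mul_le_mul_left h3 hs0
    linarith
  rw [hsplit]
  calc ‖(∫ y in a..c, e (φ y)) + (∫ y in c..d, e (φ y)) + ∫ y in d..b, e (φ y)‖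
      ≤ ‖∫ y in a..c, e (φ y)‖ + ‖∫ y in c..d, e (φ y)‖ + ‖∫ y in d..b, e (φ y)‖ :=
        norm_add₃_le
    _ ≤ 1 / ρ + 2 / s + 1 / ρ := by linarith
    _ = 2 / δ + 4 / s := by
        rw [hρ]
        ring

theorem vdc2 {φ φ' φ'' : ℝ → ℝ} {a b δ lam : ℝ} (hab : a ≤ b) (hδ : 0 < δ) (hlam : 0 < lam)
    (h1 : ∀ y ∈ Icc a b, HasDerivAt φ (φ' y) y) (h2 : ∀ y ∈ Icc a b, HasDerivAt φ' (φ'' y) y)
    (hc : ContinuousOn φ'' (Icc a b))
    (hs : (∀ y ∈ Icc a b, 0 ≤ φ'' y) ∨ (∀ y ∈ Icc a b, φ'' y ≤ 0))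
    (hor : ∀ y ∈ Icc a b, δ ≤ |φ' y| ∨ lam ≤ |φ'' y|) :
    ‖∫ y in a..b, e (φ y)‖ ≤ 2 / δ + 4 / Real.sqrt lam := by
  rcases hs with hs | hs
  · exact vdc2_aux hab hδ hlam h1 h2 hc hs hor
  · have key := vdc2_aux (φ := fun y => -φ y) (φ' := fun y => -φ' y) (φ'' := fun y => -φ'' y)
      hab hδ hlam (fun y hy => (h1 y hy).neg) (fun y hy => (h2 y hy).neg) hc.neg
      (fun y hy => neg_nonneg.2 (hs y hy))
      (fun y hy => by simpa only [abs_neg] using hor y hy)
    have h3 : ∫ y in a..b, e (-φ y) = (starRingEnd ℂ) (∫ y in a..b, e (φ y)) := by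
      simp only [e_neg]
      rw [intervalIntegral.integral_of_le hab, intervalIntegral.integral_of_le hab]
      exact integral_conj
    rw [h3, RCLike.norm_conj] at key
    exact key

end Pool.H19.Wa
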